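import Mathlib

/-!
Series of entire functions on a normed space, small on larger and larger balls.
-/

namespace Pool.Agent.Work.MP_970e75_an

open Filter Topology Set Metric

variable {E : Type*} [NormedAddCommGroup E] [NormedSpace ℂ E]

/-- Cauchy's estimate for the derivative. -/
theorem norm_fderiv_le_of_le (h : E → ℂ) (hd : Differentiable ℂ h) (w : E) (C : ℝ) (hC : 0 ≤ C)
    (hb : ∀ z ∈ closedBall w 1, ‖h z‖ ≤ C) : ‖fderiv ℂ h w‖ ≤ C := by
  apply ContinuousLinearMap.opNorm_le_bound _ hC
  intro v
  rcases eq_or_ne v 0 with rfl | hv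
  · simp
  have hvn : 0 < ‖v‖ := norm_pos_iff.mpr hv
  set u : E := ((‖v‖ : ℂ)⁻¹) • v with hu
  have hun : ‖u‖ = 1 := by
    rw [hu, norm_smul, norm_inv, Complex.norm_real, norm_norm, inv_mul_cancel₀ hvn.ne']
  have hvu : v = (‖v‖ : ℂ) • u := by
    rw [hu, smul_smul, mul_inv_cancel₀ (by exact_mod_cast hvn.ne'), one_smul]
  have hline : Differentiable ℂ fun t : ℂ => h (w + t • u) :=
    hd.comp ((differentiable_const _).add (differentiable_id.smul_const u))
  have hder : deriv (fun t : ℂ => h (w + t • u)) 0 = fderiv ℂ h w u := by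
    have h1 : HasDerivAt (fun t : ℂ => w + t • u) u 0 := by
      simpa using ((hasDerivAt_id (0 : ℂ)).smul_const u).const_add w
    have h2 : HasFDerivAt h (fderiv ℂ h w) (w + (0 : ℂ) • u) := by
      rw [zero_smul, add_zero]
      exact (hd w).hasFDerivAt
    exact (h2.comp_hasDerivAt (0 : ℂ) h1).deriv
  have hest : ‖deriv (fun t : ℂ => h (w + t • u)) 0‖ ≤ C / 1 := by
    apply Complex.norm_deriv_le_of_forall_mem_sphere_norm_le one_pos hline.diffContOnCl
    intro t ht
    apply hb
    rw [mem_closedBall, dist_eq_norm, add_sub_cancel_left, norm_smul, hun, mul_one]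
    rw [mem_sphere, dist_zero_right] at ht
    exact ht.le
  rw [hder, div_one] at hest
  calc ‖fderiv ℂ h w v‖ = ‖v‖ * ‖fderiv ℂ h w u‖ := by
        conv_lhs => rw [hvu, map_smul, norm_smul, Complex.norm_real, norm_norm]
    _ ≤ ‖v‖ * C := mul_le_mul_of_nonneg_left hest (norm_nonneg _)
    _ = C * ‖v‖ := mul_comm _ _

/-- A series of entire functions with `i`-th term at most `2^{-i}` on the ball of radius `i`
converges to an entire function. -/
theorem differentiable_tsum_of_small (h : ℕ → E → ℂ) (hd : ∀ i, Differentiable ℂ (h i))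
    (hb : ∀ (i : ℕ) (w : E), ‖w‖ ≤ i → ‖h i w‖ ≤ (1 / 2 : ℝ) ^ i) :
    (∀ w, Summable fun i => h i w) ∧ Differentiable ℂ fun w => ∑' i, h i w := by
  have hu : Summable (fun n : ℕ => (1 / 2 : ℝ) ^ n) :=
    summable_geometric_of_lt_one (by norm_num) (by norm_num)
  have key : ∀ x : E, (Summable fun i => h i x) ∧
      DifferentiableAt ℂ (fun w => ∑' i, h i w) x := by
    intro x
    obtain ⟨J, hJ⟩ := exists_nat_gt (‖x‖ + 2)
    set s : Set E := Metric.ball (0 : E) (‖x‖ + 1) with hs
    have hs_open : IsOpen s := Metric.isOpen_ball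
    have hs_conn : IsPreconnected s := by
      let _ : NormedSpace ℝ E := NormedSpace.restrictScalars ℝ ℂ E
      exact (convex_ball (0 : E) _).isPreconnected
    have hder : ∀ n x, x ∈ s → HasFDerivAt (h (n + J)) (fderiv ℂ (h (n + J)) x) x := by
      intro n x _
      exact (hd (n + J) x).hasFDerivAt
    have hle : ∀ n : ℕ, (1 / 2 : ℝ) ^ (n + J) ≤ (1 / 2 : ℝ) ^ n := fun n =>
      pow_le_pow_of_le_one (by norm_num) (by norm_num) (by omega)
    have hbd : ∀ n x, x ∈ s → ‖fderiv ℂ (h (n + J)) x‖ ≤ (1 / 2 : ℝ) ^ n := by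
      intro n y hy
      refine (norm_fderiv_le_of_le _ (hd _) y _ (by positivity) ?_).trans (hle n)
      intro z hz
      apply hb
      have h1 : ‖y‖ < ‖x‖ + 1 := by simpa [hs] using hy
      have h2 : ‖z‖ ≤ ‖y‖ + 1 := by
        have h3 : ‖z - y‖ ≤ 1 := by simpa [dist_eq_norm] using hz
        have h4 := norm_sub_norm_le z y
        linarith
      push_cast
      have : (0 : ℝ) ≤ n := Nat.cast_nonneg n
      linarith
    have h0 : (0 : E) ∈ s := by
      simp only [hs, Metric.mem_ball, dist_self]
      positivity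
    have hsum0 : Summable (fun n => h (n + J) 0) := by
      apply Summable.of_norm_bounded hu
      intro n
      refine (hb (n + J) 0 ?_).trans (hle n)
      rw [norm_zero]
      positivity
    have hx : x ∈ s := by
      simp only [hs, Metric.mem_ball, dist_zero_right]
      linarith
    have htail := hasFDerivAt_tsum_of_isPreconnected hu hs_open hs_conn hder hbd h0 hsum0 hx
    have hsumm : ∀ y ∈ s, Summable (fun n => h n y) := by
      intro y hy
      have := summable_of_summable_hasFDerivAt_of_isPreconnected hu hs_open hs_conn hder hbd h0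
        hsum0 hy
      exact (summable_nat_add_iff J).mp this
    have heq : (fun z => ∑' j, h j z) =ᶠ[𝓝 x]
        fun z => (∑ j ∈ Finset.range J, h j z) + ∑' n, h (n + J) z := by
      filter_upwards [hs_open.mem_nhds hx] with y hy
      exact ((hsumm y hy).sum_add_tsum_nat_add J).symm
    have hfin : DifferentiableAt ℂ (fun z => ∑ j ∈ Finset.range J, h j z) x := by
      apply DifferentiableAt.fun_sum
      intro j _
      exact hd j x
    exact ⟨hsumm x hx, (hfin.add htail.differentiableAt).congr_of_eventuallyEq heq⟩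
  exact ⟨fun w => (key w).1, fun w => (key w).2⟩

end Pool.Agent.Work.MP_970e75_an
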