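import Pool.Agent.Work.MP_970e75_an.Stage
import Pool.Agent.Work.MP_970e75_an.Limit

/-!
Existence of a shear making `p` proper on a translate of a uniformly discrete set.
-/

namespace Pool.Agent.Work.MP_970e75_an

open Filter Topology Set Metric MeasureTheory
open scoped ENNReal

variable {G : Type*} [Group G] [TopologicalSpace G] [IsTopologicalGroup G] [MeasurableSpace G]
  [BorelSpace G] {μ : Measure G} {W : Type*} [NormedAddCommGroup W] [NormedSpace ℂ W]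

/-- One step of the iteration. -/
theorem step [T2Space G] [μ.IsMulRightInvariant] [μ.IsOpenPosMeasure]
    [IsFiniteMeasureOnCompacts μ] [SFinite μ]
    (F : FlowData G μ W) (D : Set G) (hD : D.Countable)
    (hsep : ∀ d ∈ D, ∀ d' ∈ D, d ≠ d' → μ {τ | F.q (τ * d) = F.q (τ * d')} = 0)
    (U : Set G) (hU : IsOpen U) (hUne : U.Nonempty)
    (hdisj : ∀ d ∈ D, ∀ d' ∈ D, ∀ τ ∈ U, ∀ τ' ∈ U, τ * d = τ' * d' → d = d')
    (L : Set G) (hL : IsCompact L) (hUL : U ⊆ L)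
    (f : W → ℂ) (hf : Differentiable ℂ f) (a b M δ : ℝ) (s : ℂ) (ha0 : 0 < a)
    (hnull : μ {g | ‖F.q g‖ = a} = 0)
    (hesc : ∀ g, F.p g ≤ M + 2 → F.p (F.θ s g) ≤ M + 2 → ‖F.q g‖ < a) (hδ : 0 < δ) :
    ∃ (f' : W → ℂ) (U' : Set G), Differentiable ℂ f' ∧
      (∀ w, ‖w‖ ≤ a → ‖w‖ ≤ b → ‖f' w - f w‖ ≤ δ) ∧
      IsOpen U' ∧ U'.Nonempty ∧ closure U' ⊆ U ∧
      ∀ τ ∈ U', ∀ d ∈ D, a ≤ ‖F.q (τ * d)‖ → ‖F.q (τ * d)‖ ≤ b →
        M < F.p (F.shear f' (τ * d)) := by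
  obtain ⟨f', hf', hclose, τ1, hτ1, hgood⟩ := stage F D hD hsep U hU hUne hdisj L hL hUL f hf a b
    M δ s ha0 hnull hesc hδ
  set K : Set G := {g | ‖F.q g‖ ≤ b ∧ F.p (F.shear f' g) ≤ M} ∩ {g | a ≤ ‖F.q g‖} with hK
  have hKc : IsCompact K := (F.compact_shear hf'.continuous b M).inter_right
    (isClosed_le continuous_const F.q_cont.norm)
  have hfin := finite_meets D U hU hUne hdisj L hL K hKc
  have hev : ∀ᶠ τ in 𝓝 τ1, ∀ d ∈ hfin.toFinset, τ * d ∉ K := by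
    rw [Finset.eventually_all]
    intro d hd
    have hdD : d ∈ D := (hfin.mem_toFinset.mp hd).1
    have h1 : τ1 * d ∉ K := by
      rintro ⟨⟨h2, h3⟩, h4⟩
      exact absurd (hgood d hdD h4 h2) (not_lt.mpr h3)
    have hc : Continuous fun τ : G => τ * d := continuous_id.mul continuous_const
    exact (hKc.isClosed.isOpen_compl.preimage hc).mem_nhds h1
  obtain ⟨N, hN, hNc, hNsub⟩ := exists_mem_nhds_isClosed_subset
    (inter_mem (hU.mem_nhds hτ1) hev)
  refine ⟨f', interior N, hf', hclose, isOpen_interior, ⟨τ1, mem_interior_iff_mem_nhds.mpr hN⟩,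
    ?_, ?_⟩
  · exact (closure_minimal interior_subset hNc).trans (hNsub.trans inter_subset_left)
  · intro τ hτ d hd h1 h2
    have hτN := hNsub (interior_subset hτ)
    by_contra hcon
    push Not at hcon
    have hKmem : τ * d ∈ K := ⟨⟨h2, hcon⟩, h1⟩
    exact hτN.2 d (hfin.mem_toFinset.mpr ⟨hd, τ, hUL hτN.1, hKmem⟩) hKmem

omit [Group G] [IsTopologicalGroup G] [NormedSpace ℂ W] in
/-- Radii with null spheres. -/
theorem exists_radii [SFinite μ] (F : FlowData G μ W) :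
    ∃ (a : ℕ → ℝ) (s : ℕ → ℂ), (∀ k : ℕ, (k : ℝ) < a k) ∧ (∀ k, 0 < a k) ∧ (∀ k, a k < a (k + 1)) ∧
      (∀ k, μ {g | ‖F.q g‖ = a k} = 0) ∧
      ∀ k : ℕ, ∀ g, F.p g ≤ (k + 1 : ℝ) + 2 → F.p (F.θ (s k) g) ≤ (k + 1 : ℝ) + 2 →
        ‖F.q g‖ < a k := by
  have hesc := fun k : ℕ => F.escape ((k + 1 : ℝ) + 2)
  choose R s hRs using hesc
  set m : ℕ → ℝ := fun k => ∑ i ∈ Finset.range (k + 1), (|R i| + 2) with hm
  have hmR : ∀ k, |R k| + 2 ≤ m k := by
    intro k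
    rw [hm]
    exact Finset.single_le_sum (f := fun i => |R i| + 2) (fun i _ => by positivity)
      (Finset.mem_range.mpr (Nat.lt_succ_self k))
  have hmk : ∀ k : ℕ, (k : ℝ) + 1 ≤ m k := by
    intro k
    rw [hm]
    calc (k : ℝ) + 1 = ∑ i ∈ Finset.range (k + 1), (1 : ℝ) := by simp
      _ ≤ ∑ i ∈ Finset.range (k + 1), (|R i| + 2) := by
        apply Finset.sum_le_sum
        intro i _
        have := abs_nonneg (R i)
        linarith
  have hms : ∀ k, m k + 2 ≤ m (k + 1) := by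
    intro k
    have : m (k + 1) = m k + (|R (k + 1)| + 2) := by
      simp only [hm]
      rw [Finset.sum_range_succ _ (k + 1)]
    have h2 := abs_nonneg (R (k + 1))
    linarith
  have hcount : {t : ℝ | 0 < μ {g | ‖F.q g‖ = t}}.Countable :=
    Measure.countable_meas_level_set_pos F.q_cont.norm.measurable
  have hd := hcount.dense_compl ℝ
  have hex : ∀ k, ∃ t, t ∈ Ioo (m k) (m k + 1) ∧ μ {g | ‖F.q g‖ = t} = 0 := by
    intro k
    obtain ⟨t, ht1, ht2⟩ := hd.inter_open_nonempty (Ioo (m k) (m k + 1)) isOpen_Ioo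
      (nonempty_Ioo.mpr (by linarith))
    exact ⟨t, ht1, by simpa using ht2⟩
  choose a ha1 ha2 using hex
  refine ⟨a, s, ?_, ?_, ?_, ha2, ?_⟩
  · intro k
    linarith [(ha1 k).1, hmk k]
  · intro k
    have : (0 : ℝ) ≤ k := Nat.cast_nonneg k
    linarith [(ha1 k).1, hmk k]
  · intro k
    linarith [(ha1 k).2, (ha1 (k + 1)).1, hms k]
  · intro k g h1 h2
    have h3 := hRs k g h1 h2
    have h4 := le_abs_self (R k)
    linarith [(ha1 k).1, hmR k]

/-- The main avoidance theorem. -/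
theorem exists_proper_shear [T2Space G] [μ.IsMulRightInvariant] [μ.IsOpenPosMeasure]
    [IsFiniteMeasureOnCompacts μ] [SFinite μ]
    (F : FlowData G μ W) (D : Set G) (hD : D.Countable)
    (hsep : ∀ d ∈ D, ∀ d' ∈ D, d ≠ d' → μ {τ | F.q (τ * d) = F.q (τ * d')} = 0)
    (U : Set G) (hU : IsOpen U) (hUne : U.Nonempty)
    (hdisj : ∀ d ∈ D, ∀ d' ∈ D, ∀ τ ∈ U, ∀ τ' ∈ U, τ * d = τ' * d' → d = d')
    (L : Set G) (hL : IsCompact L) (hUL : U ⊆ L) :
    ∃ τ ∈ U, ∃ f : W → ℂ, Differentiable ℂ f ∧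
      ∀ M : ℝ, {d | d ∈ D ∧ F.p (F.shear f (τ * d)) ≤ M}.Finite := by
  obtain ⟨a, s, hak, ha0, hamono, hnull, hesc⟩ := exists_radii F
  have hsm := fun k : ℕ => F.exists_small (a (k + 1)) (k : ℝ)
  choose δ' hδ'0 hδ' using hsm
  set e : ℕ → ℝ := fun i => (Finset.range (i + 1)).inf' ⟨0, by simp⟩ (fun k => min 1 (δ' k))
    with he
  have he0 : ∀ i, 0 < e i := by
    intro i
    rw [he]
    simp only [Finset.lt_inf'_iff]
    intro k _
    exact lt_min one_pos (hδ'0 k)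
  have hele : ∀ i k, k ≤ i → e i ≤ min 1 (δ' k) := by
    intro i k hk
    exact Finset.inf'_le (fun k => min 1 (δ' k)) (Finset.mem_range.mpr (by omega))
  set δ : ℕ → ℝ := fun i => (1 / 2 : ℝ) ^ (i + 1) * e i with hδdef
  have hδ0 : ∀ i, 0 < δ i := fun i => mul_pos (by positivity) (he0 i)
  -- the iteration
  have key : ∀ (k : ℕ) (x : {x : (W → ℂ) × Set G // Differentiable ℂ x.1 ∧ IsOpen x.2 ∧
      x.2.Nonempty ∧ x.2 ⊆ U}), ∃ y : {x : (W → ℂ) × Set G // Differentiable ℂ x.1 ∧ IsOpen x.2 ∧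
      x.2.Nonempty ∧ x.2 ⊆ U}, (∀ w, ‖w‖ ≤ a k → ‖w‖ ≤ a (k + 1) →
        ‖y.1.1 w - x.1.1 w‖ ≤ δ k) ∧ closure y.1.2 ⊆ x.1.2 ∧
      ∀ τ ∈ y.1.2, ∀ d ∈ D, a k ≤ ‖F.q (τ * d)‖ → ‖F.q (τ * d)‖ ≤ a (k + 1) →
        (k + 1 : ℝ) < F.p (F.shear y.1.1 (τ * d)) := by
    rintro k ⟨⟨f, V⟩, hf, hV, hVne, hVU⟩
    obtain ⟨f', U', h1, h2, h3, h4, h5, h6⟩ := step F D hD hsep V hV hVne
      (fun d hd d' hd' τ hτ τ' hτ' h => hdisj d hd d' hd' τ (hVU hτ) τ' (hVU hτ') h) L hL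
      (hVU.trans hUL) f hf (a k) (a (k + 1)) (k + 1 : ℝ) (δ k) (s k) (ha0 k) (hnull k) (hesc k)
      (hδ0 k)
    exact ⟨⟨(f', U'), h1, h3, h4, (subset_closure.trans h5).trans hVU⟩, h2, h5, h6⟩
  choose next hn1 hn2 hn3 using key
  let st : ℕ → {x : (W → ℂ) × Set G // Differentiable ℂ x.1 ∧ IsOpen x.2 ∧ x.2.Nonempty ∧
      x.2 ⊆ U} := fun k =>
    Nat.rec ⟨((fun _ => 0), U), differentiable_const 0, hU, hUne, subset_rfl⟩ (fun k x => next k x) k
  have hst0 : ∀ w, (st 0).1.1 w = 0 := fun w => rfl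
  have hsts : ∀ k, st (k + 1) = next k (st k) := fun k => rfl
  -- the translation
  have hne : (⋂ k, closure (st (k + 1)).1.2).Nonempty := by
    apply IsCompact.nonempty_iInter_of_sequence_nonempty_isCompact_isClosed
    · intro k
      exact ((hsts (k + 1)) ▸ hn2 (k + 1) (st (k + 1)) : closure (st (k + 1 + 1)).1.2 ⊆ _).trans
        subset_closure
    · intro k
      exact (st (k + 1)).2.2.2.1.closure
    · apply hL.of_isClosed_subset isClosed_closure
      have h1 : closure (st (0 + 1)).1.2 ⊆ (st 0).1.2 := (hsts 0) ▸ hn2 0 (st 0)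
      exact h1.trans ((st 0).2.2.2.2.trans hUL)
    · intro k
      exact isClosed_closure
  obtain ⟨τ, hτ⟩ := hne
  have hτk : ∀ k, τ ∈ (st k).1.2 := by
    intro k
    have h1 := mem_iInter.mp hτ k
    have h2 : closure (st (k + 1)).1.2 ⊆ (st k).1.2 := (hsts k) ▸ hn2 k (st k)
    exact h2 h1
  -- the function
  set h : ℕ → W → ℂ := fun i w => (st (i + 1)).1.1 w - (st i).1.1 w with hh
  have hhd : ∀ i, Differentiable ℂ (h i) := fun i => (st (i + 1)).2.1.sub (st i).2.1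
  have hhb : ∀ i w, ‖w‖ ≤ a i → ‖h i w‖ ≤ δ i := by
    intro i w hw
    have := hn1 i (st i) w hw (hw.trans (hamono i).le)
    rw [← hsts i] at this
    exact this
  have hδle : ∀ i, δ i ≤ (1 / 2 : ℝ) ^ i := by
    intro i
    rw [hδdef]
    have h1 : e i ≤ 1 := (hele i i le_rfl).trans (min_le_left _ _)
    have h2 : (1 / 2 : ℝ) ^ (i + 1) ≤ (1 / 2 : ℝ) ^ i :=
      pow_le_pow_of_le_one (by norm_num) (by norm_num) (by omega)
    calc (1 / 2 : ℝ) ^ (i + 1) * e i ≤ (1 / 2 : ℝ) ^ (i + 1) * 1 :=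
          mul_le_mul_of_nonneg_left h1 (by positivity)
      _ ≤ (1 / 2 : ℝ) ^ i := by rw [mul_one]; exact h2
  obtain ⟨hsum, hdiff⟩ := differentiable_tsum_of_small h hhd (fun i w hw =>
    (hhb i w (hw.trans (hak i).le)).trans (hδle i))
  refine ⟨τ, (st 0).2.2.2.2 (hτk 0), fun w => ∑' i, h i w, hdiff, ?_⟩
  have hpart : ∀ k w, ∑ i ∈ Finset.range k, h i w = (st k).1.1 w := by
    intro k w
    rw [Finset.sum_range_sub (fun i => (st i).1.1 w) k, hst0, sub_zero]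
  have htail : ∀ k w, ‖w‖ ≤ a (k + 1) →
      ‖∑' i, h i w - (st (k + 1)).1.1 w‖ ≤ δ' k := by
    intro k w hw
    have hp := hpart (k + 1) w
    rw [← hp, ← (hsum w).sum_add_tsum_nat_add (k + 1), add_sub_cancel_left]
    apply tsum_of_norm_bounded (hasSum_geometric_two' (δ' k))
    intro i
    have hamon : Monotone a := monotone_nat_of_le_succ fun n => (hamono n).le
    have h1 := hhb (i + (k + 1)) w (hw.trans (hamon (by omega)))
    refine h1.trans ?_
    rw [hδdef]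
    have h2 : e (i + (k + 1)) ≤ δ' k := (hele _ k (by omega)).trans (min_le_right _ _)
    have h3 : (1 / 2 : ℝ) ^ (i + (k + 1) + 1) ≤ (1 / 2 : ℝ) ^ (i + 1) :=
      pow_le_pow_of_le_one (by norm_num) (by norm_num) (by omega)
    calc (1 / 2 : ℝ) ^ (i + (k + 1) + 1) * e (i + (k + 1))
        ≤ (1 / 2 : ℝ) ^ (i + 1) * δ' k :=
          mul_le_mul h3 h2 (he0 _).le (by positivity)
      _ = δ' k / 2 / 2 ^ i := by
          rw [pow_succ, one_div, inv_pow]; field_simp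
  intro M
  obtain ⟨k0, hk0⟩ := exists_nat_ge M
  have hfin := finite_meets D U hU hUne hdisj {τ} isCompact_singleton _
    (F.compact_shear hdiff.continuous (a k0) M)
  refine hfin.subset ?_
  rintro d ⟨hd, hp⟩
  refine ⟨hd, τ, rfl, ?_, hp⟩
  by_contra hbig
  push Not at hbig
  -- find the shell
  have hex : ∃ k, ‖F.q (τ * d)‖ ≤ a (k + 1) := by
    obtain ⟨k, hk⟩ := exists_nat_ge ‖F.q (τ * d)‖
    refine ⟨k, hk.trans ?_⟩
    linarith [hak k, hamono k]
  classical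
  set k := Nat.find hex with hkdef
  have hk1 : ‖F.q (τ * d)‖ ≤ a (k + 1) := Nat.find_spec hex
  have hamon : Monotone a := monotone_nat_of_le_succ fun n => (hamono n).le
  have hk0k : k0 ≤ k := by
    by_contra hlt
    push Not at hlt
    have := hamon (show k + 1 ≤ k0 by omega)
    linarith
  have hk2 : a k ≤ ‖F.q (τ * d)‖ := by
    rcases Nat.eq_zero_or_pos k with h0 | hpos
    · have : k0 = k := by omega
      rw [← this]
      exact hbig.le
    · have h1 := Nat.find_min hex (m := k - 1) (by omega)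
      push Not at h1
      have h2 : k - 1 + 1 = k := by omega
      rw [h2] at h1
      exact h1.le
  have hgood : (k + 1 : ℝ) < F.p (F.shear (st (k + 1)).1.1 (τ * d)) := by
    have := hn3 k (st k) τ (by rw [← hsts k]; exact hτk (k + 1)) d hd hk2 hk1
    rw [← hsts k] at this
    exact this
  set u : ℂ := ∑' i, h i (F.q (τ * d)) - (st (k + 1)).1.1 (F.q (τ * d)) with hu
  have hun : ‖u‖ ≤ δ' k := htail k _ hk1
  have hshear : F.shear (fun w => ∑' i, h i w) (τ * d) =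
      F.θ u (F.shear (st (k + 1)).1.1 (τ * d)) := by
    show F.θ (∑' i, h i (F.q (τ * d))) (τ * d) =
      F.θ u (F.θ ((st (k + 1)).1.1 (F.q (τ * d))) (τ * d))
    rw [← F.θ_add]
    congr 1
    rw [hu]
    ring
  have hple : F.p (F.θ u (F.shear (st (k + 1)).1.1 (τ * d))) ≤ (k : ℝ) := by
    rw [← hshear]
    have : (k0 : ℝ) ≤ k := by exact_mod_cast hk0k
    linarith
  have := hδ' k _ u (by rw [F.q_shear]; exact hk1) hun hple
  linarith

end Pool.Agent.Work.MP_970e75_an
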