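import Mathlib

/-!
Interpolation by entire functions of several variables on a sequence tending to infinity.
-/

namespace Pool.Agent.Work.MP_970e75_an

open Filter Topology Finset

variable {E : Type*} [NormedAddCommGroup E] [NormedSpace ℂ E] [FiniteDimensional ℂ E]

omit [FiniteDimensional ℂ E] in
/-- A polynomial type function vanishing on a finite set and prescribed at one more point. -/
theorem exists_vanish (B : Finset E) (p : E) (hpB : p ∉ B) (v : ℂ) :
    ∃ Q : E → ℂ, ContDiff ℂ 1 Q ∧ (∀ b ∈ B, Q b = 0) ∧ Q p = v := by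
  classical
  have hsep : ∀ b : E, ∃ h : E →L[ℂ] ℂ, b ∈ B → h (p - b) ≠ 0 := by
    intro b
    by_cases hb : b ∈ B
    · have hne : p - b ≠ 0 := by
        intro h0
        apply hpB
        rw [sub_eq_zero] at h0
        rw [h0]
        exact hb
      obtain ⟨g, -, hg⟩ := exists_dual_vector ℂ (p - b) (norm_ne_zero_iff.mpr hne)
      refine ⟨g, fun _ => ?_⟩
      rw [hg]
      simpa using hne
    · exact ⟨0, fun h => absurd h hb⟩
  choose h hh using hsep
  refine ⟨fun z => v * ∏ b ∈ B, (h b (z - b) / h b (p - b)), ?_, ?_, ?_⟩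
  · apply ContDiff.mul contDiff_const
    apply contDiff_prod
    intro b _
    apply ContDiff.div_const
    exact (h b).contDiff.comp (contDiff_id.sub contDiff_const)
  · intro b hb
    have : ∏ b' ∈ B, (h b' (b - b') / h b' (p - b')) = 0 := by
      apply Finset.prod_eq_zero hb
      simp
    simp only [this, mul_zero]
  · have : ∏ b ∈ B, (h b (p - b) / h b (p - b)) = 1 := by
      apply Finset.prod_eq_one
      intro b hb
      exact div_self (hh b hb)
    simp only [this, mul_one]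

/-- One correction term: vanishes on `B`, prescribed at `p`, and with small derivative on the
ball of radius half the norm of `p`. -/
theorem exists_step (B : Finset E) (p : E) (hp : p ≠ 0) (hpB : p ∉ B) (v : ℂ) (ε : ℝ)
    (hε : 0 < ε) :
    ∃ F : E → ℂ, ContDiff ℂ 1 F ∧ (∀ b ∈ B, F b = 0) ∧ F p = v ∧ F 0 = 0 ∧
      ∀ z, ‖z‖ ≤ ‖p‖ / 2 → ‖fderiv ℂ F z‖ ≤ ε := by
  obtain ⟨Q, hQ, hQB, hQp⟩ := exists_vanish B p hpB v
  have hpn : 0 < ‖p‖ := norm_pos_iff.mpr hp
  obtain ⟨g, hg1, hgp⟩ := exists_dual_vector ℂ p hpn.ne'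
  set L : E →L[ℂ] ℂ := (‖p‖ : ℂ)⁻¹ • g with hL
  have hLp : L p = 1 := by
    have : (‖p‖ : ℂ) ≠ 0 := by exact_mod_cast hpn.ne'
    simp only [hL, _root_.smul_apply, smul_eq_mul, hgp]
    exact inv_mul_cancel₀ this
  have hLn : ‖L‖ = ‖p‖⁻¹ := by
    rw [hL, norm_smul, hg1, norm_inv]
    simp
  have hLz : ∀ z, ‖z‖ ≤ ‖p‖ / 2 → ‖L z‖ ≤ 1 / 2 := by
    intro z hz
    calc ‖L z‖ ≤ ‖L‖ * ‖z‖ := L.le_opNorm z
      _ = ‖p‖⁻¹ * ‖z‖ := by rw [hLn]
      _ ≤ ‖p‖⁻¹ * (‖p‖ / 2) := by gcongr
      _ = 1 / 2 := by field_simp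
  -- bounds on the ball
  have : ProperSpace E := FiniteDimensional.proper_rclike ℂ E
  have hcomp : IsCompact (Metric.closedBall (0 : E) (‖p‖ / 2)) := isCompact_closedBall _ _
  obtain ⟨C1, hC1⟩ := hcomp.exists_bound_of_continuousOn hQ.continuous.continuousOn
  obtain ⟨C2, hC2⟩ := hcomp.exists_bound_of_continuousOn
    ((hQ.continuous_fderiv (by norm_num)).continuousOn)
  have h0mem : (0 : E) ∈ Metric.closedBall (0 : E) (‖p‖ / 2) :=
    Metric.mem_closedBall_self (by positivity)
  have hC1' : 0 ≤ C1 := le_trans (norm_nonneg _) (hC1 0 h0mem)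
  have hC2' : 0 ≤ C2 := le_trans (norm_nonneg _) (hC2 0 h0mem)
  have hlim : Tendsto (fun N : ℕ => C1 * (((N : ℝ) + 1) * (1 / 2) ^ N * ‖p‖⁻¹)
      + C2 * (1 / 2) ^ (N + 1)) atTop (𝓝 0) := by
    have h1 : Tendsto (fun N : ℕ => (N : ℝ) * (1 / 2 : ℝ) ^ N) atTop (𝓝 0) :=
      tendsto_self_mul_const_pow_of_lt_one (by norm_num) (by norm_num)
    have h2 : Tendsto (fun N : ℕ => (1 / 2 : ℝ) ^ N) atTop (𝓝 0) :=
      tendsto_pow_atTop_nhds_zero_of_lt_one (by norm_num) (by norm_num)
    have h3 : Tendsto (fun N : ℕ => C1 * (((N : ℝ) * (1 / 2 : ℝ) ^ N + (1 / 2 : ℝ) ^ N) * ‖p‖⁻¹)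
        + C2 * ((1 / 2 : ℝ) ^ N * (1 / 2))) atTop
        (𝓝 (C1 * ((0 + 0) * ‖p‖⁻¹) + C2 * (0 * (1 / 2)))) :=
      (((h1.add h2).mul_const _).const_mul _).add ((h2.mul_const _).const_mul _)
    simp only [add_zero, zero_mul, mul_zero] at h3
    refine h3.congr ?_
    intro N
    ring
  obtain ⟨N, hN⟩ := (hlim.eventually (gt_mem_nhds hε)).exists
  refine ⟨fun z => Q z * (L z) ^ (N + 1), ?_, ?_, ?_, ?_, ?_⟩
  · exact hQ.mul (L.contDiff.pow _)
  · intro b hb
    simp [hQB b hb]
  · simp [hQp, hLp]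
  · simp
  · intro z hz
    have hQd : HasFDerivAt Q (fderiv ℂ Q z) z :=
      (hQ.differentiable (by norm_num) z).hasFDerivAt
    have hLd : HasFDerivAt (fun z => (L z) ^ (N + 1))
        (((N + 1 : ℕ) : ℂ) • (L z) ^ N • L) z := by
      have := (L.hasFDerivAt (x := z)).pow (N + 1)
      simpa [smul_smul] using this
    have hF : HasFDerivAt (fun z => Q z * (L z) ^ (N + 1))
      (Q z • (((N + 1 : ℕ) : ℂ) • (L z) ^ N • L) + (L z) ^ (N + 1) • fderiv ℂ Q z) z :=
      hQd.mul hLd
    rw [hF.fderiv]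
    have hz' : z ∈ Metric.closedBall (0 : E) (‖p‖ / 2) := by simpa using hz
    have hLz' := hLz z hz
    calc ‖Q z • (((N + 1 : ℕ) : ℂ) • (L z) ^ N • L) + (L z) ^ (N + 1) • fderiv ℂ Q z‖
        ≤ ‖Q z • (((N + 1 : ℕ) : ℂ) • (L z) ^ N • L)‖ + ‖(L z) ^ (N + 1) • fderiv ℂ Q z‖ :=
          norm_add_le _ _
      _ = ‖Q z‖ * (((N : ℝ) + 1) * (‖L z‖ ^ N * ‖p‖⁻¹)) + ‖L z‖ ^ (N + 1) * ‖fderiv ℂ Q z‖ := by
          simp only [norm_smul, norm_pow, hLn]
          have : ‖((N + 1 : ℕ) : ℂ)‖ = (N : ℝ) + 1 := by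
            rw [Complex.norm_natCast]; push_cast; ring
          rw [this]
      _ ≤ C1 * (((N : ℝ) + 1) * ((1 / 2) ^ N * ‖p‖⁻¹)) + (1 / 2) ^ (N + 1) * C2 := by
          have hA := hC1 z hz'
          have hB := hC2 z hz'
          gcongr
      _ = C1 * (((N : ℝ) + 1) * (1 / 2) ^ N * ‖p‖⁻¹) + C2 * (1 / 2) ^ (N + 1) := by ring
      _ ≤ ε := hN.le

/-- Interpolation: an entire function on a finite dimensional space with prescribed values
on an injective sequence of nonzero points tending to infinity. -/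
theorem exists_entire_interp (p : ℕ → E) (hinj : Function.Injective p) (hne : ∀ j, p j ≠ 0)
    (hlim : Tendsto (fun j => ‖p j‖) atTop atTop) (v : ℕ → ℂ) :
    ∃ f : E → ℂ, Differentiable ℂ f ∧ ∀ j, f (p j) = v j := by
  classical
  have hnot : ∀ j, p j ∉ (Finset.range j).image p := by
    intro j hj
    rw [Finset.mem_image] at hj
    obtain ⟨i, hi, hij⟩ := hj
    have := hinj hij
    rw [this] at hi
    simp at hi
  have hstep : ∀ (j : ℕ) (w : ℂ), ∃ F : E → ℂ, ContDiff ℂ 1 F ∧
      (∀ b ∈ (Finset.range j).image p, F b = 0) ∧ F (p j) = w ∧ F 0 = 0 ∧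
      ∀ z, ‖z‖ ≤ ‖p j‖ / 2 → ‖fderiv ℂ F z‖ ≤ (1 / 2 : ℝ) ^ j := fun j w =>
    exists_step ((Finset.range j).image p) (p j) (hne j) (hnot j) w _ (by positivity)
  choose G hG1 hG2 hG3 hG4 hG5 using hstep
  let S : ℕ → (E → ℂ) := fun j => Nat.rec (fun _ => 0) (fun i s => fun z => s z + G i (v i - s (p i)) z) j
  have hS0 : ∀ z, S 0 z = 0 := fun z => rfl
  have hSs : ∀ j z, S (j + 1) z = S j z + G j (v j - S j (p j)) z := fun j z => rfl
  let F : ℕ → (E → ℂ) := fun j => G j (v j - S j (p j))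
  have hSF : ∀ j z, S j z = ∑ i ∈ Finset.range j, F i z := by
    intro j z
    induction j with
    | zero => simp [hS0]
    | succ j ih => rw [hSs, Finset.sum_range_succ, ih]
  have hFp : ∀ i j, j < i → F i (p j) = 0 := by
    intro i j hij
    exact hG2 i _ (p j) (Finset.mem_image.mpr ⟨j, Finset.mem_range.mpr hij, rfl⟩)
  have hFj : ∀ j, F j (p j) = v j - S j (p j) := fun j => hG3 j _
  refine ⟨fun z => ∑' j, F j z, ?_, ?_⟩
  · intro x
    set R : ℝ := ‖x‖ + 1 with hR
    have hev : ∀ᶠ j in atTop, 2 * R ≤ ‖p j‖ := hlim.eventually_ge_atTop _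
    obtain ⟨J, hJ⟩ := eventually_atTop.mp hev
    set s : Set E := Metric.ball (0 : E) R with hs
    have hs_open : IsOpen s := Metric.isOpen_ball
    have hs_conn : IsPreconnected s := by
      let _ : NormedSpace ℝ E := NormedSpace.restrictScalars ℝ ℂ E
      exact (convex_ball (0 : E) R).isPreconnected
    have hu : Summable (fun n : ℕ => (1 / 2 : ℝ) ^ n) :=
      summable_geometric_of_lt_one (by norm_num) (by norm_num)
    have hder : ∀ n x, x ∈ s → HasFDerivAt (F (n + J)) (fderiv ℂ (F (n + J)) x) x := by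
      intro n x _
      exact ((hG1 (n + J) _).differentiable (by norm_num) x).hasFDerivAt
    have hbd : ∀ n x, x ∈ s → ‖fderiv ℂ (F (n + J)) x‖ ≤ (1 / 2 : ℝ) ^ n := by
      intro n y hy
      have h1 : ‖y‖ ≤ ‖p (n + J)‖ / 2 := by
        have h2 := hJ (n + J) (by omega)
        have h3 : ‖y‖ < R := by simpa [hs] using hy
        linarith
      refine (hG5 (n + J) _ y h1).trans ?_
      exact pow_le_pow_of_le_one (by norm_num) (by norm_num) (by omega)
    have h0 : (0 : E) ∈ s := by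
      simp only [hs, Metric.mem_ball, dist_self]
      positivity
    have hsum0 : Summable (fun n => F (n + J) 0) := by
      have : (fun n => F (n + J) 0) = fun _ => (0 : ℂ) := by
        funext n
        exact hG4 (n + J) _
      rw [this]
      exact summable_zero
    have hx : x ∈ s := by
      simp only [hs, Metric.mem_ball, dist_zero_right, hR]
      linarith
    have htail := hasFDerivAt_tsum_of_isPreconnected hu hs_open hs_conn hder hbd h0 hsum0 hx
    have hsumm : ∀ y ∈ s, Summable (fun n => F n y) := by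
      intro y hy
      have := summable_of_summable_hasFDerivAt_of_isPreconnected hu hs_open hs_conn hder hbd h0
        hsum0 hy
      exact (summable_nat_add_iff J).mp this
    have heq : (fun z => ∑' j, F j z) =ᶠ[𝓝 x]
        fun z => (∑ j ∈ Finset.range J, F j z) + ∑' n, F (n + J) z := by
      filter_upwards [hs_open.mem_nhds hx] with y hy
      exact ((hsumm y hy).sum_add_tsum_nat_add J).symm
    have hfin : DifferentiableAt ℂ (fun z => ∑ j ∈ Finset.range J, F j z) x := by
      apply DifferentiableAt.fun_sum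
      intro j _
      exact (hG1 j _).differentiable (by norm_num) x
    exact (hfin.add htail.differentiableAt).congr_of_eventuallyEq heq
  · intro j
    have h1 : ∑' i, F i (p j) = ∑ i ∈ Finset.range (j + 1), F i (p j) := by
      apply tsum_eq_sum
      intro i hi
      apply hFp
      simpa using hi
    simp only
    rw [h1, Finset.sum_range_succ, hFj, ← hSF]
    ring

end Pool.Agent.Work.MP_970e75_an
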