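import Pool.Agent.Work.MP_970e75_an.DefsLin
import Pool.Agent.Work.MP_970e75_an.Interp

/-!
Basic facts on closed complex subgroups of `SL_N(ℂ)`, holomorphic maps and interpolation.
-/

namespace Pool.Agent.Work.MP_970e75_an.Lin

open Filter Topology Set

variable {N : ℕ}

theorem isClosedEmbedding_entries :
    Topology.IsClosedEmbedding (entries : SL N → Fin N → Fin N → ℂ) :=
  Matrix.SpecialLinearGroup.isClosedEmbedding_val

theorem IsComplexSubgroup.isClosed {G : Subgroup (SL N)} (hG : IsComplexSubgroup G) :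
    IsClosed (G : Set (SL N)) := by
  obtain ⟨S, hS, hmem⟩ := hG
  have : (G : Set (SL N)) = ⋂ F ∈ S, {g | F (entries g) = 0} := by
    ext g
    simp only [mem_iInter, mem_ofPred_eq]
    exact hmem g
  rw [this]
  apply isClosed_biInter
  intro F hF
  exact isClosed_eq ((hS F hF).continuous.comp isClosedEmbedding_entries.continuous)
    continuous_const

/-- The embedding of `G` in `ℂ^(N×N)`. -/
theorem isClosedEmbedding_entries_sub {G : Subgroup (SL N)} (hG : IsClosed (G : Set (SL N))) :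
    Topology.IsClosedEmbedding (fun g : G => entries g.1) :=
  isClosedEmbedding_entries.comp (Topology.IsClosedEmbedding.subtypeVal hG)

theorem isCompact_bounded {G : Subgroup (SL N)} (hG : IsClosed (G : Set (SL N))) (R : ℝ) :
    IsCompact {g : G | ‖entries g.1‖ ≤ R} := by
  have h1 : IsCompact (Metric.closedBall (0 : Fin N → Fin N → ℂ) R) := isCompact_closedBall _ _
  have h2 := (isClosedEmbedding_entries_sub hG).isCompact_preimage h1
  convert h2 using 1
  ext γ
  simp

theorem isHolomorphic_id (G : Subgroup (SL N)) : IsHolomorphic G (fun g => g) :=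
  fun _ => ⟨univ, isOpen_univ, mem_univ _, id, differentiableOn_id, fun _ _ => rfl⟩

theorem IsHolomorphic.comp {G : Subgroup (SL N)} {φ ψ : G → G} (hφ : IsHolomorphic G φ)
    (hψ : IsHolomorphic G ψ) : IsHolomorphic G (fun g => φ (ψ g)) := by
  intro g
  obtain ⟨U, hU, hgU, A, hA, hAψ⟩ := hψ g
  obtain ⟨V, hV, hgV, B, hB, hBφ⟩ := hφ (ψ g)
  refine ⟨U ∩ A ⁻¹' V, hA.continuousOn.isOpen_inter_preimage hU hV, ⟨hgU, ?_⟩, fun x => B (A x), ?_, ?_⟩
  · rw [mem_preimage, ← hAψ g hgU]
    exact hgV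
  · exact hB.comp (hA.mono inter_subset_left) (fun x hx => hx.2)
  · rintro h ⟨h1, h2⟩
    have h3 := hAψ h h1
    have h4 : entries (ψ h).1 ∈ V := by rw [h3]; exact h2
    rw [hBφ _ h4, h3]

theorem IsAutomorphism.trans {G : Subgroup (SL N)} {φ ψ : G ≃ G} (hφ : IsAutomorphism G φ)
    (hψ : IsAutomorphism G ψ) : IsAutomorphism G (φ.trans ψ) :=
  ⟨hψ.1.comp hφ.1, hφ.2.comp hψ.2⟩

theorem isHolomorphic_mulLeft (G : Subgroup (SL N)) (τ : G) :
    IsHolomorphic G (fun g => τ * g) := by
  intro g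
  refine ⟨univ, isOpen_univ, mem_univ _, fun x i j => ∑ k, entries τ.1 i k * x k j, ?_, ?_⟩
  · apply Differentiable.differentiableOn
    fun_prop
  · intro h _
    funext i j
    show ((τ.1 * h.1 : SL N) : Matrix (Fin N) (Fin N) ℂ) i j = _
    rw [Matrix.SpecialLinearGroup.coe_mul, Matrix.mul_apply]
    rfl

theorem isHolomorphic_mulRight (G : Subgroup (SL N)) (σ : G) :
    IsHolomorphic G (fun g => g * σ) := by
  intro g
  refine ⟨univ, isOpen_univ, mem_univ _, fun x i j => ∑ k, x i k * entries σ.1 k j, ?_, ?_⟩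
  · apply Differentiable.differentiableOn
    fun_prop
  · intro h _
    funext i j
    show ((h.1 * σ.1 : SL N) : Matrix (Fin N) (Fin N) ℂ) i j = _
    rw [Matrix.SpecialLinearGroup.coe_mul, Matrix.mul_apply]
    rfl

theorem isAutomorphism_mulLeft (G : Subgroup (SL N)) (τ : G) :
    IsAutomorphism G (Equiv.mulLeft τ) :=
  ⟨isHolomorphic_mulLeft G τ, isHolomorphic_mulLeft G τ⁻¹⟩

theorem isAutomorphism_mulRight (G : Subgroup (SL N)) (σ : G) :
    IsAutomorphism G (Equiv.mulRight σ) :=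
  ⟨isHolomorphic_mulRight G σ, isHolomorphic_mulRight G σ⁻¹⟩

/-- Tameness transported by an automorphism. -/
theorem isTame_of_image {G : Subgroup (SL N)} (D : Set G) (φ : G ≃ G) (hφ : IsAutomorphism G φ)
    (h : IsTame G (φ '' D)) : IsTame G D := by
  intro ρ hρ ζ
  obtain ⟨ψ, hψ, hle⟩ := h ρ hρ (fun x => ζ (φ.symm x))
  refine ⟨φ.trans ψ, hφ.trans hψ, ?_⟩
  intro x hx
  have := hle (φ x) ⟨x, hx, rfl⟩
  simpa using this

end Pool.Agent.Work.MP_970e75_an.Lin

namespace Pool.Agent.Work.MP_970e75_an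

open Filter Topology Set

/-- Interpolation of arbitrary values at the points of a closed discrete set. -/
theorem exists_entire_values {E : Type*} [NormedAddCommGroup E] [NormedSpace ℂ E]
    [FiniteDimensional ℂ E] (P : Set E) (hfin : ∀ R : ℝ, {p ∈ P | ‖p‖ ≤ R}.Finite)
    (v : E → ℂ) : ∃ f : E → ℂ, Differentiable ℂ f ∧ ∀ p ∈ P, f p = v p := by
  classical
  -- the augmented infinite set in `E × ℂ`
  set Q : Set (E × ℂ) := (fun p => (p, (1 : ℂ))) '' P ∪ range (fun k : ℕ => ((0 : E), (k : ℂ) + 2))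
    with hQ
  have hQfin : ∀ R : ℝ, {x ∈ Q | ‖x‖ ≤ R}.Finite := by
    intro R
    have h1 : ((fun p => (p, (1 : ℂ))) '' {p ∈ P | ‖p‖ ≤ R}).Finite := (hfin R).image _
    obtain ⟨K, hK⟩ := exists_nat_ge R
    have h2 : ((fun k : ℕ => ((0 : E), (k : ℂ) + 2)) '' {k | k ≤ K}).Finite :=
      (Set.finite_le_nat K).image _
    refine (h1.union h2).subset ?_
    rintro x ⟨hx | hx, hn⟩
    · obtain ⟨p, hp, rfl⟩ := hx
      left
      refine ⟨p, ⟨hp, ?_⟩, rfl⟩
      exact (norm_fst_le (p, (1 : ℂ))).trans hn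
    · obtain ⟨k, rfl⟩ := hx
      right
      refine ⟨k, ?_, rfl⟩
      have h3 : ‖(k : ℂ) + 2‖ ≤ R := (norm_snd_le ((0 : E), (k : ℂ) + 2)).trans hn
      have h4 : ‖(k : ℂ) + 2‖ = (k : ℝ) + 2 := by
        have : (k : ℂ) + 2 = ((k + 2 : ℕ) : ℂ) := by push_cast; rfl
        rw [this, Complex.norm_natCast]; push_cast; rfl
      rw [h4] at h3
      have : (k : ℝ) ≤ K := by linarith
      exact_mod_cast this
  have hcount : Q.Countable := by
    have : Q = ⋃ k : ℕ, {p ∈ Q | ‖p‖ ≤ (k : ℝ)} := by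
      ext p
      simp only [Set.mem_iUnion, Set.mem_ofPred_eq]
      constructor
      · intro hp
        obtain ⟨k, hk⟩ := exists_nat_ge ‖p‖
        exact ⟨k, hp, hk⟩
      · rintro ⟨k, hp, -⟩
        exact hp
    rw [this]
    exact Set.countable_iUnion fun k => (hQfin k).countable
  have hinf : Q.Infinite := by
    apply Set.Infinite.mono subset_union_right
    apply Set.infinite_range_of_injective
    intro a b hab
    have := congrArg Prod.snd hab
    simpa using this
  have hc' : Countable Q := hcount.to_subtype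
  have hi' : Infinite Q := hinf.to_subtype
  obtain ⟨e⟩ : Nonempty (ℕ ≃ Q) := by
    obtain ⟨d⟩ := nonempty_denumerable Q
    exact ⟨d.eqv.symm⟩
  let p : ℕ → E × ℂ := fun j => (e j : E × ℂ)
  have hpinj : Function.Injective p := Subtype.val_injective.comp e.injective
  have hpne : ∀ j, p j ≠ 0 := by
    intro j hj
    rcases (e j).2 with hx | hx
    · obtain ⟨x, -, hx⟩ := hx
      have h1 : (x, (1 : ℂ)) = 0 := hx.trans hj
      have := congrArg Prod.snd h1
      simp at this
    · obtain ⟨k, hx⟩ := hx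
      have h1 : ((0 : E), (k : ℂ) + 2) = 0 := hx.trans hj
      have h2 := congrArg Prod.snd h1
      have h3 : ((k + 2 : ℕ) : ℂ) = 0 := by push_cast; exact h2
      have h4 := Nat.cast_eq_zero.mp h3
      omega
  have hlim : Tendsto (fun j => ‖p j‖) atTop atTop := by
    rw [tendsto_atTop]
    intro R
    have h1 : {j | ¬ R ≤ ‖p j‖}.Finite := by
      have h2 : {j | ¬ R ≤ ‖p j‖} ⊆ p ⁻¹' {q ∈ Q | ‖q‖ ≤ R} := by
        intro j hj
        simp only [Set.mem_ofPred_eq, not_le] at hj
        exact ⟨(e j).2, hj.le⟩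
      exact ((hQfin R).preimage (hpinj.injOn)).subset h2
    have h3 := h1.compl_mem_cofinite
    rw [Nat.cofinite_eq_atTop] at h3
    filter_upwards [h3] with j hj
    simpa using hj
  obtain ⟨f, hf, hfp⟩ := exists_entire_interp p hpinj hpne hlim (fun j => v (p j).1)
  refine ⟨fun x => f (x, 1), ?_, ?_⟩
  · exact hf.comp (differentiable_id.prodMk (differentiable_const _))
  · intro q hq
    obtain ⟨j, hj⟩ := e.surjective ⟨(q, 1), Or.inl ⟨q, hq, rfl⟩⟩
    have hqj : p j = (q, 1) := by
      simp only [p, hj]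
    have := hfp j
    rw [hqj] at this
    exact this

end Pool.Agent.Work.MP_970e75_an
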