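import Pool.Agent.Work.MP_970e75_an.Defs
import Pool.Agent.Work.MP_970e75_an.Interp

/-!
A criterion for tameness in `SL_n(ℂ)`: if the elements of `D` go to infinity modulo a vector `v`
(that is, `γ ↦ γ mod v` is proper on `D`), then `D` is tame.
-/

namespace Pool.Agent.Work.MP_970e75_an

open Filter Topology Matrix

/-- An entire function which is large at prescribed points of a closed discrete set. -/
theorem exists_entire_large {E : Type*} [NormedAddCommGroup E] [NormedSpace ℂ E]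
    [FiniteDimensional ℂ E] (P : Set E) (hfin : ∀ R : ℝ, {p ∈ P | ‖p‖ ≤ R}.Finite)
    (h0 : (0 : E) ∉ P) (M : E → ℝ) :
    ∃ f : E → ℂ, Differentiable ℂ f ∧ ∀ p ∈ P, M p ≤ ‖f p‖ := by
  classical
  by_cases hP : P.Finite
  · obtain ⟨C, hC⟩ := (hP.image M).bddAbove
    refine ⟨fun _ => ((|C| : ℝ) : ℂ), differentiable_const _, ?_⟩
    intro p hp
    have h1 : M p ≤ C := hC ⟨p, hp, rfl⟩
    rw [Complex.norm_real, Real.norm_eq_abs, abs_abs]
    exact h1.trans (le_abs_self C)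
  · have hinf : P.Infinite := hP
    have hcount : P.Countable := by
      have : P = ⋃ k : ℕ, {p ∈ P | ‖p‖ ≤ (k : ℝ)} := by
        ext p
        simp only [Set.mem_iUnion, Set.mem_ofPred_eq]
        constructor
        · intro hp
          obtain ⟨k, hk⟩ := exists_nat_ge ‖p‖
          exact ⟨k, hp, hk⟩
        · rintro ⟨k, hp, -⟩
          exact hp
      rw [this]
      exact Set.countable_iUnion fun k => (hfin k).countable
    have hc' : Countable P := hcount.to_subtype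
    have hi' : Infinite P := hinf.to_subtype
    obtain ⟨e⟩ : Nonempty (ℕ ≃ P) := by
      obtain ⟨d⟩ := nonempty_denumerable P
      exact ⟨d.eqv.symm⟩
    let p : ℕ → E := fun j => (e j : E)
    have hpinj : Function.Injective p := Subtype.val_injective.comp e.injective
    have hpne : ∀ j, p j ≠ 0 := by
      intro j hj
      apply h0
      rw [← hj]
      exact (e j).2
    have hlim : Tendsto (fun j => ‖p j‖) atTop atTop := by
      rw [tendsto_atTop]
      intro R
      have h1 : {j | ¬ R ≤ ‖p j‖}.Finite := by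
        have h2 : {j | ¬ R ≤ ‖p j‖} ⊆ p ⁻¹' {q ∈ P | ‖q‖ ≤ R} := by
          intro j hj
          simp only [Set.mem_ofPred_eq, not_le] at hj
          exact ⟨(e j).2, hj.le⟩
        exact ((hfin R).preimage (hpinj.injOn)).subset h2
      have h3 := h1.compl_mem_cofinite
      rw [Nat.cofinite_eq_atTop] at h3
      filter_upwards [h3] with j hj
      simpa using hj
    obtain ⟨f, hf, hfp⟩ := exists_entire_interp p hpinj hpne hlim
      (fun j => ((|M (p j)| : ℝ) : ℂ))
    refine ⟨f, hf, ?_⟩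
    intro q hq
    obtain ⟨j, hj⟩ := e.surjective ⟨q, hq⟩
    have hqj : q = p j := by
      simp [p, hj]
    rw [hqj, hfp, Complex.norm_real, Real.norm_eq_abs, abs_abs]
    exact le_abs_self _

variable {n : ℕ}

/-- The underlying matrix. -/
def toM (g : SLn n) : Matrix (Fin n) (Fin n) ℂ := g.1

theorem toM_mul (a b : SLn n) : toM (a * b) = toM a * toM b := rfl

theorem toM_one : toM (1 : SLn n) = 1 := rfl

theorem toM_injective : Function.Injective (toM : SLn n → Matrix (Fin n) (Fin n) ℂ) :=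
  Subtype.val_injective

theorem det_toM (g : SLn n) : (toM g).det = 1 := g.2

/-- The transvection `1 + s v ℓᵀ` as an element of `SL_n(ℂ)`. -/
noncomputable def transv (v ℓ : Fin n → ℂ) (h : ℓ ⬝ᵥ v = 0) (s : ℂ) : SLn n :=
  ⟨1 + s • vecMulVec v ℓ, by
    have h1 : s • vecMulVec v ℓ = vecMulVec (s • v) ℓ := by
      rw [smul_vecMulVec]
    rw [h1, vecMulVec_eq (ι := Unit), det_one_add_replicateCol_mul_replicateRow]
    simp [h]⟩

theorem transv_val (v ℓ : Fin n → ℂ) (h : ℓ ⬝ᵥ v = 0) (s : ℂ) :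
    toM (transv v ℓ h s) = 1 + s • vecMulVec v ℓ := rfl

theorem transv_neg_mul (v ℓ : Fin n → ℂ) (h : ℓ ⬝ᵥ v = 0) (s : ℂ) :
    transv v ℓ h (-s) * transv v ℓ h s = 1 := by
  apply toM_injective
  rw [toM_mul, transv_val, transv_val, toM_one]
  have hN : vecMulVec v ℓ * vecMulVec v ℓ = 0 := by
    rw [vecMulVec_mul_vecMulVec, h]
    simp
  rw [add_mul, mul_add, mul_add, smul_mul_smul_comm, hN]
  simp

theorem transv_mul_neg (v ℓ : Fin n → ℂ) (h : ℓ ⬝ᵥ v = 0) (s : ℂ) :
    transv v ℓ h s * transv v ℓ h (-s) = 1 := by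
  have := transv_neg_mul v ℓ h (-s)
  rwa [neg_neg] at this

theorem proj_mul_transv (v ℓ : Fin n → ℂ) (h : ℓ ⬝ᵥ v = 0) (P : Matrix (Fin n) (Fin n) ℂ)
    (hP : P *ᵥ v = 0) (s : ℂ) (g : SLn n) :
    P * toM (transv v ℓ h s * g) = P * toM g := by
  rw [toM_mul, transv_val, ← mul_assoc, mul_add, mul_one, Matrix.mul_smul,
    mul_vecMulVec, hP]
  simp

/-- A matrix seen as a point of `ℂ^(n×n)`. -/
def toPt (A : Matrix (Fin n) (Fin n) ℂ) : Fin n → Fin n → ℂ := fun i j => A i j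

/-- The shear automorphism `g ↦ (1 + f(Pg) v ℓᵀ) g`. -/
noncomputable def shear (v ℓ : Fin n → ℂ) (h : ℓ ⬝ᵥ v = 0) (P : Matrix (Fin n) (Fin n) ℂ)
    (hP : P *ᵥ v = 0) (f : (Fin n → Fin n → ℂ) → ℂ) : SLn n ≃ SLn n where
  toFun g := transv v ℓ h (f (toPt (P * toM g))) * g
  invFun g := transv v ℓ h (-f (toPt (P * toM g))) * g
  left_inv g := by
    simp only
    rw [proj_mul_transv v ℓ h P hP, ← mul_assoc, transv_neg_mul, one_mul]
  right_inv g := by
    simp only
    rw [proj_mul_transv v ℓ h P hP, ← mul_assoc, transv_mul_neg, one_mul]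

theorem entries_transv_mul (v ℓ : Fin n → ℂ) (h : ℓ ⬝ᵥ v = 0) (s : ℂ) (g : SLn n) (i j : Fin n) :
    entries (transv v ℓ h s * g) i j =
      entries g i j + s * (v i * ∑ k, ℓ k * entries g k j) := by
  change toM (transv v ℓ h s * g) i j = toM g i j + s * (v i * ∑ k, ℓ k * toM g k j)
  rw [toM_mul, transv_val, add_mul, one_mul, Matrix.add_apply, smul_mul_assoc,
    Matrix.smul_apply, vecMulVec_mul]
  simp only [smul_eq_mul, vecMulVec_apply, vecMul, dotProduct]

theorem isHolomorphic_shear_aux (v ℓ : Fin n → ℂ) (h : ℓ ⬝ᵥ v = 0)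
    (P : Matrix (Fin n) (Fin n) ℂ) (f : (Fin n → Fin n → ℂ) → ℂ)
    (hf : Differentiable ℂ f) :
    IsHolomorphic (fun g : SLn n => transv v ℓ h (f (toPt (P * toM g))) * g) := by
  intro g
  refine ⟨Set.univ, isOpen_univ, Set.mem_univ _,
    fun x => fun i j => x i j + f (fun a b => ∑ k, P a k * x k b) * (v i * ∑ k, ℓ k * x k j),
    ?_, ?_⟩
  · apply Differentiable.differentiableOn
    have h1 : Differentiable ℂ (fun x : Fin n → Fin n → ℂ => f (fun a b => ∑ k, P a k * x k b)) := by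
      apply hf.comp
      fun_prop
    fun_prop
  · intro h' _
    funext i j
    rw [entries_transv_mul]
    rfl

theorem isAutomorphism_shear (v ℓ : Fin n → ℂ) (h : ℓ ⬝ᵥ v = 0) (P : Matrix (Fin n) (Fin n) ℂ)
    (hP : P *ᵥ v = 0) (f : (Fin n → Fin n → ℂ) → ℂ) (hf : Differentiable ℂ f) :
    IsAutomorphism (shear v ℓ h P hP f) := by
  constructor
  · exact isHolomorphic_shear_aux v ℓ h P f hf
  · exact isHolomorphic_shear_aux v ℓ h P (fun x => - f x) hf.neg

theorem continuous_entries : Continuous (entries : SLn n → Fin n → Fin n → ℂ) := by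
  apply continuous_pi
  intro i
  apply continuous_pi
  intro j
  have h1 : Continuous (fun g : SLn n => (g : Matrix (Fin n) (Fin n) ℂ)) := continuous_subtype_val
  exact h1.matrix_elem i j

/-- Elements of a sublevel set of an exhaustion function have bounded entries. -/
theorem exists_bound_of_exhaustion {ρ : SLn n → ℝ} (hρ : IsExhaustion ρ) (r : ℝ) :
    ∃ K : ℝ, ∀ g : SLn n, ρ g ≤ r → ‖entries g‖ ≤ K := by
  obtain ⟨C, hC⟩ := (hρ.2.2 r).exists_bound_of_continuousOn continuous_entries.continuousOn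
  exact ⟨C, fun g hg => hC g hg⟩

/-- The criterion: if for some vector `v` only finitely many elements of `D` are bounded modulo
`v`, then `D` is tame. -/
theorem isTame_of_proper (D : Set (SLn n)) (v ℓ ℓ0 : Fin n → ℂ) (hℓ : ℓ ≠ 0)
    (hℓv : ℓ ⬝ᵥ v = 0) (hℓ0 : ℓ0 ⬝ᵥ v = 1)
    (hfin : ∀ R : ℝ, {γ ∈ D | ‖toPt ((1 - vecMulVec v ℓ0) * toM γ)‖ ≤ R}.Finite) :
    IsTame D := by
  classical
  intro ρ hρ ζ
  set P : Matrix (Fin n) (Fin n) ℂ := 1 - vecMulVec v ℓ0 with hPdef
  have hP : P *ᵥ v = 0 := by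
    rw [hPdef, sub_mulVec, one_mulVec, vecMulVec_mulVec, hℓ0]
    simp
  have hv : v ≠ 0 := by
    intro h
    rw [h] at hℓ0
    simp at hℓ0
  -- bounds from the exhaustion
  have hK : ∀ γ : SLn n, ∃ K : ℝ, ∀ g : SLn n, ρ g ≤ ζ γ → ‖entries g‖ ≤ K :=
    fun γ => exists_bound_of_exhaustion hρ (ζ γ)
  choose K hK using hK
  let w : SLn n → Fin n → Fin n → ℂ := fun γ i j => v i * ∑ k, ℓ k * entries γ k j
  have hw : ∀ γ, w γ ≠ 0 := by
    intro γ hγ
    apply hℓ
    have h1 : ∃ i, v i ≠ 0 := by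
      by_contra hcon
      push Not at hcon
      exact hv (funext hcon)
    obtain ⟨i, hi⟩ := h1
    have h2 : ℓ ᵥ* toM γ = 0 := by
      funext j
      have h3 : v i * ∑ k, ℓ k * entries γ k j = 0 := by
        have := congrFun (congrFun hγ i) j
        simpa [w] using this
      rcases mul_eq_zero.mp h3 with h | h
      · exact absurd h hi
      · exact h
    have h3 : ℓ ᵥ* (toM γ * toM γ⁻¹) = 0 := by
      rw [← vecMul_vecMul, h2]
      simp
    rwa [← toM_mul, mul_inv_cancel, toM_one, vecMul_one] at h3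
  let a : SLn n → ℝ := fun γ => (K γ + ‖entries γ‖ + 1) / ‖w γ‖
  let pt : SLn n → Fin n → Fin n → ℂ := fun γ => toPt (P * toM γ)
  have hPts : ∀ R : ℝ, {p ∈ pt '' D | ‖p‖ ≤ R}.Finite := by
    intro R
    refine ((hfin R).image pt).subset ?_
    rintro p ⟨⟨γ, hγ, rfl⟩, hp⟩
    exact ⟨γ, ⟨hγ, hp⟩, rfl⟩
  have h0 : (0 : Fin n → Fin n → ℂ) ∉ pt '' D := by
    rintro ⟨γ, -, hγ⟩
    have h1 : P * toM γ = 0 := by
      ext i j
      exact congrFun (congrFun hγ i) j
    have h2 : P = 0 := by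
      have : P * (toM γ * toM γ⁻¹) = 0 := by
        rw [← mul_assoc, h1, zero_mul]
      rwa [← toM_mul, mul_inv_cancel, toM_one, mul_one] at this
    apply hℓ
    have h3 : ℓ ᵥ* P = 0 := by rw [h2]; simp
    rw [hPdef, vecMul_sub, vecMul_one, vecMul_vecMulVec, hℓv] at h3
    simpa using h3
  have hM : ∀ p : Fin n → Fin n → ℂ, ∃ M : ℝ, ∀ γ ∈ D, pt γ = p → a γ ≤ M := by
    intro p
    have hf : {γ ∈ D | pt γ = p}.Finite := by
      refine (hfin ‖p‖).subset ?_
      rintro γ ⟨hγ, hp⟩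
      refine ⟨hγ, ?_⟩
      rw [← hp]
    obtain ⟨M, hM⟩ := (hf.image a).bddAbove
    exact ⟨M, fun γ hγ hp => hM ⟨γ, ⟨hγ, hp⟩, rfl⟩⟩
  choose M hM using hM
  obtain ⟨f, hf, hfM⟩ := exists_entire_large (pt '' D) hPts h0 M
  refine ⟨shear v ℓ hℓv P hP f, isAutomorphism_shear v ℓ hℓv P hP f hf, ?_⟩
  intro γ hγ
  by_contra hcon
  push Not at hcon
  have h1 := hK γ _ hcon.le
  have h2 : entries (shear v ℓ hℓv P hP f γ) = entries γ + f (pt γ) • w γ := by
    funext i j
    change entries (transv v ℓ hℓv (f (toPt (P * toM γ))) * γ) i j = _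
    rw [entries_transv_mul]
    rfl
  rw [h2] at h1
  have h3 : ‖f (pt γ) • w γ‖ ≤ ‖entries γ + f (pt γ) • w γ‖ + ‖entries γ‖ := by
    have := norm_sub_le (entries γ + f (pt γ) • w γ) (entries γ)
    simpa using this
  have h4 : a γ ≤ ‖f (pt γ)‖ := (hM _ γ hγ rfl).trans (hfM _ ⟨γ, hγ, rfl⟩)
  have h5 : 0 < ‖w γ‖ := norm_pos_iff.mpr (hw γ)
  rw [norm_smul] at h3
  have h6 : K γ + ‖entries γ‖ + 1 ≤ ‖f (pt γ)‖ * ‖w γ‖ := by
    calc K γ + ‖entries γ‖ + 1 = a γ * ‖w γ‖ := by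
          simp only [a]
          field_simp
      _ ≤ _ := by gcongr
  linarith

end Pool.Agent.Work.MP_970e75_an
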