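import Mathlib

/-!
Polynomials approximating the indicator function of a half plane, off a thin strip.
-/

namespace Pool.Agent.Work.MP_970e75_an

open Filter Topology Set

/-- The compact set `{‖z‖ ≤ R, η ≤ |Re z|}`. -/
def twoSided (R η : ℝ) : Set ℂ := {z | ‖z‖ ≤ R ∧ η ≤ |z.re|}

theorem isCompact_twoSided (R η : ℝ) : IsCompact (twoSided R η) := by
  apply (isCompact_closedBall (0 : ℂ) R).of_isClosed_subset
  · apply IsClosed.inter
    · exact isClosed_le continuous_norm continuous_const
    · exact isClosed_le continuous_const (Complex.continuous_re.abs)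
  · intro z hz
    simpa using hz.1

instance (R η : ℝ) : CompactSpace (twoSided R η) :=
  isCompact_iff_compactSpace.mp (isCompact_twoSided R η)

/-- Every point off `twoSided R η` lies in an unbounded convex subset of the complement. -/
theorem exists_unbounded (R η : ℝ) (w : ℂ) (hw : w ∉ twoSided R η) :
    ∃ s : Set ℂ, IsPreconnected s ∧ s ⊆ (twoSided R η)ᶜ ∧ w ∈ s ∧ ¬ Bornology.IsBounded s := by
  by_cases h : ‖w‖ ≤ R
  · -- the vertical line through `w`
    have hre : |w.re| < η := by
      by_contra hcon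
      exact hw ⟨h, not_lt.mp hcon⟩
    refine ⟨range (fun t : ℝ => w + t * Complex.I), ?_, ?_, ⟨0, by simp⟩, ?_⟩
    · exact isPreconnected_range (by fun_prop)
    · rintro _ ⟨t, rfl⟩ ⟨-, h2⟩
      simp at h2
      linarith
    · intro hb
      obtain ⟨C, hC⟩ := hb.exists_norm_le
      have h1 := hC _ ⟨|C| + 1 + ‖w‖, rfl⟩
      have h2 : ‖(((|C| + 1 + ‖w‖ : ℝ) : ℂ)) * Complex.I‖ = |C| + 1 + ‖w‖ := by
        rw [norm_mul, Complex.norm_I, mul_one, Complex.norm_real, Real.norm_eq_abs,
          abs_of_nonneg (by positivity)]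
      have h3 := norm_sub_norm_le ((((|C| + 1 + ‖w‖ : ℝ) : ℂ)) * Complex.I) (-w)
      rw [norm_neg, sub_neg_eq_add, add_comm _ w, h2] at h3
      have h4 := le_abs_self C
      simp only at h1
      linarith
  · -- the ray through `w`
    push Not at h
    have hR : 0 < ‖w‖ ∨ w = 0 := by
      rcases eq_or_ne w 0 with h0 | h0
      · exact Or.inr h0
      · exact Or.inl (norm_pos_iff.mpr h0)
    rcases hR with hpos | h0
    · refine ⟨(fun t : ℝ => (t : ℂ) * w) '' Ici 1, ?_, ?_, ⟨1, by simp, by simp⟩, ?_⟩
      · exact isPreconnected_Ici.image _ (by fun_prop)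
      · rintro _ ⟨t, ht, rfl⟩ ⟨h1, -⟩
        simp only [norm_mul, Complex.norm_real, Real.norm_eq_abs] at h1
        have ht' : (1 : ℝ) ≤ t := ht
        rw [abs_of_nonneg (by linarith)] at h1
        nlinarith
      · intro hb
        obtain ⟨C, hC⟩ := hb.exists_norm_le
        have hbig : (1 : ℝ) ≤ 1 + |C| / ‖w‖ := by
          have : 0 ≤ |C| / ‖w‖ := by positivity
          linarith
        have h1 := hC _ ⟨1 + |C| / ‖w‖, hbig, rfl⟩
        simp only [norm_mul, Complex.norm_real, Real.norm_eq_abs] at h1
        rw [abs_of_nonneg (by linarith), add_mul, div_mul_cancel₀ _ hpos.ne'] at h1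
        have h4 := le_abs_self C
        linarith
    · -- `w = 0` and `R < 0`
      subst h0
      refine ⟨univ, isPreconnected_univ, ?_, mem_univ _, NormedSpace.unbounded_univ ℂ ℂ⟩
      intro z _ hz
      have : 0 ≤ ‖z‖ := norm_nonneg z
      simp only [norm_zero] at h
      linarith [hz.1]

/-- The closure of the polynomial functions on `twoSided R η`. -/
noncomputable def polyAlg (R η : ℝ) : Subalgebra ℂ C(twoSided R η, ℂ) :=
  (polynomialFunctions (twoSided R η)).topologicalClosure

instance (R η : ℝ) : IsClosed ((polyAlg R η : Subalgebra ℂ C(twoSided R η, ℂ)) : Set C(twoSided R η, ℂ)) :=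
  Subalgebra.isClosed_topologicalClosure _

/-- The coordinate function as an element of `polyAlg`. -/
noncomputable def coord (R η : ℝ) : polyAlg R η :=
  ⟨Polynomial.X.toContinuousMapOn (twoSided R η),
    Subalgebra.le_topologicalClosure _ ⟨Polynomial.X, by simp, rfl⟩⟩

theorem coord_apply (R η : ℝ) (z : twoSided R η) :
    ((coord R η : polyAlg R η) : C(twoSided R η, ℂ)) z = (z : ℂ) := by
  simp [coord]

theorem notMem_spectrum (R η : ℝ) (w : ℂ) (hw : w ∉ twoSided R η) :
    w ∉ spectrum ℂ (coord R η) := by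
  intro h
  have hb := Subalgebra.spectrum_isBounded_connectedComponentIn (polyAlg R η) (coord R η) h
  obtain ⟨s, hs, hsub, hws, hunb⟩ := exists_unbounded R η w hw
  apply hunb
  refine hb.subset (hs.subset_connectedComponentIn hws ?_)
  intro z hz hz'
  rw [ContinuousMap.spectrum_eq_range] at hz'
  obtain ⟨x, hx⟩ := hz'
  rw [coord_apply] at hx
  rw [← hx] at hz
  exact hsub hz x.2

end Pool.Agent.Work.MP_970e75_an
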