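import Pool.Agent.Work.MP_970e75_an.Cut

/-!
Polynomials approximating the indicator function of a half plane, off a thin strip (continued).
-/

namespace Pool.Agent.Work.MP_970e75_an

open Filter Topology Set Metric

instance (R η : ℝ) : CompleteSpace (polyAlg R η) :=
  (inferInstance : IsClosed ((polyAlg R η : Subalgebra ℂ C(twoSided R η, ℂ)) : Set C(twoSided R η, ℂ))).completeSpace_coe

/-- Evaluation at a point. -/
noncomputable def evalAt (R η : ℝ) (z : twoSided R η) : polyAlg R η →L[ℂ] ℂ :=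
  (ContinuousMap.evalCLM ℂ z).comp (Subalgebra.toSubmodule (polyAlg R η)).subtypeL

theorem evalAt_apply (R η : ℝ) (z : twoSided R η) (s : polyAlg R η) :
    evalAt R η z s = (s : C(twoSided R η, ℂ)) z := rfl

/-- The resolvent of the coordinate function. -/
noncomputable def res (R η : ℝ) (w : ℂ) : polyAlg R η :=
  Ring.inverse (algebraMap ℂ (polyAlg R η) w - coord R η)

theorem isUnit_of_notMem (R η : ℝ) (w : ℂ) (hw : w ∉ twoSided R η) :
    IsUnit (algebraMap ℂ (polyAlg R η) w - coord R η) := by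
  have := notMem_spectrum R η w hw
  rwa [spectrum.notMem_iff] at this

theorem evalAt_res (R η : ℝ) (w : ℂ) (hw : w ∉ twoSided R η) (z : twoSided R η) :
    evalAt R η z (res R η w) = (w - z)⁻¹ := by
  have h1 := Ring.mul_inverse_cancel _ (isUnit_of_notMem R η w hw)
  have h2 := congrArg (fun s : polyAlg R η => (s : C(twoSided R η, ℂ)) z) h1
  simp only [MulMemClass.coe_mul, AddSubgroupClass.coe_sub, ContinuousMap.mul_apply,
    ContinuousMap.sub_apply, OneMemClass.coe_one, ContinuousMap.one_apply, coord_apply] at h2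
  have h3 : ((algebraMap ℂ (polyAlg R η) w : polyAlg R η) : C(twoSided R η, ℂ)) z = w := by
    simp [Algebra.algebraMap_eq_smul_one]
  rw [h3] at h2
  rw [evalAt_apply]
  exact eq_inv_of_mul_eq_one_right h2

theorem continuousAt_res (R η : ℝ) (w : ℂ) (hw : w ∉ twoSided R η) :
    ContinuousAt (res R η) w := by
  have h1 := NormedRing.inverse_continuousAt (isUnit_of_notMem R η w hw).unit
  have h2 : ContinuousAt (fun w : ℂ => algebraMap ℂ (polyAlg R η) w - coord R η) w := by
    apply ContinuousAt.sub _ continuousAt_const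
    exact (algebraMapCLM ℂ (polyAlg R η)).continuous.continuousAt
  exact ContinuousAt.comp (g := Ring.inverse) h1 h2

/-- The idempotent attached to the right half. -/
theorem exists_idempotent (R η : ℝ) (hη : 0 < η) :
    ∃ e : polyAlg R η, ∀ z : twoSided R η,
      (0 < (z : ℂ).re → (e : C(twoSided R η, ℂ)) z = 1) ∧
      ((z : ℂ).re < 0 → (e : C(twoSided R η, ℂ)) z = 0) := by
  set c : ℝ := R ^ 2 / (2 * η) + 1 with hc
  have hc0 : 0 < c := by positivity
  have hcR : 2 * c * η = R ^ 2 + 2 * η := by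
    rw [hc]; field_simp
  have hsq : ∀ z : ℂ, ‖z - c‖ ^ 2 = ‖z‖ ^ 2 - 2 * c * z.re + c ^ 2 := by
    intro z
    rw [← Complex.normSq_eq_norm_sq, ← Complex.normSq_eq_norm_sq, Complex.normSq_apply,
      Complex.normSq_apply]
    simp
    ring
  -- the circle avoids the set
  have hcirc : ∀ w ∈ sphere (c : ℂ) c, w ∉ twoSided R η := by
    rintro w hw ⟨h1, h2⟩
    rw [mem_sphere, dist_eq_norm] at hw
    have h3 := hsq w
    rw [hw] at h3
    have h4 : 0 ≤ w.re := by
      by_contra hneg
      push Not at hneg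
      have : 0 < 2 * c * (-w.re) := by
        have : 0 < -w.re := by linarith
        positivity
      nlinarith [sq_nonneg ‖w‖]
    rw [abs_of_nonneg h4] at h2
    have h5 : ‖w‖ ^ 2 ≤ R ^ 2 := by
      have := norm_nonneg w
      nlinarith
    have h6 : 2 * c * η ≤ 2 * c * w.re := by
      apply mul_le_mul_of_nonneg_left h2 (by positivity)
    nlinarith
  have hcont : ContinuousOn (res R η) (sphere (c : ℂ) c) := fun w hw =>
    (continuousAt_res R η w (hcirc w hw)).continuousWithinAt
  have hint : CircleIntegrable (res R η) c c := hcont.circleIntegrable hc0.le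
  refine ⟨(2 * Real.pi * Complex.I)⁻¹ • (∮ w in C((c : ℂ), c), res R η w), ?_⟩
  intro z
  have hpi : (2 * Real.pi * Complex.I : ℂ) ≠ 0 := Complex.two_pi_I_ne_zero
  have hkey : evalAt R η z (∮ w in C((c : ℂ), c), res R η w) = ∮ w in C((c : ℂ), c), (w - z)⁻¹ := by
    rw [circleIntegral, circleIntegral,
      ← ContinuousLinearMap.intervalIntegral_comp_comm (evalAt R η z) hint.out]
    apply intervalIntegral.integral_congr
    intro θ _
    simp only [map_smul, smul_eq_mul]
    rw [evalAt_res R η _ (hcirc _ (circleMap_mem_sphere _ hc0.le _))]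
  have hval : (((2 * Real.pi * Complex.I : ℂ)⁻¹ • (∮ w in C((c : ℂ), c), res R η w) : polyAlg R η) :
      C(twoSided R η, ℂ)) z = (2 * Real.pi * Complex.I : ℂ)⁻¹ * ∮ w in C((c : ℂ), c), (w - z)⁻¹ := by
    rw [← hkey, ← evalAt_apply, map_smul, smul_eq_mul]
  rw [hval]
  constructor
  · intro hz
    have hmem : (z : ℂ) ∈ ball (c : ℂ) c := by
      rw [mem_ball, dist_eq_norm]
      have h2 := z.2.2
      rw [abs_of_pos hz] at h2
      have h3 := hsq z
      have h5 : ‖(z : ℂ)‖ ^ 2 ≤ R ^ 2 := by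
        have := norm_nonneg (z : ℂ)
        have := z.2.1
        nlinarith
      have h6 : 2 * c * η ≤ 2 * c * (z : ℂ).re := by
        apply mul_le_mul_of_nonneg_left h2 (by positivity)
      have h7 : ‖(z : ℂ) - c‖ ^ 2 < c ^ 2 := by nlinarith
      exact lt_of_pow_lt_pow_left₀ 2 hc0.le h7
    rw [circleIntegral.integral_sub_inv_of_mem_ball hmem, inv_mul_cancel₀ hpi]
  · intro hz
    have hfar : ∀ w ∈ closedBall (c : ℂ) c, w - z ≠ 0 := by
      intro w hw h0
      rw [sub_eq_zero] at h0
      rw [h0, mem_closedBall, dist_eq_norm] at hw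
      have h3 := hsq z
      have h6 : 0 < 2 * c * (-(z : ℂ).re) := by
        have : 0 < -(z : ℂ).re := by linarith
        positivity
      have h7 : c ^ 2 < ‖(z : ℂ) - c‖ ^ 2 := by
        nlinarith [sq_nonneg ‖(z : ℂ)‖]
      have h8 : ‖(z : ℂ) - c‖ ^ 2 ≤ c ^ 2 := by
        have := norm_nonneg ((z : ℂ) - c)
        nlinarith
      linarith
    have h0 : (∮ w in C((c : ℂ), c), (w - (z : ℂ))⁻¹) = 0 := by
      apply Complex.circleIntegral_eq_zero_of_differentiable_on_off_countable hc0.le countable_empty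
      · apply ContinuousOn.inv₀ (by fun_prop) hfar
      · intro w hw
        apply DifferentiableAt.inv (by fun_prop)
        exact hfar w (ball_subset_closedBall hw.1)
    rw [h0, mul_zero]

/-- A polynomial close to the indicator function of the right half plane. -/
theorem exists_cut_poly (R η ε : ℝ) (hη : 0 < η) (hε : 0 < ε) :
    ∃ p : Polynomial ℂ, (∀ z : ℂ, ‖z‖ ≤ R → z.re ≤ -η → ‖p.eval z‖ ≤ ε) ∧
      (∀ z : ℂ, ‖z‖ ≤ R → η ≤ z.re → ‖p.eval z - 1‖ ≤ ε) := by
  obtain ⟨e, he⟩ := exists_idempotent R η hη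
  have hmem : (e : C(twoSided R η, ℂ)) ∈
      closure ((polynomialFunctions (twoSided R η) : Subalgebra ℂ C(twoSided R η, ℂ)) :
        Set C(twoSided R η, ℂ)) := e.2
  rw [Metric.mem_closure_iff] at hmem
  obtain ⟨b, ⟨p, -, hp⟩, hb⟩ := hmem ε hε
  refine ⟨p, ?_, ?_⟩
  · intro z hz hre
    have hzK : z ∈ twoSided R η := ⟨hz, by rw [abs_of_nonpos (by linarith)]; linarith⟩
    have h1 := (he ⟨z, hzK⟩).2 (by simp only; linarith)
    have h2 := ContinuousMap.dist_apply_le_dist (f := (e : C(twoSided R η, ℂ))) (g := b) ⟨z, hzK⟩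
    rw [h1, ← hp, dist_eq_norm, zero_sub, norm_neg] at h2
    have h3 : (Polynomial.toContinuousMapOnAlgHom (twoSided R η) p) ⟨z, hzK⟩ = p.eval z := by simp
    simp only [RingHom.coe_coe] at h2
    rw [h3] at h2
    rw [← hp] at hb
    exact h2.trans hb.le
  · intro z hz hre
    have hzK : z ∈ twoSided R η := ⟨hz, by rw [abs_of_nonneg (by linarith)]; exact hre⟩
    have h1 := (he ⟨z, hzK⟩).1 (by simp only; linarith)
    have h2 := ContinuousMap.dist_apply_le_dist (f := (e : C(twoSided R η, ℂ))) (g := b) ⟨z, hzK⟩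
    rw [h1, ← hp, dist_comm, dist_eq_norm] at h2
    have h3 : (Polynomial.toContinuousMapOnAlgHom (twoSided R η) p) ⟨z, hzK⟩ = p.eval z := by simp
    simp only [RingHom.coe_coe] at h2
    rw [h3] at h2
    rw [← hp] at hb
    exact h2.trans hb.le

end Pool.Agent.Work.MP_970e75_an
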