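import Mathlib

/-!
Tame discrete subsets of the Stein manifold `SL_n(ℂ)`.
-/

namespace Pool.Agent.Work.MP_970e75_an

/-- The complex Lie group `SL_n(ℂ)` (with Mathlib's topology, induced from `ℂ^(n×n)`). -/
abbrev SLn (n : ℕ) : Type := Matrix.SpecialLinearGroup (Fin n) ℂ

/-- The point of `ℂ^(n×n)` whose coordinates are the entries of `g`. This is the standard closed
embedding of the complex manifold `SL_n(ℂ)` into the affine space `ℂ^(n×n)`. -/
def entries {n : ℕ} (g : SLn n) : Fin n → Fin n → ℂ :=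
  fun i j => (g : Matrix (Fin n) (Fin n) ℂ) i j

/-- A self-map of the closed complex submanifold `SL_n(ℂ)` of `ℂ^(n×n)` is holomorphic if near
every point it is the restriction of a holomorphic map on an open subset of `ℂ^(n×n)`. -/
def IsHolomorphic {n : ℕ} (φ : SLn n → SLn n) : Prop :=
  ∀ g : SLn n, ∃ U : Set (Fin n → Fin n → ℂ), IsOpen U ∧ entries g ∈ U ∧
    ∃ F : (Fin n → Fin n → ℂ) → (Fin n → Fin n → ℂ), DifferentiableOn ℂ F U ∧
      ∀ h : SLn n, entries h ∈ U → entries (φ h) = F (entries h)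

/-- An automorphism of the complex manifold `SL_n(ℂ)`: a biholomorphic self-map
(not necessarily a group homomorphism). -/
def IsAutomorphism {n : ℕ} (φ : SLn n ≃ SLn n) : Prop :=
  IsHolomorphic φ ∧ IsHolomorphic φ.symm

/-- An exhaustion function: continuous, nonnegative, with compact sublevel sets. -/
def IsExhaustion {n : ℕ} (ρ : SLn n → ℝ) : Prop :=
  Continuous ρ ∧ (∀ g, 0 ≤ ρ g) ∧ ∀ r : ℝ, IsCompact {g | ρ g ≤ r}

/-- Tameness (Winkelmann's weak notion) of a subset `D` of `SL_n(ℂ)`: for every exhaustion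
function `ρ` and every function `ζ` there is an automorphism `φ` with `ρ (φ x) ≥ ζ x` on `D`. -/
def IsTame {n : ℕ} (D : Set (SLn n)) : Prop :=
  ∀ ρ : SLn n → ℝ, IsExhaustion ρ → ∀ ζ : SLn n → ℝ,
    ∃ φ : SLn n ≃ SLn n, IsAutomorphism φ ∧ ∀ x ∈ D, ζ x ≤ ρ (φ x)

/-- `Γ` is complex Kleinian: it acts discontinuously on some nonempty open subset of the complex
projective space `P^(n-1)(ℂ)`. The open subset is given by its cone `U` of nonzero vectors of `ℂ^n`
(an open set stable under nonzero scalars), and discontinuity means that `γU ∩ U ≠ ∅` for only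
finitely many `γ ∈ Γ`. -/
def IsComplexKleinian {n : ℕ} (Γ : Subgroup (SLn n)) : Prop :=
  ∃ U : Set (Fin n → ℂ), IsOpen U ∧ U.Nonempty ∧ (∀ x ∈ U, x ≠ 0) ∧
    (∀ x ∈ U, ∀ c : ℂ, c ≠ 0 → c • x ∈ U) ∧
    {γ : SLn n | γ ∈ Γ ∧ ∃ x ∈ U, (γ : Matrix (Fin n) (Fin n) ℂ).mulVec x ∈ U}.Finite

/-- `Γ` commutes with a nonzero antilinear map `x ↦ A x̄` of `ℂ^n`, or preserves a nonzero
sesquilinear form `(x, y) ↦ x* B y` on `ℂ^n`. For invertible `A`, `B` this says that `Γ` is fixed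
pointwise by an antiholomorphic automorphism `g ↦ A ḡ A⁻¹` or `g ↦ (B⁻¹ g* B)⁻¹` of the group
`SL_n(ℂ)`; every real form of `SL_n(ℂ)` (the conjugates of `SL_n(ℝ)`, of `SL_(n/2)(ℍ)` and of
`SU(p,q)`) is a subgroup with this property. -/
def HasAntilinearInvariant {n : ℕ} (Γ : Subgroup (SLn n)) : Prop :=
  (∃ A : Matrix (Fin n) (Fin n) ℂ, A ≠ 0 ∧
      ∀ γ ∈ Γ, (γ : Matrix (Fin n) (Fin n) ℂ) * A = A * (γ : Matrix (Fin n) (Fin n) ℂ).map star) ∨
  (∃ B : Matrix (Fin n) (Fin n) ℂ, B ≠ 0 ∧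
      ∀ γ ∈ Γ, (γ : Matrix (Fin n) (Fin n) ℂ).conjTranspose * B *
        (γ : Matrix (Fin n) (Fin n) ℂ) = B)

end Pool.Agent.Work.MP_970e75_an
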