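import Mathlib

/-!
Tame discrete subsets of closed complex Lie subgroups of `SL_N(ℂ)`.
-/

namespace Pool.Agent.Work.MP_970e75_an.Lin

/-- The group `SL_N(ℂ)` (with Mathlib's topology, induced from `ℂ^(N×N)`). -/
abbrev SL (N : ℕ) : Type := Matrix.SpecialLinearGroup (Fin N) ℂ

/-- The point of `ℂ^(N×N)` whose coordinates are the entries of `g`. -/
def entries {N : ℕ} (g : SL N) : Fin N → Fin N → ℂ :=
  fun i j => (g : Matrix (Fin N) (Fin N) ℂ) i j

variable {N : ℕ}

/-- `G` is a closed complex Lie subgroup of `SL_N(ℂ)`: a subgroup which is the set of common zeros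
in `SL_N(ℂ)` of a family of entire functions on `ℂ^(N×N)`. (For instance every linear algebraic
subgroup of `SL_N(ℂ)`.) Such a `G` is a closed complex submanifold of `ℂ^(N×N)`, hence a Stein
complex Lie group. -/
def IsComplexSubgroup (G : Subgroup (SL N)) : Prop :=
  ∃ S : Set ((Fin N → Fin N → ℂ) → ℂ), (∀ F ∈ S, Differentiable ℂ F) ∧
    ∀ g : SL N, g ∈ G ↔ ∀ F ∈ S, F (entries g) = 0

/-- A self-map of the closed complex submanifold `G` of `ℂ^(N×N)` is holomorphic if near every
point it is the restriction of a holomorphic map on an open subset of `ℂ^(N×N)`. -/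
def IsHolomorphic (G : Subgroup (SL N)) (φ : G → G) : Prop :=
  ∀ g : G, ∃ U : Set (Fin N → Fin N → ℂ), IsOpen U ∧ entries g.1 ∈ U ∧
    ∃ F : (Fin N → Fin N → ℂ) → (Fin N → Fin N → ℂ), DifferentiableOn ℂ F U ∧
      ∀ h : G, entries h.1 ∈ U → entries (φ h).1 = F (entries h.1)

/-- An automorphism of the complex manifold `G`: a biholomorphic self-map
(not necessarily a group homomorphism). -/
def IsAutomorphism (G : Subgroup (SL N)) (φ : G ≃ G) : Prop :=
  IsHolomorphic G φ ∧ IsHolomorphic G φ.symm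

/-- An exhaustion function: continuous, nonnegative, with compact sublevel sets. -/
def IsExhaustion (G : Subgroup (SL N)) (ρ : G → ℝ) : Prop :=
  Continuous ρ ∧ (∀ g, 0 ≤ ρ g) ∧ ∀ r : ℝ, IsCompact {g | ρ g ≤ r}

/-- Tameness (Winkelmann's weak notion) of a subset `D` of `G`: for every exhaustion function `ρ`
and every function `ζ` there is an automorphism `φ` of `G` with `ρ (φ x) ≥ ζ x` on `D`. -/
def IsTame (G : Subgroup (SL N)) (D : Set G) : Prop :=
  ∀ ρ : G → ℝ, IsExhaustion G ρ → ∀ ζ : G → ℝ,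
    ∃ φ : G ≃ G, IsAutomorphism G φ ∧ ∀ x ∈ D, ζ x ≤ ρ (φ x)

/-- The Lie algebra of `G`: the matrices `X` with `exp (sX) ∈ G` for all complex `s`. -/
def lieAlg (G : Subgroup (SL N)) : Set (Matrix (Fin N) (Fin N) ℂ) :=
  {X | ∀ s : ℂ, ∃ g ∈ G, (g : Matrix (Fin N) (Fin N) ℂ) = NormedSpace.exp (s • X)}

/-- The Lie algebra of `G` contains a copy of `sl₂(ℂ)`, given by a triple `E, H, F` with the usual
relations. (By the Levi decomposition this holds if and only if the Lie algebra of `G` is not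
solvable.) -/
def ContainsSl2 (G : Subgroup (SL N)) : Prop :=
  ∃ E H F : Matrix (Fin N) (Fin N) ℂ, E ∈ lieAlg G ∧ H ∈ lieAlg G ∧ F ∈ lieAlg G ∧ E ≠ 0 ∧
    H * E - E * H = (2 : ℂ) • E ∧ H * F - F * H = -((2 : ℂ) • F) ∧ E * F - F * E = H

end Pool.Agent.Work.MP_970e75_an.Lin
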