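import Pool.Agent.Work.MP_970e75_an.Criterion

/-!
Discrete subgroups of `SL_n(ℂ)` meet bounded sets in finite sets, and auxiliary linear algebra.
-/

namespace Pool.Agent.Work.MP_970e75_an

open Filter Topology Matrix

variable {n : ℕ}

theorem isClosedEmbedding_entries :
    Topology.IsClosedEmbedding (entries : SLn n → Fin n → Fin n → ℂ) :=
  Matrix.SpecialLinearGroup.isClosedEmbedding_val

/-- A discrete subgroup of `SL_n(ℂ)` has only finitely many elements with entries bounded by `S`. -/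
theorem finite_bounded (Γ : Subgroup (SLn n)) [DiscreteTopology Γ] (S : ℝ) :
    {γ : SLn n | γ ∈ Γ ∧ ‖entries γ‖ ≤ S}.Finite := by
  have hcl : IsClosed (Γ : Set (SLn n)) := Subgroup.isClosed_of_discrete
  have hK : IsCompact {γ : SLn n | ‖entries γ‖ ≤ S} := by
    have h1 : IsCompact (Metric.closedBall (0 : Fin n → Fin n → ℂ) S) := isCompact_closedBall _ _
    have h2 := isClosedEmbedding_entries.isCompact_preimage h1
    convert h2 using 1
    ext γ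
    simp
  have h3 : IsCompact ((Γ : Set (SLn n)) ∩ {γ : SLn n | ‖entries γ‖ ≤ S}) := hK.inter_left hcl
  have h4 : IsDiscrete ((Γ : Set (SLn n)) ∩ {γ : SLn n | ‖entries γ‖ ≤ S}) := by
    have : IsDiscrete (Γ : Set (SLn n)) := ⟨inferInstanceAs (DiscreteTopology Γ)⟩
    exact this.mono Set.inter_subset_left
  exact h3.finite h4

/-- For a nonzero vector in dimension at least two there are a functional equal to `1` on it and
a nonzero functional vanishing on it. -/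
theorem exists_functionals (hn : 2 ≤ n) (v : Fin n → ℂ) (hv : v ≠ 0) :
    ∃ ℓ ℓ0 : Fin n → ℂ, ℓ ≠ 0 ∧ ℓ ⬝ᵥ v = 0 ∧ ℓ0 ⬝ᵥ v = 1 := by
  classical
  have h1 : ∃ i, v i ≠ 0 := by
    by_contra hcon
    push Not at hcon
    exact hv (funext hcon)
  obtain ⟨i, hi⟩ := h1
  have h2 : ∃ j : Fin n, j ≠ i := by
    have : Nontrivial (Fin n) := Fin.nontrivial_iff_two_le.mpr hn
    exact exists_ne i
  obtain ⟨j, hj⟩ := h2
  refine ⟨Pi.single j (v i) - Pi.single i (v j), Pi.single i (v i)⁻¹, ?_, ?_, ?_⟩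
  · intro h
    have := congrFun h j
    simp [hj, hi] at this
  · rw [sub_dotProduct, single_dotProduct, single_dotProduct]
    ring
  · rw [single_dotProduct]
    exact inv_mul_cancel₀ hi

theorem norm_mulVec_le (A : Matrix (Fin n) (Fin n) ℂ) (x : Fin n → ℂ) :
    ‖A *ᵥ x‖ ≤ n * (‖toPt A‖ * ‖x‖) := by
  rw [pi_norm_le_iff_of_nonneg (by positivity)]
  intro i
  rw [mulVec, dotProduct]
  calc ‖∑ j, A i j * x j‖ ≤ ∑ j, ‖A i j * x j‖ := norm_sum_le _ _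
    _ ≤ ∑ _j : Fin n, ‖toPt A‖ * ‖x‖ := by
        apply Finset.sum_le_sum
        intro j _
        rw [norm_mul]
        have h1 : ‖A i j‖ ≤ ‖toPt A‖ := by
          calc ‖A i j‖ ≤ ‖toPt A i‖ := norm_le_pi_norm (toPt A i) j
            _ ≤ ‖toPt A‖ := norm_le_pi_norm (toPt A) i
        have h2 : ‖x j‖ ≤ ‖x‖ := norm_le_pi_norm x j
        gcongr
    _ = n * (‖toPt A‖ * ‖x‖) := by simp

theorem norm_vecMulVec_le (v m : Fin n → ℂ) : ‖toPt (vecMulVec v m)‖ ≤ ‖v‖ * ‖m‖ := by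
  rw [pi_norm_le_iff_of_nonneg (by positivity)]
  intro i
  rw [pi_norm_le_iff_of_nonneg (by positivity)]
  intro j
  simp only [toPt, vecMulVec_apply, norm_mul]
  have h1 : ‖v i‖ ≤ ‖v‖ := norm_le_pi_norm v i
  have h2 : ‖m j‖ ≤ ‖m‖ := norm_le_pi_norm m j
  gcongr

theorem decomp (v ℓ0 : Fin n → ℂ) (A : Matrix (Fin n) (Fin n) ℂ) :
    A = (1 - vecMulVec v ℓ0) * A + vecMulVec v (ℓ0 ᵥ* A) := by
  rw [sub_mul, one_mul, vecMulVec_mul]
  simp

theorem norm_entries_le (v ℓ0 : Fin n → ℂ) (g : SLn n) :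
    ‖entries g‖ ≤ ‖toPt ((1 - vecMulVec v ℓ0) * toM g)‖ + ‖v‖ * ‖ℓ0 ᵥ* toM g‖ := by
  have h1 : entries g = toPt ((1 - vecMulVec v ℓ0) * toM g) + toPt (vecMulVec v (ℓ0 ᵥ* toM g)) := by
    have := decomp v ℓ0 (toM g)
    funext i j
    exact congrFun (congrFun this i) j
  rw [h1]
  refine (norm_add_le _ _).trans ?_
  gcongr
  exact norm_vecMulVec_le _ _

theorem norm_vecMul_le (x : Fin n → ℂ) (A : Matrix (Fin n) (Fin n) ℂ) :
    ‖x ᵥ* A‖ ≤ n * (‖x‖ * ‖toPt A‖) := by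
  rw [pi_norm_le_iff_of_nonneg (by positivity)]
  intro i
  rw [vecMul, dotProduct]
  calc ‖∑ j, x j * A j i‖ ≤ ∑ j, ‖x j * A j i‖ := norm_sum_le _ _
    _ ≤ ∑ _j : Fin n, ‖x‖ * ‖toPt A‖ := by
        apply Finset.sum_le_sum
        intro j _
        rw [norm_mul]
        have h1 : ‖A j i‖ ≤ ‖toPt A‖ := by
          calc ‖A j i‖ ≤ ‖toPt A j‖ := norm_le_pi_norm (toPt A j) i
            _ ≤ ‖toPt A‖ := norm_le_pi_norm (toPt A) j
        have h2 : ‖x j‖ ≤ ‖x‖ := norm_le_pi_norm x j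
        gcongr
    _ = n * (‖x‖ * ‖toPt A‖) := by simp

theorem norm_dotProduct_le' (x y : Fin n → ℂ) : ‖x ⬝ᵥ y‖ ≤ n * (‖x‖ * ‖y‖) := by
  rw [dotProduct]
  calc ‖∑ j, x j * y j‖ ≤ ∑ j, ‖x j * y j‖ := norm_sum_le _ _
    _ ≤ ∑ _j : Fin n, ‖x‖ * ‖y‖ := by
        apply Finset.sum_le_sum
        intro j _
        rw [norm_mul]
        have h1 : ‖x j‖ ≤ ‖x‖ := norm_le_pi_norm x j
        have h2 : ‖y j‖ ≤ ‖y‖ := norm_le_pi_norm y j
        gcongr
    _ = n * (‖x‖ * ‖y‖) := by simp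

/-- Version of the criterion for discrete subgroups: it is enough to bound the `v`-component of
those elements which are bounded modulo `v`. -/
theorem isTame_of_bound (hn : 2 ≤ n) (Γ : Subgroup (SLn n)) [DiscreteTopology Γ]
    (v : Fin n → ℂ) (hv : v ≠ 0)
    (h : ∀ ℓ0 : Fin n → ℂ, ℓ0 ⬝ᵥ v = 1 → ∀ R : ℝ, 0 ≤ R → ∃ C : ℝ, ∀ γ ∈ Γ,
      ‖toPt ((1 - vecMulVec v ℓ0) * toM γ)‖ ≤ R → ‖ℓ0 ᵥ* toM γ‖ ≤ C) :
    IsTame (Γ : Set (SLn n)) := by
  obtain ⟨ℓ, ℓ0, hℓ, hℓv, hℓ0⟩ := exists_functionals hn v hv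
  apply isTame_of_proper (Γ : Set (SLn n)) v ℓ ℓ0 hℓ hℓv hℓ0
  intro R
  obtain ⟨C, hC⟩ := h ℓ0 hℓ0 (max R 0) (le_max_right _ _)
  refine (finite_bounded Γ (max R 0 + ‖v‖ * C)).subset ?_
  rintro γ ⟨hγ, hR⟩
  refine ⟨hγ, ?_⟩
  have hR' := hR.trans (le_max_left R 0)
  refine (norm_entries_le v ℓ0 γ).trans ?_
  have := hC γ hγ hR'
  gcongr

end Pool.Agent.Work.MP_970e75_an
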