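import Pool.Agent.Work.MP_970e75_an.Sl2
import Pool.Agent.Work.MP_970e75_an.DefsLin

/-!
Exponentials: conjugation formulas for `sl₂`-triples.
-/

namespace Pool.Agent.Work.MP_970e75_an.Lin

open Filter Topology Set NormedSpace

section abs

variable {𝔸 : Type*} [NormedRing 𝔸] [NormedAlgebra ℂ 𝔸] [CompleteSpace 𝔸]

/-- A function on `ℂ` with zero derivative is constant. -/
theorem const_of_hasDerivAt_zero {E : Type*} [NormedAddCommGroup E] [NormedSpace ℂ E]
    (Φ : ℂ → E) (h : ∀ s, HasDerivAt Φ 0 s) (s : ℂ) : Φ s = Φ 0 :=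
  is_const_of_deriv_eq_zero (fun s => (h s).differentiableAt) (fun s => (h s).deriv) s 0

theorem abs_exp_mul_neg (X : 𝔸) (s : ℂ) : exp (s • X) * exp (-(s • X)) = 1 := by
  let _ : NormedAlgebra ℚ 𝔸 := NormedAlgebra.restrictScalars ℚ ℂ 𝔸
  rw [← exp_add_of_commute (Commute.neg_right (Commute.refl _)), add_neg_cancel, exp_zero]

theorem abs_exp_neg_mul (X : 𝔸) (s : ℂ) : exp (-(s • X)) * exp (s • X) = 1 := by
  let _ : NormedAlgebra ℚ 𝔸 := NormedAlgebra.restrictScalars ℚ ℂ 𝔸
  rw [← exp_add_of_commute (Commute.neg_left (Commute.refl _)), neg_add_cancel, exp_zero]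

theorem hasDerivAt_exp_neg (X : 𝔸) (s : ℂ) :
    HasDerivAt (fun u : ℂ => exp (-(u • X))) (-(exp (-(s • X)) * X)) s := by
  have h := hasDerivAt_exp_smul_const (𝕂 := ℂ) (-X) s
  simp only [smul_neg, mul_neg] at h
  exact h

/-- Conjugation by `exp (sX)` when `ad X` is nilpotent of order three on `Y`. -/
theorem abs_exp_conj_eq (X Y Z V : 𝔸) (h1 : X * Y - Y * X = Z)
    (h2 : X * Z - Z * X = V) (h3 : X * V - V * X = 0) (s : ℂ) :
    exp (s • X) * Y * exp (-(s • X)) = Y + s • Z + (s ^ 2 / 2) • V := by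
  set A : ℂ → 𝔸 := fun u => Y + u • Z + (u ^ 2 / 2) • V with hA
  set Φ : ℂ → 𝔸 := fun u => exp (-(u • X)) * A u * exp (u • X) with hΦ
  have hAd : ∀ u, HasDerivAt A (Z + u • V) u := by
    intro u
    have e1 : HasDerivAt (fun u : ℂ => u • Z) Z u := by
      have := (hasDerivAt_id u).smul_const Z
      rw [one_smul] at this
      exact this
    have e2 : HasDerivAt (fun u : ℂ => (u ^ 2 / 2) • V) (u • V) u := by
      have e3 : HasDerivAt (fun u : ℂ => u ^ 2 / 2) u u := by
        have h4 := (hasDerivAt_pow 2 u).div_const 2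
        have h5 : ((2 : ℕ) : ℂ) * u ^ (2 - 1) / 2 = u := by
          norm_num
        rw [h5] at h4
        exact h4
      exact e3.smul_const V
    have h6 := ((hasDerivAt_const u Y).add e1).add e2
    rw [zero_add] at h6
    exact h6
  have hΦd : ∀ u, HasDerivAt Φ 0 u := by
    intro u
    have e1 := ((hasDerivAt_exp_neg X u).mul (hAd u)).mul
      (hasDerivAt_exp_smul_const' (𝕂 := ℂ) X u)
    have e2 : (-(exp (-(u • X)) * X) * A u + exp (-(u • X)) * (Z + u • V)) * exp (u • X) +
        exp (-(u • X)) * A u * (X * exp (u • X)) = 0 := by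
      have e3 : X * A u - A u * X = Z + u • V := by
        simp only [hA]
        have : X * (Y + u • Z + (u ^ 2 / 2) • V) - (Y + u • Z + (u ^ 2 / 2) • V) * X =
          (X * Y - Y * X) + u • (X * Z - Z * X) + (u ^ 2 / 2) • (X * V - V * X) := by
          simp only [mul_add, add_mul, mul_smul_comm, smul_mul_assoc, smul_sub]
          abel
        rw [this, h1, h2, h3, smul_zero, add_zero]
      calc (-(exp (-(u • X)) * X) * A u + exp (-(u • X)) * (Z + u • V)) * exp (u • X) +
            exp (-(u • X)) * A u * (X * exp (u • X))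
          = exp (-(u • X)) * ((Z + u • V) - (X * A u - A u * X)) * exp (u • X) := by
            noncomm_ring
        _ = 0 := by rw [e3, sub_self]; simp
    have e4 : HasDerivAt Φ ((-(exp (-(u • X)) * X) * A u + exp (-(u • X)) * (Z + u • V)) *
        exp (u • X) + exp (-(u • X)) * A u * (X * exp (u • X))) u := e1
    rw [e2] at e4
    exact e4
  have hconst := const_of_hasDerivAt_zero Φ hΦd s
  have h0 : Φ 0 = Y := by simp [hΦ, hA]
  rw [h0] at hconst
  calc exp (s • X) * Y * exp (-(s • X)) = exp (s • X) * Φ s * exp (-(s • X)) := by rw [hconst]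
    _ = (exp (s • X) * exp (-(s • X))) * A s * (exp (s • X) * exp (-(s • X))) := by
        simp only [hΦ, mul_assoc]
    _ = A s := by rw [abs_exp_mul_neg, one_mul, mul_one]

/-- `exp (sX) P = P + s X P` if `X (X P) = 0`. -/
theorem abs_exp_mul_of_sq (X P : 𝔸) (h : X * (X * P) = 0) (s : ℂ) :
    exp (s • X) * P = P + s • (X * P) := by
  have hd : ∀ u, HasDerivAt (fun u : ℂ => exp (-(u • X)) * (P + u • (X * P))) 0 u := by
    intro u
    have e1 : HasDerivAt (fun u : ℂ => P + u • (X * P)) (X * P) u := by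
      have := ((hasDerivAt_id u).smul_const (X * P)).const_add P
      rw [one_smul] at this
      exact this
    have e2 : HasDerivAt (fun u : ℂ => exp (-(u • X)) * (P + u • (X * P)))
      (-(exp (-(u • X)) * X) * (P + u • (X * P)) + exp (-(u • X)) * (X * P)) u :=
      (hasDerivAt_exp_neg X u).mul e1
    have e3 : -(exp (-(u • X)) * X) * (P + u • (X * P)) + exp (-(u • X)) * (X * P) = 0 := by
      have : -(exp (-(u • X)) * X) * (P + u • (X * P)) + exp (-(u • X)) * (X * P)
          = -(u • (exp (-(u • X)) * (X * (X * P)))) := by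
        rw [mul_add, mul_smul_comm]
        simp only [neg_mul, mul_assoc]
        rw [smul_neg]
        abel
      rw [this, h, mul_zero, smul_zero, neg_zero]
    rw [e3] at e2
    exact e2
  have hc := const_of_hasDerivAt_zero _ hd s
  simp only [zero_smul, neg_zero, exp_zero, one_mul, add_zero] at hc
  calc exp (s • X) * P = exp (s • X) * (exp (-(s • X)) * (P + s • (X * P))) := by rw [hc]
    _ = P + s • (X * P) := by rw [← mul_assoc, abs_exp_mul_neg, one_mul]

end abs

section mat

variable {N : ℕ}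

open Matrix

theorem exp_smul_mul_neg (X : Matrix (Fin N) (Fin N) ℂ) (s : ℂ) :
    exp (s • X) * exp (-(s • X)) = 1 := by
  let _ : NormedRing (Matrix (Fin N) (Fin N) ℂ) := Matrix.linftyOpNormedRing
  let _ : NormedAlgebra ℂ (Matrix (Fin N) (Fin N) ℂ) := Matrix.linftyOpNormedAlgebra
  exact abs_exp_mul_neg X s

theorem exp_neg_mul_smul (X : Matrix (Fin N) (Fin N) ℂ) (s : ℂ) :
    exp (-(s • X)) * exp (s • X) = 1 := by
  let _ : NormedRing (Matrix (Fin N) (Fin N) ℂ) := Matrix.linftyOpNormedRing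
  let _ : NormedAlgebra ℂ (Matrix (Fin N) (Fin N) ℂ) := Matrix.linftyOpNormedAlgebra
  exact abs_exp_neg_mul X s

theorem exp_conj_eq (X Y Z V : Matrix (Fin N) (Fin N) ℂ) (h1 : X * Y - Y * X = Z)
    (h2 : X * Z - Z * X = V) (h3 : X * V - V * X = 0) (s : ℂ) :
    exp (s • X) * Y * exp (-(s • X)) = Y + s • Z + (s ^ 2 / 2) • V := by
  let _ : NormedRing (Matrix (Fin N) (Fin N) ℂ) := Matrix.linftyOpNormedRing
  let _ : NormedAlgebra ℂ (Matrix (Fin N) (Fin N) ℂ) := Matrix.linftyOpNormedAlgebra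
  exact abs_exp_conj_eq X Y Z V h1 h2 h3 s

theorem exp_mul_of_sq (X P : Matrix (Fin N) (Fin N) ℂ) (h : X * (X * P) = 0) (s : ℂ) :
    exp (s • X) * P = P + s • (X * P) := by
  let _ : NormedRing (Matrix (Fin N) (Fin N) ℂ) := Matrix.linftyOpNormedRing
  let _ : NormedAlgebra ℂ (Matrix (Fin N) (Fin N) ℂ) := Matrix.linftyOpNormedAlgebra
  exact abs_exp_mul_of_sq X P h s

theorem exp_mul_of_mul_eq_zero (X P : Matrix (Fin N) (Fin N) ℂ) (h : X * P = 0) (s : ℂ) :
    exp (s • X) * P = P := by
  rw [exp_mul_of_sq X P (by rw [h, mul_zero]) s, h, smul_zero, add_zero]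

/-- `s ↦ exp (sX)` is entire, as a map to the space of matrices with its entrywise topology. -/
theorem differentiable_exp_entry (X : Matrix (Fin N) (Fin N) ℂ) (i j : Fin N) :
    Differentiable ℂ fun s : ℂ => (exp (s • X) : Matrix (Fin N) (Fin N) ℂ) i j := by
  let _ : NormedRing (Matrix (Fin N) (Fin N) ℂ) := Matrix.linftyOpNormedRing
  let _ : NormedAlgebra ℂ (Matrix (Fin N) (Fin N) ℂ) := Matrix.linftyOpNormedAlgebra
  have h := differentiable_exp_smul_const ℂ X
  have h2 : Differentiable ℂ fun M : Matrix (Fin N) (Fin N) ℂ => M i j :=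
    (LinearMap.toContinuousLinearMap (Matrix.entryLinearMap ℂ ℂ i j)).differentiable
  exact h2.comp h

theorem exp_smul_add (X : Matrix (Fin N) (Fin N) ℂ) (s t : ℂ) :
    exp ((s + t) • X) = exp (s • X) * exp (t • X) := by
  rw [add_smul, Matrix.exp_add_of_commute]
  exact ((Commute.refl X).smul_left s).smul_right t

end mat

end Pool.Agent.Work.MP_970e75_an.Lin
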