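import Pool.Agent.Work.MP_970e75_an.Cut2

/-!
Shears along a measure preserving action of `ℂ` on a locally compact group, and the basic
measure estimates.
-/

namespace Pool.Agent.Work.MP_970e75_an

open Filter Topology Set Metric MeasureTheory
open scoped ENNReal

/-- A measure preserving action `θ` of `ℂ` on `G`, an invariant map `q`, and a function `p` such
that `(q, p)` is proper and `p` is large along suitable pieces of the orbits. -/
structure FlowData (G : Type*) [TopologicalSpace G] [MeasurableSpace G] (μ : Measure G)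
    (W : Type*) [NormedAddCommGroup W] where
  q : G → W
  p : G → ℝ
  θ : ℂ → G → G
  q_cont : Continuous q
  p_cont : Continuous p
  θ_cont : Continuous fun x : ℂ × G => θ x.1 x.2
  θ_zero : ∀ g, θ 0 g = g
  θ_add : ∀ s t g, θ (s + t) g = θ s (θ t g)
  θ_meas : ∀ s, MeasurePreserving (θ s) μ μ
  q_inv : ∀ s g, q (θ s g) = q g
  compact : ∀ R, IsCompact {g | ‖q g‖ ≤ R ∧ p g ≤ R}
  escape : ∀ M, ∃ R s, ∀ g, p g ≤ M → p (θ s g) ≤ M → ‖q g‖ < R

variable {G : Type*} [TopologicalSpace G] [MeasurableSpace G] {μ : Measure G}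
  {W : Type*} [NormedAddCommGroup W]

namespace FlowData

theorem compact' (F : FlowData G μ W) (R M : ℝ) : IsCompact {g | ‖F.q g‖ ≤ R ∧ F.p g ≤ M} := by
  refine (F.compact (max R M)).of_isClosed_subset ?_ ?_
  · exact (isClosed_le F.q_cont.norm continuous_const).inter
      (isClosed_le F.p_cont continuous_const)
  · rintro g ⟨h1, h2⟩
    exact ⟨h1.trans (le_max_left _ _), h2.trans (le_max_right _ _)⟩

/-- The shear attached to a function `f` on `W`. -/
def shear (F : FlowData G μ W) (f : W → ℂ) (g : G) : G := F.θ (f (F.q g)) g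

theorem q_shear (F : FlowData G μ W) (f : W → ℂ) (g : G) : F.q (F.shear f g) = F.q g :=
  F.q_inv _ _

theorem shear_add (F : FlowData G μ W) (f₁ f₂ : W → ℂ) (g : G) :
    F.shear (fun w => f₁ w + f₂ w) g = F.shear f₁ (F.shear f₂ g) := by
  show F.θ (f₁ (F.q g) + f₂ (F.q g)) g = F.θ (f₁ (F.q (F.θ (f₂ (F.q g)) g))) (F.θ (f₂ (F.q g)) g)
  rw [F.q_inv, F.θ_add]

theorem shear_neg (F : FlowData G μ W) (f : W → ℂ) (g : G) :
    F.shear (fun w => - f w) (F.shear f g) = g := by
  have := F.shear_add (fun w => - f w) f g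
  rw [← this]
  show F.θ (- f (F.q g) + f (F.q g)) g = g
  rw [neg_add_cancel, F.θ_zero]

theorem shear_neg' (F : FlowData G μ W) (f : W → ℂ) (g : G) :
    F.shear f (F.shear (fun w => - f w) g) = g := by
  have := F.shear_add f (fun w => - f w) g
  rw [← this]
  show F.θ (f (F.q g) + - f (F.q g)) g = g
  rw [add_neg_cancel, F.θ_zero]

theorem continuous_shear (F : FlowData G μ W) {f : W → ℂ} (hf : Continuous f) :
    Continuous (F.shear f) :=
  F.θ_cont.comp ((hf.comp F.q_cont).prodMk continuous_id)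

/-- The set of points which the shear by `f` does not make `p`-large is compact. -/
theorem compact_shear (F : FlowData G μ W) {f : W → ℂ} (hf : Continuous f) (R M : ℝ) :
    IsCompact {g | ‖F.q g‖ ≤ R ∧ F.p (F.shear f g) ≤ M} := by
  have h := (F.compact' R M).image (F.continuous_shear (f := fun w => - f w) hf.neg)
  convert h using 1
  ext g
  constructor
  · rintro ⟨h1, h2⟩
    exact ⟨F.shear f g, ⟨by rwa [F.q_shear], h2⟩, F.shear_neg f g⟩
  · rintro ⟨g', ⟨h1, h2⟩, rfl⟩
    refine ⟨by rwa [F.q_shear], ?_⟩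
    rwa [F.shear_neg']

/-- Small flow times change `p` by at most one where `q` and `p` are bounded. -/
theorem exists_small (F : FlowData G μ W) (R M : ℝ) :
    ∃ δ > 0, ∀ g u, ‖F.q g‖ ≤ R → ‖u‖ ≤ δ → F.p (F.θ u g) ≤ M → F.p g ≤ M + 1 := by
  have hK := F.compact' R M
  have hcont : Continuous fun x : ℂ × G => F.p (F.θ (-x.1) x.2) :=
    F.p_cont.comp (F.θ_cont.comp ((continuous_fst.neg).prodMk continuous_snd))
  have hopen : IsOpen {x : ℂ × G | F.p (F.θ (-x.1) x.2) < M + 1} :=
    isOpen_lt hcont continuous_const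
  have hsub : ({0} : Set ℂ) ×ˢ {g | ‖F.q g‖ ≤ R ∧ F.p g ≤ M} ⊆
      {x : ℂ × G | F.p (F.θ (-x.1) x.2) < M + 1} := by
    rintro ⟨z, g⟩ ⟨hz, -, hg⟩
    have hz' : z = 0 := hz
    subst hz'
    simp only [mem_ofPred_eq, neg_zero, F.θ_zero]
    have hg' : F.p g ≤ M := hg
    linarith
  obtain ⟨u, v, hu, hv, h0u, hKv, huv⟩ :=
    generalized_tube_lemma isCompact_singleton hK hopen hsub
  have h0 : (0 : ℂ) ∈ u := h0u rfl
  obtain ⟨ε, hε, hball⟩ := Metric.isOpen_iff.mp hu 0 h0
  refine ⟨ε / 2, by positivity, ?_⟩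
  intro g z hg hz hp
  have hz' : z ∈ u := hball (by simp; linarith)
  have hg' : F.θ z g ∈ v := hKv ⟨by rwa [F.q_inv], hp⟩
  have h2 := huv (Set.mk_mem_prod hz' hg')
  simp only [mem_ofPred_eq] at h2
  rw [← F.θ_add, neg_add_cancel, F.θ_zero] at h2
  exact h2.le

end FlowData

end Pool.Agent.Work.MP_970e75_an
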