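import Pool.Agent.Work.MP_970e75_an.Flow

/-!
Measure estimates: thin neighbourhoods of null level sets, shears, and averaging over
translations.
-/

namespace Pool.Agent.Work.MP_970e75_an

open Filter Topology Set Metric MeasureTheory
open scoped ENNReal

section thin

variable {G : Type*} [TopologicalSpace G] [MeasurableSpace G] [BorelSpace G] {μ : Measure G}

/-- Thin neighbourhoods of finitely many null level sets have small measure. -/
theorem exists_thin {ι : Type*} (K : Set G) (hK : IsClosed K) (hμK : μ K ≠ ∞) (s : Finset ι)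
    (φ : ι → G → ℝ) (hφ : ∀ i, Continuous (φ i)) (c : ι → ℝ)
    (hnull : ∀ i ∈ s, μ {g | φ i g = c i} = 0) (ε : ℝ≥0∞) (hε : 0 < ε) :
    ∃ η > 0, μ {g | g ∈ K ∧ ∃ i ∈ s, |φ i g - c i| ≤ η} < ε := by
  set A : ℕ → Set G := fun n => {g | g ∈ K ∧ ∃ i ∈ s, |φ i g - c i| ≤ 1 / ((n : ℝ) + 1)} with hA
  have hclosed : ∀ n, IsClosed (A n) := by
    intro n
    have : A n = K ∩ ⋃ i ∈ s, {g | |φ i g - c i| ≤ 1 / ((n : ℝ) + 1)} := by
      ext g; simp [hA]
    rw [this]
    apply hK.inter
    apply isClosed_biUnion_finset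
    intro i _
    exact isClosed_le ((hφ i).sub continuous_const).abs continuous_const
  have hanti : Antitone A := by
    rintro m n hmn g ⟨hg, i, hi, hle⟩
    refine ⟨hg, i, hi, hle.trans ?_⟩
    apply one_div_le_one_div_of_le (by positivity)
    have : (m : ℝ) ≤ n := by exact_mod_cast hmn
    linarith
  have hfin : ∃ n, μ (A n) ≠ ∞ :=
    ⟨0, ne_top_of_le_ne_top hμK (measure_mono fun g hg => hg.1)⟩
  have hlim := tendsto_measure_iInter_atTop (fun n => (hclosed n).measurableSet.nullMeasurableSet)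
    hanti hfin
  have hzero : μ (⋂ n, A n) = 0 := by
    refine measure_mono_null (t := ⋃ i ∈ s, {g | φ i g = c i}) ?_ ?_
    · intro g hg
      by_contra hcon
      simp only [mem_iUnion, mem_ofPred_eq, exists_prop, not_exists, not_and] at hcon
      have h1 : ∀ i ∈ s, ∀ᶠ n : ℕ in atTop, 1 / ((n : ℝ) + 1) < |φ i g - c i| := by
        intro i hi
        exact tendsto_one_div_add_atTop_nhds_zero_nat.eventually
          (gt_mem_nhds (abs_pos.mpr (sub_ne_zero.mpr (hcon i hi))))
      obtain ⟨n, hn⟩ := ((Finset.eventually_all s).mpr h1).exists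
      obtain ⟨-, i, hi, hle⟩ := mem_iInter.mp hg n
      exact absurd (hn i hi) (not_lt.mpr hle)
    · exact (measure_biUnion_null_iff s.countable_toSet).mpr hnull
  rw [hzero] at hlim
  obtain ⟨n, hn⟩ := (hlim.eventually (gt_mem_nhds hε)).exists
  exact ⟨1 / ((n : ℝ) + 1), by positivity, hn⟩

end thin

section shear

variable {G : Type*} [TopologicalSpace G] [MeasurableSpace G] [BorelSpace G] {μ : Measure G}
  {W : Type*} [NormedAddCommGroup W]

/-- A shear does not increase the measure of sets where `p` is bounded, up to changing the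
bound by one. -/
theorem FlowData.measure_shear_le (F : FlowData G μ W) {f : W → ℂ} (hf : Continuous f)
    (A : Set G) (hA : MeasurableSet A) (hinv : ∀ s g, F.θ s g ∈ A ↔ g ∈ A) (b M : ℝ) :
    μ {g | g ∈ A ∧ ‖F.q g‖ ≤ b ∧ F.p (F.shear f g) ≤ M} ≤
      μ {g | g ∈ A ∧ ‖F.q g‖ ≤ b ∧ F.p g ≤ M + 1} := by
  obtain ⟨δ, hδ, hsmall⟩ := F.exists_small b M
  set r : ℝ := δ / 2 with hr
  have hr0 : 0 < r := by positivity
  let idx : ℂ → ℤ × ℤ := fun z => (⌊z.re / r⌋, ⌊z.im / r⌋)
  have hidx : Measurable idx := by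
    apply Measurable.prodMk
    · exact (Complex.measurable_re.div_const r).floor
    · exact (Complex.measurable_im.div_const r).floor
  let rep : ℤ × ℤ → ℂ := fun j => ⟨r * j.1, r * j.2⟩
  have hrep : ∀ z : ℂ, ‖z - rep (idx z)‖ ≤ δ := by
    intro z
    have h1 : ‖z - rep (idx z)‖ ≤ |(z - rep (idx z)).re| + |(z - rep (idx z)).im| :=
      Complex.norm_le_abs_re_add_abs_im _
    have h2 : ∀ x : ℝ, |x - r * ⌊x / r⌋| ≤ r := by
      intro x
      have h3 := Int.floor_le (x / r)
      have h4 := Int.lt_floor_add_one (x / r)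
      have h5 : x = r * (x / r) := by field_simp
      rw [abs_le]
      constructor
      · have : r * (⌊x / r⌋ : ℝ) ≤ r * (x / r) := mul_le_mul_of_nonneg_left h3 hr0.le
        linarith
      · have : r * (x / r) ≤ r * ((⌊x / r⌋ : ℝ) + 1) := mul_le_mul_of_nonneg_left h4.le hr0.le
        linarith
    have h6 := h2 z.re
    have h7 := h2 z.im
    simp only [Complex.sub_re, Complex.sub_im, rep, idx] at h1 h6 h7 ⊢
    linarith
  have hfq : Continuous fun g => f (F.q g) := hf.comp F.q_cont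
  let E : ℤ × ℤ → Set G := fun j => {g | g ∈ A ∧ ‖F.q g‖ ≤ b ∧ F.p g ≤ M + 1} ∩
    {g | idx (f (F.q g)) = j}
  have hbase : MeasurableSet {g | g ∈ A ∧ ‖F.q g‖ ≤ b ∧ F.p g ≤ M + 1} := by
    apply hA.inter
    exact ((isClosed_le F.q_cont.norm continuous_const).inter
      (isClosed_le F.p_cont continuous_const)).measurableSet
  have hEm : ∀ j, MeasurableSet (E j) := by
    intro j
    apply hbase.inter
    exact (hidx.comp hfq.measurable) (measurableSet_singleton j)
  have hEd : Pairwise (Function.onFun Disjoint E) := by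
    intro i j hij
    rw [Function.onFun, Set.disjoint_left]
    rintro g ⟨-, h1⟩ ⟨-, h2⟩
    exact hij (h1.symm.trans h2)
  have hcover : {g | g ∈ A ∧ ‖F.q g‖ ≤ b ∧ F.p (F.shear f g) ≤ M} ⊆
      ⋃ j, (F.θ (rep j)) ⁻¹' (E j) := by
    rintro g ⟨h1, h2, h3⟩
    rw [mem_iUnion]
    refine ⟨idx (f (F.q g)), ⟨(hinv _ _).mpr h1, ?_, ?_⟩, ?_⟩
    · rwa [F.q_inv]
    · apply hsmall _ (f (F.q g) - rep (idx (f (F.q g)))) _ (hrep _)
      · rw [← F.θ_add, sub_add_cancel]
        exact h3
      · rwa [F.q_inv]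
    · show idx (f (F.q (F.θ _ g))) = idx (f (F.q g))
      rw [F.q_inv]
  calc μ {g | g ∈ A ∧ ‖F.q g‖ ≤ b ∧ F.p (F.shear f g) ≤ M}
      ≤ μ (⋃ j, (F.θ (rep j)) ⁻¹' (E j)) := measure_mono hcover
    _ ≤ ∑' j, μ ((F.θ (rep j)) ⁻¹' (E j)) := measure_iUnion_le _
    _ = ∑' j, μ (E j) := by
        congr 1
        ext j
        exact (F.θ_meas (rep j)).measure_preimage (hEm j).nullMeasurableSet
    _ = μ (⋃ j, E j) := (measure_iUnion hEd hEm).symm
    _ ≤ μ {g | g ∈ A ∧ ‖F.q g‖ ≤ b ∧ F.p g ≤ M + 1} := by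
        apply measure_mono
        apply iUnion_subset
        intro j g hg
        exact hg.1

end shear

section avg

variable {G : Type*} [Group G] [TopologicalSpace G] [IsTopologicalGroup G] [MeasurableSpace G]
  [BorelSpace G] {μ : Measure G}

/-- Averaging over left translations. -/
theorem exists_translate_avoid [μ.IsMulRightInvariant] (D : Set G) (hD : D.Countable)
    (U : Set G) (hU : MeasurableSet U)
    (hdisj : ∀ d ∈ D, ∀ d' ∈ D, ∀ τ ∈ U, ∀ τ' ∈ U, τ * d = τ' * d' → d = d')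
    (B : Set G) (hB : MeasurableSet B) (hlt : μ B < μ U) :
    ∃ τ ∈ U, ∀ d ∈ D, τ * d ∉ B := by
  classical
  by_contra hcon
  push Not at hcon
  have hcount : Countable D := hD.to_subtype
  let C : D → Set G := fun d => {g | g ∈ B ∧ g * (d : G)⁻¹ ∈ U}
  have hCm : ∀ d, MeasurableSet (C d) := by
    intro d
    apply hB.inter
    exact (continuous_id.mul continuous_const).measurable hU
  have hCd : Pairwise (Function.onFun Disjoint C) := by
    intro d d' hdd
    rw [Function.onFun, Set.disjoint_left]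
    rintro g ⟨-, h1⟩ ⟨-, h2⟩
    apply hdd
    apply Subtype.ext
    apply hdisj d d.2 d' d'.2 _ h1 _ h2
    simp
  have hcover : U ⊆ ⋃ d : D, (fun τ => τ * (d : G)) ⁻¹' (C d) := by
    intro τ hτ
    obtain ⟨d, hd, hB'⟩ := hcon τ hτ
    rw [mem_iUnion]
    refine ⟨⟨d, hd⟩, hB', ?_⟩
    show τ * d * d⁻¹ ∈ U
    rwa [mul_inv_cancel_right]
  have : μ U ≤ μ B := by
    calc μ U ≤ μ (⋃ d : D, (fun τ => τ * (d : G)) ⁻¹' (C d)) := measure_mono hcover
      _ ≤ ∑' d : D, μ ((fun τ => τ * (d : G)) ⁻¹' (C d)) := measure_iUnion_le _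
      _ = ∑' d : D, μ (C d) := by
          congr 1
          ext d
          exact measure_preimage_mul_right μ (d : G) (C d)
      _ = μ (⋃ d, C d) := (measure_iUnion hCd hCm).symm
      _ ≤ μ B := by
          apply measure_mono
          apply iUnion_subset
          intro d g hg
          exact hg.1
  exact absurd hlt (not_lt.mpr this)

end avg

section finite

variable {G : Type*} [Group G] [TopologicalSpace G] [IsTopologicalGroup G]

/-- A uniformly discrete set meets compact sets in finite sets. -/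
theorem finite_inter_compact (D : Set G) (U : Set G) (hU : IsOpen U) (hne : U.Nonempty)
    (hdisj : ∀ d ∈ D, ∀ d' ∈ D, ∀ τ ∈ U, ∀ τ' ∈ U, τ * d = τ' * d' → d = d')
    (K : Set G) (hK : IsCompact K) : (D ∩ K).Finite := by
  obtain ⟨u, hu⟩ := hne
  refine hK.induction_on (p := fun s => (D ∩ s).Finite) ?_ ?_ ?_ ?_
  · simp
  · intro s t hst ht
    exact ht.subset (inter_subset_inter_right _ hst)
  · intro s t hs ht
    rw [inter_union_distrib_left]
    exact hs.union ht
  · intro k _
    refine ⟨{g | u * k * g⁻¹ ∈ U}, mem_nhdsWithin_of_mem_nhds ?_, ?_⟩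
    · apply (hU.preimage (by fun_prop : Continuous fun g : G => u * k * g⁻¹)).mem_nhds
      show u * k * k⁻¹ ∈ U
      rwa [mul_inv_cancel_right]
    · apply Set.Subsingleton.finite
      rintro d ⟨hd, h1⟩ d' ⟨hd', h2⟩
      apply hdisj d hd d' hd' _ h1 _ h2
      simp

/-- Only finitely many elements of a uniformly discrete set are translated to a compact set by
elements of a compact set. -/
theorem finite_meets (D : Set G) (U : Set G) (hU : IsOpen U) (hne : U.Nonempty)
    (hdisj : ∀ d ∈ D, ∀ d' ∈ D, ∀ τ ∈ U, ∀ τ' ∈ U, τ * d = τ' * d' → d = d')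
    (L : Set G) (hL : IsCompact L) (K : Set G) (hK : IsCompact K) :
    {d | d ∈ D ∧ ∃ τ ∈ L, τ * d ∈ K}.Finite := by
  have hcomp : IsCompact ((fun x : G × G => x.1⁻¹ * x.2) '' (L ×ˢ K)) :=
    (hL.prod hK).image (by fun_prop)
  refine (finite_inter_compact D U hU hne hdisj _ hcomp).subset ?_
  rintro d ⟨hd, τ, hτ, hk⟩
  exact ⟨hd, (τ, τ * d), ⟨hτ, hk⟩, by simp⟩

end finite

end Pool.Agent.Work.MP_970e75_an
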