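import Pool.Agent.Work.MP_970e75_an.Sl2Hol

/-!
Discrete subgroups of closed subgroups of `SL_N(ℂ)` containing an `sl₂`-triple are tame.
-/

namespace Pool.Agent.Work.MP_970e75_an.Lin

open Filter Topology Set Matrix MeasureTheory NormedSpace

variable {N : ℕ} {G : Subgroup (SL N)}

/-- A quadratic matrix polynomial with infinitely many roots is zero. -/
theorem eq_zero_of_infinite (A B C : Matrix (Fin N) (Fin N) ℂ) (S : Set ℂ) (hS : S.Infinite)
    (h : ∀ s ∈ S, A - s • B - (s ^ 2) • C = 0) : A = 0 ∧ B = 0 ∧ C = 0 := by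
  have key : ∀ i j, A i j = 0 ∧ B i j = 0 ∧ C i j = 0 := by
    intro i j
    set p : Polynomial ℂ := Polynomial.C (A i j) - Polynomial.C (B i j) * Polynomial.X -
      Polynomial.C (C i j) * Polynomial.X ^ 2 with hp
    have hroot : p = 0 := by
      apply Polynomial.eq_zero_of_infinite_isRoot
      refine hS.mono ?_
      intro s hs
      have h1 := congrFun (congrFun (h s hs) i) j
      simp only [Matrix.sub_apply, Matrix.smul_apply, smul_eq_mul, Matrix.zero_apply] at h1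
      show p.eval s = 0
      simp only [hp, Polynomial.eval_sub, Polynomial.eval_mul, Polynomial.eval_C,
        Polynomial.eval_X, Polynomial.eval_pow]
      rw [← h1]; ring
    have c0 := congrArg (fun r => Polynomial.coeff r 0) hroot
    have c1 := congrArg (fun r => Polynomial.coeff r 1) hroot
    have c2 := congrArg (fun r => Polynomial.coeff r 2) hroot
    simp [hp, Polynomial.coeff_X, Polynomial.coeff_C] at c0 c1 c2
    exact ⟨c0, c1, c2⟩
  exact ⟨Matrix.ext fun i j => (key i j).1, Matrix.ext fun i j => (key i j).2.1,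
    Matrix.ext fun i j => (key i j).2.2⟩

/-- For `δ ≠ 1` only finitely many conjugates of the pair `(E, P)` are fixed by `δ`. -/
theorem MTriple.finite_bad {E H F : Matrix (Fin N) (Fin N) ℂ} (h : MTriple E H F)
    (P : Matrix (Fin N) (Fin N) ℂ) (hP : ∀ x, E *ᵥ x = 0 → P *ᵥ x = x) (δ : SL N) (hδ : δ ≠ 1) :
    {s : ℂ | conj δ (E - s • H - (s ^ 2) • F) = E - s • H - (s ^ 2) • F ∧
      (δ : Matrix (Fin N) (Fin N) ℂ) * (exp (s • F) * P) = exp (s • F) * P}.Finite := by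
  by_contra hinf
  apply hδ
  set S : Set ℂ := {s : ℂ | conj δ (E - s • H - (s ^ 2) • F) = E - s • H - (s ^ 2) • F ∧
      (δ : Matrix (Fin N) (Fin N) ℂ) * (exp (s • F) * P) = exp (s • F) * P} with hS
  have hSinf : S.Infinite := hinf
  obtain ⟨-, -, c3⟩ := eq_zero_of_infinite (conj δ E - E) (conj δ H - H) (conj δ F - F) S hSinf (by
    rintro s ⟨h1, -⟩
    rw [conj_sub, conj_sub, conj_smul, conj_smul] at h1
    rw [smul_sub, smul_sub]
    have e1 : conj δ E - E - (s • conj δ H - s • H) - (s ^ 2 • conj δ F - s ^ 2 • F) =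
      (conj δ E - s • conj δ H - s ^ 2 • conj δ F) - (E - s • H - s ^ 2 • F) := by abel
    rw [e1, h1, sub_self])
  have hF : (δ : Matrix (Fin N) (Fin N) ℂ) * F = F * (δ : Matrix (Fin N) (Fin N) ℂ) := by
    have e1 : conj δ F = F := sub_eq_zero.mp c3
    have e2 := conj_mul_self δ F
    rw [e1] at e2
    exact e2.symm
  obtain ⟨s, -, h2⟩ := hSinf.nonempty
  have hcomm : Commute (δ : Matrix (Fin N) (Fin N) ℂ) (exp (s • F)) := by
    let _ : NormedRing (Matrix (Fin N) (Fin N) ℂ) := Matrix.linftyOpNormedRing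
    let _ : NormedAlgebra ℂ (Matrix (Fin N) (Fin N) ℂ) := Matrix.linftyOpNormedAlgebra
    have hc : Commute (δ : Matrix (Fin N) (Fin N) ℂ) (s • F) := Commute.smul_right hF s
    exact hc.exp_right
  have hδP : (δ : Matrix (Fin N) (Fin N) ℂ) * P = P := by
    have e1 : exp (s • F) * ((δ : Matrix (Fin N) (Fin N) ℂ) * P) = exp (s • F) * P := by
      rw [← mul_assoc, ← hcomm.eq, mul_assoc]
      exact h2
    have e2 := congrArg (fun A => exp (-(s • F)) * A) e1
    simp only [← mul_assoc] at e2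
    rw [mul_assoc (exp (-(s • F)) * exp (s • F)), exp_neg_mul_smul, one_mul, one_mul] at e2
    exact e2
  -- the fixed space of `δ`
  let T : Submodule ℂ (Fin N → ℂ) :=
    { carrier := {v | (δ : Matrix (Fin N) (Fin N) ℂ) *ᵥ v = v}
      add_mem' := by
        intro v w hv hw
        show (δ : Matrix (Fin N) (Fin N) ℂ) *ᵥ (v + w) = v + w
        rw [Matrix.mulVec_add]
        have hv' : (δ : Matrix (Fin N) (Fin N) ℂ) *ᵥ v = v := hv
        have hw' : (δ : Matrix (Fin N) (Fin N) ℂ) *ᵥ w = w := hw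
        rw [hv', hw']
      zero_mem' := by simp
      smul_mem' := by
        intro c v hv
        have hv' : (δ : Matrix (Fin N) (Fin N) ℂ) *ᵥ v = v := hv
        show (δ : Matrix (Fin N) (Fin N) ℂ) *ᵥ (c • v) = c • v
        rw [Matrix.mulVec_smul, hv'] }
  have hT : T = ⊤ := by
    apply h.triple.eq_top_of_forall
    intro i x hx
    have hx' : E *ᵥ x = 0 := hx
    have h0 : (δ : Matrix (Fin N) (Fin N) ℂ) *ᵥ x = x := by
      conv_lhs => rw [← hP x hx', Matrix.mulVec_mulVec, hδP]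
      exact hP x hx'
    show (δ : Matrix (Fin N) (Fin N) ℂ) *ᵥ ((Matrix.toLinAlgEquiv' F ^ i) x) =
      (Matrix.toLinAlgEquiv' F ^ i) x
    rw [conj_mulVec_pow, h0]
    have e1 : conj δ F = F := sub_eq_zero.mp c3
    rw [e1]
  apply Subtype.ext
  show (δ : Matrix (Fin N) (Fin N) ℂ) = 1
  ext i j
  have h1 : (Pi.single j (1 : ℂ) : Fin N → ℂ) ∈ T := by rw [hT]; exact Submodule.mem_top
  have h2 : (δ : Matrix (Fin N) (Fin N) ℂ) *ᵥ (Pi.single j (1 : ℂ)) = Pi.single j 1 := h1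
  have h3 := congrFun h2 i
  rw [Matrix.mulVec_single_one] at h3
  have h4 : (δ : Matrix (Fin N) (Fin N) ℂ) i j = (Pi.single j (1 : ℂ) : Fin N → ℂ) i := h3
  rw [h4, Matrix.one_apply, Pi.single_apply]

/-- A neighbourhood of the identity with disjoint translates by a discrete subgroup. -/
theorem exists_disjoint_nhd {G : Type*} [Group G] [TopologicalSpace G] [IsTopologicalGroup G]
    (Γ : Subgroup G) [DiscreteTopology Γ] :
    ∃ U : Set G, IsOpen U ∧ (1 : G) ∈ U ∧
      ∀ γ ∈ Γ, ∀ γ' ∈ Γ, ∀ τ ∈ U, ∀ τ' ∈ U, τ * γ = τ' * γ' → γ = γ' := by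
  have h1 : IsOpen ({1} : Set Γ) := isOpen_discrete _
  obtain ⟨V, hV, hV1⟩ := isOpen_induced_iff.mp h1
  have hmem : (1 : G) ∈ V := by
    have : (1 : Γ) ∈ (Subtype.val ⁻¹' V : Set Γ) := by rw [hV1]; rfl
    exact this
  have hcont : Continuous fun x : G × G => x.2⁻¹ * x.1 := by fun_prop
  have hpre : (fun x : G × G => x.2⁻¹ * x.1) ⁻¹' V ∈ 𝓝 ((1 : G), (1 : G)) := by
    apply (hV.preimage hcont).mem_nhds
    simpa using hmem
  obtain ⟨u, v, hu, hu1, hv, hv1, huv⟩ := mem_nhds_prod_iff'.mp hpre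
  refine ⟨u ∩ v, hu.inter hv, ⟨hu1, hv1⟩, ?_⟩
  intro γ hγ γ' hγ' τ hτ τ' hτ' hEq
  have h2 : τ'⁻¹ * τ = γ' * γ⁻¹ := by
    rw [inv_mul_eq_iff_eq_mul, ← mul_assoc, ← hEq, mul_inv_cancel_right]
  have h3 : τ'⁻¹ * τ ∈ V := huv (Set.mk_mem_prod hτ.1 hτ'.2)
  have h4 : γ' * γ⁻¹ ∈ Γ := Γ.mul_mem hγ' (Γ.inv_mem hγ)
  rw [h2] at h3
  have h5 : (⟨γ' * γ⁻¹, h4⟩ : Γ) ∈ (Subtype.val ⁻¹' V : Set Γ) := h3
  rw [hV1] at h5
  have h6 : γ' * γ⁻¹ = 1 := congrArg Subtype.val h5
  exact (mul_inv_eq_one.mp h6).symm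

/-- The main theorem for groups containing an `sl₂`-triple. -/
theorem tame_of_sl2 (hG : IsClosed (G : Set (SL N))) (hsl : ContainsSl2 G) (Γ : Subgroup G)
    [DiscreteTopology Γ] : IsTame G (Γ : Set G) := by
  obtain ⟨E, H, F, hE, -, hF, hE0, r1, r2, r3⟩ := hsl
  have h : MTriple E H F := ⟨r1, r2, r3⟩
  have hF0 : F ≠ 0 := by
    rintro rfl
    apply hE0
    have hH : H = 0 := by rw [← r3]; simp
    have h2 : (2 : ℂ) • E = 0 := by rw [← r1, hH]; simp
    exact (smul_eq_zero.mp h2).resolve_left two_ne_zero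
  have hFn : ∃ k, F ^ k = 0 := by
    obtain ⟨k, hk⟩ := h.triple.swap.nilpotent_E
    refine ⟨k, ?_⟩
    rw [← map_pow] at hk
    exact (map_eq_zero_iff _ (Matrix.toLinAlgEquiv' (R := ℂ) (n := Fin N)).injective).mp hk
  obtain ⟨P, hEP, hP⟩ := exists_kernel_matrix E
  obtain ⟨P', hFP', hP'⟩ := exists_kernel_matrix F
  have hemb := isClosedEmbedding_entries_sub hG
  have hsc : SecondCountableTopology G := hemb.isEmbedding.secondCountableTopology
  have hlc : LocallyCompactSpace G := hemb.locallyCompactSpace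
  let _ : MeasurableSpace G := borel G
  have hB : BorelSpace G := ⟨rfl⟩
  have hcountΓ : Countable Γ := TopologicalSpace.separableSpace_iff_countable.mp inferInstance
  -- the generic conjugate
  have hbad : (⋃ δ : Γ, {s : ℂ | δ.1.1 ≠ 1 ∧ conj δ.1.1 (E - s • H - (s ^ 2) • F) =
      E - s • H - (s ^ 2) • F ∧
      (δ.1.1 : Matrix (Fin N) (Fin N) ℂ) * (exp (s • F) * P) = exp (s • F) * P}).Countable := by
    apply countable_iUnion
    intro δ
    by_cases hδ : δ.1.1 = 1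
    · have : {s : ℂ | δ.1.1 ≠ 1 ∧ conj δ.1.1 (E - s • H - (s ^ 2) • F) =
        E - s • H - (s ^ 2) • F ∧
        (δ.1.1 : Matrix (Fin N) (Fin N) ℂ) * (exp (s • F) * P) = exp (s • F) * P} = ∅ := by
        ext s; simp [hδ]
      rw [this]
      exact countable_empty
    · exact ((h.finite_bad P hP δ.1.1 hδ).subset fun s hs => hs.2).countable
  obtain ⟨s0, hs0⟩ : ∃ s0 : ℂ, s0 ∉ ⋃ δ : Γ, {s : ℂ | δ.1.1 ≠ 1 ∧
      conj δ.1.1 (E - s • H - (s ^ 2) • F) = E - s • H - (s ^ 2) • F ∧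
      (δ.1.1 : Matrix (Fin N) (Fin N) ℂ) * (exp (s • F) * P) = exp (s • F) * P} := by
    by_contra hcon
    push Not at hcon
    have huniv : (univ : Set ℂ).Countable := hbad.mono fun s _ => hcon s
    exact not_countable_complex huniv
  set σ : G := expG F hF s0 with hσ
  -- injectivity
  have hinj : ∀ g g' : G, g'⁻¹ * g ∈ Γ → qmap E P (g * σ) = qmap E P (g' * σ) → g = g' := by
    intro g g' hΓ hq
    have q1 : pt (conj (g * σ).1 E) = pt (conj (g' * σ).1 E) := congrArg Prod.fst hq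
    have q2 : pt (((g * σ).1 : Matrix (Fin N) (Fin N) ℂ) * P) =
      pt (((g' * σ).1 : Matrix (Fin N) (Fin N) ℂ) * P) := congrArg Prod.snd hq
    have ptinj : ∀ A B : Matrix (Fin N) (Fin N) ℂ, pt A = pt B → A = B := fun A B hAB => hAB
    have q1' := ptinj _ _ q1
    have q2' := ptinj _ _ q2
    rw [hσ, conj_mul_expG, conj_mul_expG, h.conj_exp'] at q1'
    rw [hσ, coe_mul_mat, coe_mul_mat, expG_coe, mul_assoc, mul_assoc] at q2'
    by_contra hne
    apply hs0
    rw [mem_iUnion]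
    refine ⟨⟨g'⁻¹ * g, hΓ⟩, ?_, ?_, ?_⟩
    · intro h1
      apply hne
      have h2 : g'⁻¹ * g = 1 := Subtype.ext h1
      exact (inv_mul_eq_one.mp h2).symm
    · have e1 : ∀ X : Matrix (Fin N) (Fin N) ℂ, conj (g'⁻¹ * g : G).1 X =
          ((g'.1⁻¹ : SL N) : Matrix (Fin N) (Fin N) ℂ) * conj g.1 X *
            (g'.1 : Matrix (Fin N) (Fin N) ℂ) := by
        intro X
        unfold conj
        have h3 : ((g'⁻¹ * g : G).1 : SL N) = g'.1⁻¹ * g.1 := rfl
        rw [h3, _root_.mul_inv_rev, inv_inv, Matrix.SpecialLinearGroup.coe_mul,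
          Matrix.SpecialLinearGroup.coe_mul]
        simp only [mul_assoc]
      rw [e1, q1']
      unfold conj
      calc ((g'.1⁻¹ : SL N) : Matrix (Fin N) (Fin N) ℂ) *
            ((g'.1 : Matrix (Fin N) (Fin N) ℂ) * (E - s0 • H - s0 ^ 2 • F) *
              ((g'.1⁻¹ : SL N) : Matrix (Fin N) (Fin N) ℂ)) * (g'.1 : Matrix (Fin N) (Fin N) ℂ)
          = (((g'.1⁻¹ : SL N) : Matrix (Fin N) (Fin N) ℂ) *
              (g'.1 : Matrix (Fin N) (Fin N) ℂ)) * (E - s0 • H - s0 ^ 2 • F) *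
              (((g'.1⁻¹ : SL N) : Matrix (Fin N) (Fin N) ℂ) *
              (g'.1 : Matrix (Fin N) (Fin N) ℂ)) := by simp only [mul_assoc]
        _ = _ := by rw [SL_inv_mul, one_mul, mul_one]
    · have h3 : ((⟨g'⁻¹ * g, hΓ⟩ : Γ).1.1 : Matrix (Fin N) (Fin N) ℂ) =
          ((g'.1⁻¹ : SL N) : Matrix (Fin N) (Fin N) ℂ) * (g.1 : Matrix (Fin N) (Fin N) ℂ) := rfl
      rw [h3, mul_assoc, q2', ← mul_assoc, SL_inv_mul, one_mul]
  obtain ⟨U, hU, hU1, hUdisj⟩ := exists_disjoint_nhd Γ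
  -- reduce to the translate
  apply isTame_of_image (Γ : Set G) (Equiv.mulRight σ) (isAutomorphism_mulRight G σ)
  set μ : Measure G := (Measure.haar : Measure G).inv with hμ
  apply isTame_of_flows (μ := μ) (sl2Flow hG h hE P P' hEP hP hP' μ) (qmap F P') (fun g => rfl)
    (fun s g => g * expG F hF s) (fun g => by rw [expG_zero, mul_one])
    (fun s t g => by rw [add_comm, expG_add, mul_assoc])
    (fun s g => qmap_mul_expG F P' hF hFP' s g) (Bornology.cobounded ℂ)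
    (fun g K hK => eventually_notMem F hF0 hFn hF g K hK)
    (fun f hf => isHolomorphic_shear E P E hE f hf)
    (fun f hf => isHolomorphic_shear F P' F hF f hf)
    (Equiv.mulRight σ '' (Γ : Set G)) ?_ ?_ U hU hU1 ?_
  · exact (Set.to_countable (Γ : Set G)).image _
  · rintro _ ⟨γ, hγ, rfl⟩ _ ⟨γ', hγ', rfl⟩ hne
    have : {τ : G | (sl2Flow hG h hE P P' hEP hP hP' μ).q (τ * (Equiv.mulRight σ) γ) =
        (sl2Flow hG h hE P P' hEP hP hP' μ).q (τ * (Equiv.mulRight σ) γ')} = ∅ := by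
      ext τ
      simp only [mem_ofPred_eq, mem_empty_iff_false, iff_false]
      intro hq
      apply hne
      have hq' : qmap E P (τ * γ * σ) = qmap E P (τ * γ' * σ) := by
        rw [mul_assoc, mul_assoc]; exact hq
      have h1 := hinj (τ * γ) (τ * γ') (by
        rw [_root_.mul_inv_rev, mul_assoc, inv_mul_cancel_left]
        exact Γ.mul_mem (Γ.inv_mem hγ') hγ) hq'
      rw [mul_left_cancel h1]
    rw [this, measure_empty]
  · rintro _ ⟨γ, hγ, rfl⟩ _ ⟨γ', hγ', rfl⟩ τ hτ τ' hτ' hEq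
    have h1 : τ * γ = τ' * γ' := by
      have : τ * (γ * σ) = τ' * (γ' * σ) := hEq
      rw [← mul_assoc, ← mul_assoc] at this
      exact mul_right_cancel this
    rw [hUdisj γ hγ γ' hγ' τ hτ τ' hτ' h1]

end Pool.Agent.Work.MP_970e75_an.Lin
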