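import Mathlib

/-!
Finite dimensional representations of `sl₂`: the whole space is the sum of the images of `ker E`
under the powers of `F`.
-/

namespace Pool.Agent.Work.MP_970e75_an

open Module

variable {V : Type*} [AddCommGroup V] [Module ℂ V]

/-- An `sl₂`-triple of endomorphisms. -/
structure Triple (E H F : Module.End ℂ V) : Prop where
  hE : H * E - E * H = (2 : ℂ) • E
  hF : H * F - F * H = -((2 : ℂ) • F)
  hEF : E * F - F * E = H

namespace Triple

variable {E H F : Module.End ℂ V}

/-- The opposite triple. -/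
theorem swap (h : Triple E H F) : Triple F (-H) E where
  hE := by
    have := h.hF
    calc -H * F - F * -H = -(H * F - F * H) := by simp only [neg_mul, mul_neg]; abel
      _ = (2 : ℂ) • F := by rw [this, neg_neg]
  hF := by
    have := h.hE
    calc -H * E - E * -H = -(H * E - E * H) := by simp only [neg_mul, mul_neg]; abel
      _ = -((2 : ℂ) • E) := by rw [this]
  hEF := by
    have := h.hEF
    calc F * E - E * F = -(E * F - F * E) := by abel
      _ = -H := by rw [this]

theorem apply_E (h : Triple E H F) (v : V) : H (E v) = E (H v) + (2 : ℂ) • E v := by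
  have := congrArg (fun T : Module.End ℂ V => T v) h.hE
  simp only [LinearMap.sub_apply, Module.End.mul_apply, LinearMap.smul_apply] at this
  rw [← this]; abel

theorem apply_F (h : Triple E H F) (v : V) : H (F v) = F (H v) - (2 : ℂ) • F v := by
  have := congrArg (fun T : Module.End ℂ V => T v) h.hF
  simp only [LinearMap.sub_apply, Module.End.mul_apply, LinearMap.smul_apply,
    LinearMap.neg_apply] at this
  have h2 : H (F v) = F (H v) + (H (F v) - F (H v)) := by abel
  rw [h2, this, sub_eq_add_neg]

theorem apply_EF (h : Triple E H F) (v : V) : E (F v) = F (E v) + H v := by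
  have := congrArg (fun T : Module.End ℂ V => T v) h.hEF
  simp only [LinearMap.sub_apply, Module.End.mul_apply] at this
  rw [← this]; abel

/-- The commutation of `E` with powers of `F`. -/
theorem apply_EF_pow (h : Triple E H F) (l : ℕ) (v : V) :
    E ((F ^ (l + 1)) v) = (F ^ (l + 1)) (E v) + ((l : ℂ) + 1) • (F ^ l) (H v - (l : ℂ) • v) := by
  induction l generalizing v with
  | zero =>
    simp only [zero_add, pow_one, pow_zero, Nat.cast_zero, zero_smul, sub_zero, one_smul,
      Module.End.one_apply]
    exact h.apply_EF v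
  | succ l ih =>
    have h1 : (F ^ (l + 1 + 1)) v = (F ^ (l + 1)) (F v) := by
      rw [pow_succ, Module.End.mul_apply]
    rw [h1, ih (F v), h.apply_EF v, h.apply_F v]
    have h2 : (F ^ (l + 1 + 1)) (E v) = (F ^ (l + 1)) (F (E v)) := by
      rw [pow_succ, Module.End.mul_apply]
    have h3 : ∀ u : V, (F ^ l) (F u) = (F ^ (l + 1)) u := by
      intro u
      rw [pow_succ, Module.End.mul_apply]
    rw [h2, map_add]
    have h4 : F (H v) - (2 : ℂ) • F v - (l : ℂ) • F v = F (H v - ((l : ℂ) + 2) • v) := by
      rw [map_sub, map_smul, add_smul]; abel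
    rw [h4, h3]
    simp only [map_sub, map_smul]
    push_cast
    module

theorem comm_pow (h : Triple E H F) (k : ℕ) :
    H * E ^ k - E ^ k * H = (2 * (k : ℂ)) • E ^ k := by
  induction k with
  | zero => simp
  | succ k ih =>
    have h1 : H * E ^ (k + 1) - E ^ (k + 1) * H
        = (H * E ^ k - E ^ k * H) * E + E ^ k * (H * E - E * H) := by
      rw [pow_succ]; noncomm_ring
    rw [h1, ih, h.hE, smul_mul_assoc, mul_smul_comm, ← pow_succ]
    push_cast
    module

/-- `E` is nilpotent. -/
theorem nilpotent_E [FiniteDimensional ℂ V] (h : Triple E H F) : ∃ k, E ^ k = 0 := by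
  by_contra hcon
  push Not at hcon
  set ad : Module.End ℂ (Module.End ℂ V) := LinearMap.mulLeft ℂ H - LinearMap.mulRight ℂ H with had
  have hvec : ∀ k : ℕ, ad.HasEigenvector (2 * (k : ℂ)) (E ^ k) := by
    intro k
    refine ⟨?_, hcon k⟩
    rw [Module.End.mem_eigenspace_iff]
    simp only [had, LinearMap.sub_apply, LinearMap.mulLeft_apply, LinearMap.mulRight_apply]
    exact h.comm_pow k
  have hli := Module.End.eigenvectors_linearIndependent' ad (fun k : ℕ => 2 * (k : ℂ)) (by
    intro a b hab
    simp only [mul_eq_mul_left_iff, Nat.cast_inj, OfNat.ofNat_ne_zero, or_false] at hab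
    exact hab) (fun k => E ^ k) hvec
  exact absurd (hli.finite) (by
    intro hf
    exact not_finite ℕ)

/-- There is no eigenvector of `H` killed by `F E` with eigenvalue outside `ℕ`. -/
theorem eq_zero_of_eigen [FiniteDimensional ℂ V] (h : Triple E H F) (z : V) (ν : ℂ)
    (hν : ∀ l : ℕ, ν ≠ l) (hz : H z = ν • z) (hFE : F (E z) = 0) : z = 0 := by
  obtain ⟨k, hk⟩ := h.swap.nilpotent_E
  have key : ∀ l : ℕ, (F ^ l) z = 0 → z = 0 := by
    intro l
    induction l with
    | zero => intro h0; simpa using h0
    | succ l ih =>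
      intro h0
      apply ih
      have h1 := h.apply_EF_pow l z
      rw [h0, map_zero, hz] at h1
      have h2 : (F ^ (l + 1)) (E z) = 0 := by
        rw [pow_succ, Module.End.mul_apply, hFE, map_zero]
      rw [h2, zero_add, ← sub_smul, map_smul, smul_smul] at h1
      have h3 := (smul_eq_zero.mp h1.symm).resolve_left (by
        apply mul_ne_zero
        · exact_mod_cast Nat.succ_ne_zero l
        · exact sub_ne_zero.mpr (hν l))
      exact h3
  apply key k
  rw [hk]; rfl

/-- `im E ∩ ker F = 0`. -/
theorem disjoint_ker_range [FiniteDimensional ℂ V] (h : Triple E H F) :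
    LinearMap.ker F ⊓ LinearMap.range E = ⊥ := by
  by_contra hcon
  set K : Submodule ℂ V := LinearMap.ker F ⊓ LinearMap.range E with hK
  have hKH : ∀ x ∈ K, H x ∈ K := by
    rintro x ⟨hx1, y, hy⟩
    refine ⟨?_, ?_⟩
    · have hx1' : F x = 0 := hx1
      have := h.apply_F x
      rw [hx1', map_zero, smul_zero, sub_zero] at this
      exact this.symm
    · refine ⟨H y + (2 : ℂ) • y, ?_⟩
      rw [map_add, map_smul, ← h.apply_E, hy]
  have hnt : Nontrivial K := (Submodule.nontrivial_iff_ne_bot).mpr hcon
  obtain ⟨μ, hμ⟩ := Module.End.exists_eigenvalue (H.restrict hKH)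
  obtain ⟨⟨x, hxK⟩, hx⟩ := hμ.exists_hasEigenvector
  have hxne : x ≠ 0 := fun h0 => hx.2 (Subtype.ext h0)
  have hHx : H x = μ • x := by
    have := hx.apply_eq_smul
    exact congrArg Subtype.val this
  obtain ⟨hFx, y, hy⟩ := hxK
  have hFx' : F x = 0 := hFx
  -- `-μ` is a natural number
  have hnat : ∃ m : ℕ, -μ = m := by
    by_contra hno
    push Not at hno
    apply hxne
    apply h.swap.eq_zero_of_eigen x (-μ) hno
    · rw [LinearMap.neg_apply, hHx, neg_smul]
    · rw [hFx', map_zero]
  obtain ⟨m, hm⟩ := hnat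
  set ν : ℂ := μ - 2 with hν
  have hνnot : ∀ l : ℕ, ν ≠ l := by
    intro l hl
    have h1 : (m : ℂ) + l + 2 = 0 := by
      rw [← hl, hν, ← hm]; ring
    have h2 : ((m + l + 2 : ℕ) : ℂ) = 0 := by push_cast; exact h1
    have h3 := Nat.cast_eq_zero.mp h2
    omega
  -- `H - ν` is bijective on `ker E`
  have hstab : ∀ w ∈ LinearMap.ker E, (H - ν • (1 : Module.End ℂ V)) w ∈ LinearMap.ker E := by
    intro w hw
    have hw' : E w = 0 := hw
    have h1 := h.apply_E w
    rw [hw', map_zero, smul_zero, add_zero] at h1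
    show E ((H - ν • (1 : Module.End ℂ V)) w) = 0
    rw [LinearMap.sub_apply, LinearMap.smul_apply, Module.End.one_apply, map_sub, map_smul,
      ← h1, hw', smul_zero, sub_zero]
  have hinj : Function.Injective ((H - ν • (1 : Module.End ℂ V)).restrict hstab) := by
    rw [← LinearMap.ker_eq_bot, LinearMap.ker_eq_bot']
    rintro ⟨w, hw⟩ h0
    have h1 : (H - ν • (1 : Module.End ℂ V)) w = 0 := congrArg Subtype.val h0
    apply Subtype.ext
    apply h.eq_zero_of_eigen w ν hνnot
    · rw [LinearMap.sub_apply, LinearMap.smul_apply, Module.End.one_apply, sub_eq_zero] at h1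
      exact h1
    · have hw' : E w = 0 := hw
      rw [hw', map_zero]
  have hsurj := LinearMap.surjective_of_injective hinj
  have hy1 : (H - ν • (1 : Module.End ℂ V)) y ∈ LinearMap.ker E := by
    show E ((H - ν • (1 : Module.End ℂ V)) y) = 0
    have h1 := h.apply_E y
    rw [hy] at h1
    rw [LinearMap.sub_apply, LinearMap.smul_apply, Module.End.one_apply, map_sub, map_smul, hy]
    have h2 : E (H y) = H x - (2 : ℂ) • x := by rw [h1]; abel
    rw [h2, hHx, hν, ← sub_smul, ← sub_smul, sub_self, zero_smul]
  obtain ⟨⟨y2, hy2⟩, hy2eq⟩ := hsurj ⟨_, hy1⟩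
  have hy2' : (H - ν • (1 : Module.End ℂ V)) y2 = (H - ν • (1 : Module.End ℂ V)) y :=
    congrArg Subtype.val hy2eq
  have hz : y - y2 = 0 := by
    apply h.eq_zero_of_eigen (y - y2) ν hνnot
    · have : (H - ν • (1 : Module.End ℂ V)) (y - y2) = 0 := by
        rw [map_sub, hy2', sub_self]
      rw [LinearMap.sub_apply, LinearMap.smul_apply, Module.End.one_apply, sub_eq_zero] at this
      exact this
    · have hy20 : E y2 = 0 := hy2
      rw [map_sub, hy, hy20, sub_zero, hFx']
  apply hxne
  have hy20 : E y2 = 0 := hy2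
  rw [← hy, sub_eq_zero.mp hz, hy20]

/-- `V = ker E + im F`. -/
theorem ker_sup_range [FiniteDimensional ℂ V] (h : Triple E H F) :
    LinearMap.ker E ⊔ LinearMap.range F = ⊤ := by
  have h1 := h.disjoint_ker_range
  have h2 := h.swap.disjoint_ker_range
  apply Submodule.eq_top_of_finrank_eq
  have a1 := Submodule.finrank_sup_add_finrank_inf_eq (LinearMap.ker F) (LinearMap.range E)
  have a2 := Submodule.finrank_sup_add_finrank_inf_eq (LinearMap.ker E) (LinearMap.range F)
  rw [h1, finrank_bot] at a1
  rw [h2, finrank_bot] at a2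
  have b1 := LinearMap.finrank_range_add_finrank_ker E
  have b2 := LinearMap.finrank_range_add_finrank_ker F
  have c1 := Submodule.finrank_le (LinearMap.ker F ⊔ LinearMap.range E)
  have c2 := Submodule.finrank_le (LinearMap.ker E ⊔ LinearMap.range F)
  omega

/-- `V` is the sum of the images of `ker E` under powers of `F`: a submodule containing all of
them is everything. -/
theorem eq_top_of_forall [FiniteDimensional ℂ V] (h : Triple E H F) (T : Submodule ℂ V)
    (hT : ∀ (i : ℕ) (x : V), E x = 0 → (F ^ i) x ∈ T) : T = ⊤ := by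
  have key : ∀ k : ℕ, ∀ v : V, ∃ t ∈ T, ∃ u : V, v = t + (F ^ k) u := by
    intro k
    induction k with
    | zero =>
      intro v
      exact ⟨0, T.zero_mem, v, by simp⟩
    | succ k ih =>
      intro v
      obtain ⟨t, ht, u, hu⟩ := ih v
      have hu' : u ∈ LinearMap.ker E ⊔ LinearMap.range F := by
        rw [h.ker_sup_range]; exact Submodule.mem_top
      obtain ⟨a, ha, b, ⟨c, hc⟩, hab⟩ := Submodule.mem_sup.mp hu'
      refine ⟨t + (F ^ k) a, T.add_mem ht (hT k a ha), c, ?_⟩
      rw [hu, ← hab, ← hc, map_add, pow_succ, Module.End.mul_apply]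
      abel
  obtain ⟨k, hk⟩ := h.swap.nilpotent_E
  rw [eq_top_iff]
  intro v _
  obtain ⟨t, ht, u, hu⟩ := key k v
  rw [hk] at hu
  rw [hu, LinearMap.zero_apply, add_zero]
  exact ht

end Triple

end Pool.Agent.Work.MP_970e75_an
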