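import Pool.Agent.Work.MP_970e75_an.ExpLemmas
import Pool.Agent.Work.MP_970e75_an.Basic

/-!
Bounds for elements of `SL_N(ℂ)` in terms of the action on an `sl₂`-triple.
-/

namespace Pool.Agent.Work.MP_970e75_an.Lin

open Filter Topology Set Matrix

variable {N : ℕ}

/-- A matrix seen as a point of `ℂ^(N×N)`. -/
def pt (A : Matrix (Fin N) (Fin N) ℂ) : Fin N → Fin N → ℂ := fun i j => A i j

theorem pt_add (A B : Matrix (Fin N) (Fin N) ℂ) : pt (A + B) = pt A + pt B := rfl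

theorem pt_sub (A B : Matrix (Fin N) (Fin N) ℂ) : pt (A - B) = pt A - pt B := rfl

theorem pt_neg (A : Matrix (Fin N) (Fin N) ℂ) : pt (-A) = -pt A := rfl

theorem pt_smul (c : ℂ) (A : Matrix (Fin N) (Fin N) ℂ) : pt (c • A) = c • pt A := rfl

theorem norm_entry_le (A : Matrix (Fin N) (Fin N) ℂ) (i j : Fin N) : ‖A i j‖ ≤ ‖pt A‖ :=
  (norm_le_pi_norm (pt A i) j).trans (norm_le_pi_norm (pt A) i)

theorem norm_mulVec_le (A : Matrix (Fin N) (Fin N) ℂ) (x : Fin N → ℂ) :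
    ‖A *ᵥ x‖ ≤ N * ‖pt A‖ * ‖x‖ := by
  rw [pi_norm_le_iff_of_nonneg (by positivity)]
  intro i
  rw [mulVec, dotProduct]
  calc ‖∑ j, A i j * x j‖ ≤ ∑ j, ‖A i j * x j‖ := norm_sum_le _ _
    _ ≤ ∑ _j : Fin N, ‖pt A‖ * ‖x‖ := by
        apply Finset.sum_le_sum
        intro j _
        rw [norm_mul]
        exact mul_le_mul (norm_entry_le A i j) (norm_le_pi_norm x j) (norm_nonneg _)
          (norm_nonneg _)
    _ = N * ‖pt A‖ * ‖x‖ := by simp; ring

theorem norm_pt_mul_le (A B : Matrix (Fin N) (Fin N) ℂ) :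
    ‖pt (A * B)‖ ≤ N * ‖pt A‖ * ‖pt B‖ := by
  rw [pi_norm_le_iff_of_nonneg (by positivity)]
  intro i
  rw [pi_norm_le_iff_of_nonneg (by positivity)]
  intro j
  show ‖(A * B) i j‖ ≤ _
  rw [Matrix.mul_apply]
  calc ‖∑ k, A i k * B k j‖ ≤ ∑ k, ‖A i k * B k j‖ := norm_sum_le _ _
    _ ≤ ∑ _k : Fin N, ‖pt A‖ * ‖pt B‖ := by
        apply Finset.sum_le_sum
        intro k _
        rw [norm_mul]
        exact mul_le_mul (norm_entry_le A i k) (norm_entry_le B k j) (norm_nonneg _)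
          (norm_nonneg _)
    _ = N * ‖pt A‖ * ‖pt B‖ := by simp; ring

theorem norm_pt_le_sum (A : Matrix (Fin N) (Fin N) ℂ) :
    ‖pt A‖ ≤ ∑ j, ‖A *ᵥ Pi.single j 1‖ := by
  have h0 : 0 ≤ ∑ j, ‖A *ᵥ Pi.single j (1 : ℂ)‖ := Finset.sum_nonneg fun _ _ => norm_nonneg _
  rw [pi_norm_le_iff_of_nonneg h0]
  intro i
  rw [pi_norm_le_iff_of_nonneg h0]
  intro j
  have h1 : pt A i j = (A *ᵥ Pi.single j (1 : ℂ)) i := by simp [pt]
  rw [h1]
  exact (norm_le_pi_norm _ i).trans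
    (Finset.single_le_sum (f := fun j => ‖A *ᵥ Pi.single j (1 : ℂ)‖)
      (fun _ _ => norm_nonneg _) (Finset.mem_univ j))

/-- Matrices forming an `sl₂`-triple. -/
structure MTriple (E H F : Matrix (Fin N) (Fin N) ℂ) : Prop where
  hE : H * E - E * H = (2 : ℂ) • E
  hF : H * F - F * H = -((2 : ℂ) • F)
  hEF : E * F - F * E = H

theorem MTriple.swap {E H F : Matrix (Fin N) (Fin N) ℂ} (h : MTriple E H F) :
    MTriple F (-H) E where
  hE := by
    have := h.hF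
    calc -H * F - F * -H = -(H * F - F * H) := by simp only [neg_mul, mul_neg]; abel
      _ = (2 : ℂ) • F := by rw [this, neg_neg]
  hF := by
    have := h.hE
    calc -H * E - E * -H = -(H * E - E * H) := by simp only [neg_mul, mul_neg]; abel
      _ = -((2 : ℂ) • E) := by rw [this]
  hEF := by
    have := h.hEF
    calc F * E - E * F = -(E * F - F * E) := by abel
      _ = -H := by rw [this]

theorem MTriple.triple {E H F : Matrix (Fin N) (Fin N) ℂ} (h : MTriple E H F) :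
    Triple (V := Fin N → ℂ) (Matrix.toLinAlgEquiv' E) (Matrix.toLinAlgEquiv' H)
      (Matrix.toLinAlgEquiv' F) where
  hE := by rw [← map_mul, ← map_mul, ← map_sub, h.hE, map_smul]
  hF := by rw [← map_mul, ← map_mul, ← map_sub, h.hF, map_neg, map_smul]
  hEF := by rw [← map_mul, ← map_mul, ← map_sub, h.hEF]

theorem SL_mul_inv (g : SL N) :
    (g : Matrix (Fin N) (Fin N) ℂ) * ((g⁻¹ : SL N) : Matrix (Fin N) (Fin N) ℂ) = 1 := by
  rw [← Matrix.SpecialLinearGroup.coe_mul, mul_inv_cancel, Matrix.SpecialLinearGroup.coe_one]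

theorem SL_inv_mul (g : SL N) :
    ((g⁻¹ : SL N) : Matrix (Fin N) (Fin N) ℂ) * (g : Matrix (Fin N) (Fin N) ℂ) = 1 := by
  rw [← Matrix.SpecialLinearGroup.coe_mul, inv_mul_cancel, Matrix.SpecialLinearGroup.coe_one]

/-- Conjugation of a matrix by an element of `SL_N`. -/
def conj (g : SL N) (X : Matrix (Fin N) (Fin N) ℂ) : Matrix (Fin N) (Fin N) ℂ :=
  (g : Matrix (Fin N) (Fin N) ℂ) * X * ((g⁻¹ : SL N) : Matrix (Fin N) (Fin N) ℂ)

theorem conj_mul (g : SL N) (X Y : Matrix (Fin N) (Fin N) ℂ) :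
    conj g (X * Y) = conj g X * conj g Y := by
  unfold conj
  calc (g : Matrix (Fin N) (Fin N) ℂ) * (X * Y) * ((g⁻¹ : SL N) : Matrix (Fin N) (Fin N) ℂ)
      = (g : Matrix (Fin N) (Fin N) ℂ) * X * 1 * Y *
        ((g⁻¹ : SL N) : Matrix (Fin N) (Fin N) ℂ) := by simp only [mul_one, mul_assoc]
    _ = _ := by rw [← SL_inv_mul g]; simp only [mul_assoc]

theorem conj_add (g : SL N) (X Y : Matrix (Fin N) (Fin N) ℂ) :
    conj g (X + Y) = conj g X + conj g Y := by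
  unfold conj; rw [mul_add, add_mul]

theorem conj_sub (g : SL N) (X Y : Matrix (Fin N) (Fin N) ℂ) :
    conj g (X - Y) = conj g X - conj g Y := by
  unfold conj; rw [mul_sub, sub_mul]

theorem conj_smul (g : SL N) (c : ℂ) (X : Matrix (Fin N) (Fin N) ℂ) :
    conj g (c • X) = c • conj g X := by
  unfold conj; rw [Matrix.mul_smul, Matrix.smul_mul]

theorem conj_neg (g : SL N) (X : Matrix (Fin N) (Fin N) ℂ) : conj g (-X) = -conj g X := by
  unfold conj; rw [mul_neg, neg_mul]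

theorem conj_mul_self (g : SL N) (X : Matrix (Fin N) (Fin N) ℂ) :
    conj g X * (g : Matrix (Fin N) (Fin N) ℂ) = (g : Matrix (Fin N) (Fin N) ℂ) * X := by
  unfold conj; rw [mul_assoc, SL_inv_mul, mul_one]

theorem conj_mulVec_pow (g : SL N) (X : Matrix (Fin N) (Fin N) ℂ) (i : ℕ) (x : Fin N → ℂ) :
    (g : Matrix (Fin N) (Fin N) ℂ) *ᵥ ((Matrix.toLinAlgEquiv' X ^ i) x) =
      (Matrix.toLinAlgEquiv' (conj g X) ^ i) ((g : Matrix (Fin N) (Fin N) ℂ) *ᵥ x) := by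
  induction i with
  | zero => simp
  | succ i ih =>
    rw [pow_succ', pow_succ', Module.End.mul_apply, Module.End.mul_apply, ← ih]
    show (g : Matrix (Fin N) (Fin N) ℂ) *ᵥ (X *ᵥ _) = conj g X *ᵥ ((g : Matrix (Fin N) (Fin N) ℂ) *ᵥ _)
    rw [Matrix.mulVec_mulVec, Matrix.mulVec_mulVec, conj_mul_self]

theorem norm_pow_mulVec_le (A : Matrix (Fin N) (Fin N) ℂ) (i : ℕ) (x : Fin N → ℂ) :
    ‖(Matrix.toLinAlgEquiv' A ^ i) x‖ ≤ (N * ‖pt A‖) ^ i * ‖x‖ := by
  induction i with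
  | zero => simp
  | succ i ih =>
    rw [pow_succ', Module.End.mul_apply]
    show ‖A *ᵥ _‖ ≤ _
    refine (norm_mulVec_le A _).trans ?_
    calc N * ‖pt A‖ * ‖(Matrix.toLinAlgEquiv' A ^ i) x‖
        ≤ N * ‖pt A‖ * ((N * ‖pt A‖) ^ i * ‖x‖) :=
          mul_le_mul_of_nonneg_left ih (by positivity)
      _ = (N * ‖pt A‖) ^ (i + 1) * ‖x‖ := by ring

/-- An element is bounded in terms of `g F g⁻¹` and of its restriction to `ker E`. -/
theorem MTriple.exists_bound {E H F : Matrix (Fin N) (Fin N) ℂ} (h : MTriple E H F)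
    (P : Matrix (Fin N) (Fin N) ℂ) (hP : ∀ x, E *ᵥ x = 0 → ∃ u, P *ᵥ u = x) (R : ℝ) :
    ∃ C, ∀ g : SL N, ‖pt (conj g F)‖ ≤ R →
      ‖pt ((g : Matrix (Fin N) (Fin N) ℂ) * P)‖ ≤ R → ‖pt (g : Matrix (Fin N) (Fin N) ℂ)‖ ≤ C := by
  let T : Submodule ℂ (Fin N → ℂ) :=
    { carrier := {v | ∃ C, ∀ g : SL N, ‖pt (conj g F)‖ ≤ R →
        ‖pt ((g : Matrix (Fin N) (Fin N) ℂ) * P)‖ ≤ R → ‖(g : Matrix (Fin N) (Fin N) ℂ) *ᵥ v‖ ≤ C}
      add_mem' := by
        rintro v w ⟨C1, h1⟩ ⟨C2, h2⟩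
        refine ⟨C1 + C2, fun g hg1 hg2 => ?_⟩
        rw [Matrix.mulVec_add]
        exact (norm_add_le _ _).trans (add_le_add (h1 g hg1 hg2) (h2 g hg1 hg2))
      zero_mem' := ⟨0, fun g _ _ => by simp⟩
      smul_mem' := by
        rintro c v ⟨C, h1⟩
        refine ⟨‖c‖ * C, fun g hg1 hg2 => ?_⟩
        rw [Matrix.mulVec_smul, norm_smul]
        exact mul_le_mul_of_nonneg_left (h1 g hg1 hg2) (norm_nonneg _) }
  have hT : T = ⊤ := by
    apply h.triple.eq_top_of_forall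
    intro i x hx
    obtain ⟨u, hu⟩ := hP x hx
    refine ⟨(N * |R|) ^ i * (N * |R| * ‖u‖), ?_⟩
    intro g hg1 hg2
    rw [conj_mulVec_pow]
    refine (norm_pow_mulVec_le _ _ _).trans ?_
    have h1 : ‖(g : Matrix (Fin N) (Fin N) ℂ) *ᵥ x‖ ≤ N * |R| * ‖u‖ := by
      rw [← hu, Matrix.mulVec_mulVec]
      refine (norm_mulVec_le _ _).trans ?_
      have := hg2.trans (le_abs_self R)
      gcongr
    have h2 : ‖pt (conj g F)‖ ≤ |R| := hg1.trans (le_abs_self R)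
    gcongr
  have hb : ∀ j : Fin N, ∃ C, ∀ g : SL N, ‖pt (conj g F)‖ ≤ R →
      ‖pt ((g : Matrix (Fin N) (Fin N) ℂ) * P)‖ ≤ R →
      ‖(g : Matrix (Fin N) (Fin N) ℂ) *ᵥ Pi.single j 1‖ ≤ C := by
    intro j
    have : (Pi.single j (1 : ℂ) : Fin N → ℂ) ∈ T := by rw [hT]; exact Submodule.mem_top
    exact this
  choose C hC using hb
  refine ⟨∑ j, C j, fun g hg1 hg2 => (norm_pt_le_sum _).trans ?_⟩
  exact Finset.sum_le_sum fun j _ => hC j g hg1 hg2

theorem MTriple.conj_exp {E H F : Matrix (Fin N) (Fin N) ℂ} (h : MTriple E H F) (s : ℂ) :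
    NormedSpace.exp (s • E) * F * NormedSpace.exp (-(s • E)) = F + s • H - (s ^ 2) • E := by
  have h1 : E * H - H * E = -((2 : ℂ) • E) := by rw [← h.hE]; abel
  have := exp_conj_eq E F H (-((2 : ℂ) • E)) h.hEF h1 (by simp) s
  rw [this, smul_neg, smul_smul, sub_eq_add_neg]
  congr 3
  ring

theorem MTriple.conj_exp' {E H F : Matrix (Fin N) (Fin N) ℂ} (h : MTriple E H F) (s : ℂ) :
    NormedSpace.exp (s • F) * E * NormedSpace.exp (-(s • F)) = E - s • H - (s ^ 2) • F := by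
  rw [h.swap.conj_exp s, smul_neg, sub_eq_add_neg E]

/-- The escape estimate. -/
theorem MTriple.exists_escape {E H F : Matrix (Fin N) (Fin N) ℂ} (h : MTriple E H F)
    (P' : Matrix (Fin N) (Fin N) ℂ) (hP' : ∀ x, F *ᵥ x = 0 → ∃ u, P' *ᵥ u = x) (M : ℝ) :
    ∃ C, ∀ g : SL N, ‖pt (conj g F)‖ ≤ M → ‖pt (conj g (F + H - E))‖ ≤ M →
      ‖pt ((g : Matrix (Fin N) (Fin N) ℂ) * P')‖ ≤ M →
      ‖pt (conj g E)‖ ≤ C ∧ ‖pt (g : Matrix (Fin N) (Fin N) ℂ)‖ ≤ C := by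
  set R : ℝ := 4 * |M| + 2 * (N * (2 * |M|) * |M|) with hR
  have hMR : |M| ≤ R := by
    have h1 : 0 ≤ |M| := abs_nonneg M
    have h2 : 0 ≤ 2 * (N * (2 * |M|) * |M|) := by positivity
    linarith
  obtain ⟨C, hC⟩ := h.swap.exists_bound P' hP' R
  refine ⟨max R C, ?_⟩
  intro g h1 h2 h3
  have h1' := h1.trans (le_abs_self M)
  have h2' := h2.trans (le_abs_self M)
  have h3' := h3.trans (le_abs_self M)
  set a := conj g F with ha
  set b := conj g (H - E) with hb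
  have hb1 : b = conj g (F + H - E) - a := by
    rw [hb, ha, ← conj_sub]; congr 1; abel
  have hbn : ‖pt b‖ ≤ 2 * |M| := by
    rw [hb1, pt_sub]
    exact (norm_sub_le _ _).trans (by linarith)
  have hcomm : conj g H = -((2 : ℂ) • a) - (b * a - a * b) := by
    rw [ha, hb, ← conj_mul, ← conj_mul, ← conj_sub, ← conj_smul, ← conj_neg, ← conj_sub]
    congr 1
    have e1 : (H - E) * F - F * (H - E) = (H * F - F * H) - (E * F - F * E) := by
      noncomm_ring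
    rw [e1, h.hF, h.hEF]
    abel
  have hHn : ‖pt (conj g H)‖ ≤ 2 * |M| + 2 * (N * (2 * |M|) * |M|) := by
    rw [hcomm, pt_sub, pt_neg, pt_smul, pt_sub]
    have e1 : ‖pt (b * a)‖ ≤ N * (2 * |M|) * |M| := by
      refine (norm_pt_mul_le _ _).trans ?_
      gcongr
    have e2 : ‖pt (a * b)‖ ≤ N * (2 * |M|) * |M| := by
      refine (norm_pt_mul_le _ _).trans ?_
      calc N * ‖pt a‖ * ‖pt b‖ ≤ N * |M| * (2 * |M|) := by gcongr
        _ = N * (2 * |M|) * |M| := by ring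
    have e3 : ‖(2 : ℂ) • pt a‖ ≤ 2 * |M| := by
      rw [norm_smul]
      have : ‖(2 : ℂ)‖ = 2 := by simp
      rw [this]
      linarith
    calc ‖-((2 : ℂ) • pt a) - (pt (b * a) - pt (a * b))‖
        ≤ ‖(2 : ℂ) • pt a‖ + (‖pt (b * a)‖ + ‖pt (a * b)‖) := by
          refine (norm_sub_le _ _).trans ?_
          rw [norm_neg]
          exact add_le_add le_rfl (norm_sub_le _ _)
      _ ≤ _ := by linarith
  have hEn : ‖pt (conj g E)‖ ≤ R := by
    have e1 : conj g E = conj g H - b := by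
      rw [hb, ← conj_sub]; congr 1; abel
    rw [e1, pt_sub]
    refine (norm_sub_le _ _).trans ?_
    rw [hR]
    linarith
  refine ⟨hEn.trans (le_max_left _ _), (hC g hEn ?_).trans (le_max_right _ _)⟩
  exact h3'.trans hMR

/-- A matrix with range the kernel of a given matrix. -/
theorem exists_kernel_matrix (E : Matrix (Fin N) (Fin N) ℂ) :
    ∃ P : Matrix (Fin N) (Fin N) ℂ, E * P = 0 ∧ ∀ x, E *ᵥ x = 0 → P *ᵥ x = x := by
  obtain ⟨p, hp⟩ := Submodule.exists_isCompl (LinearMap.ker (Matrix.toLin' E))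
  let π := (LinearMap.ker (Matrix.toLin' E)).subtype ∘ₗ Submodule.projectionOnto _ _ hp
  refine ⟨LinearMap.toMatrix' π, ?_, ?_⟩
  · apply (Matrix.toLin').injective
    rw [Matrix.toLin'_mul, Matrix.toLin'_toMatrix', map_zero]
    ext1 i
    ext x
    have h1 : π (Pi.single i 1) ∈ LinearMap.ker (Matrix.toLin' E) := by
      simp [π]
    simp only [LinearMap.comp_apply, LinearMap.single_apply]
    have h2 : (Matrix.toLin' E) (π (Pi.single i 1)) = 0 := h1
    rw [h2]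
    rfl
  · intro x hx
    have h1 : x ∈ LinearMap.ker (Matrix.toLin' E) := by
      simpa using hx
    rw [← Matrix.toLin'_apply, Matrix.toLin'_toMatrix']
    have h2 := Submodule.projectionOnto_apply_left hp ⟨x, h1⟩
    show ((Submodule.projectionOnto _ _ hp x : LinearMap.ker (Matrix.toLin' E)) : Fin N → ℂ) = x
    rw [h2]

end Pool.Agent.Work.MP_970e75_an.Lin
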