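import Pool.Agent.Work.MP_970e75_an.TwoFlows
import Pool.Agent.Work.MP_970e75_an.Sl2Bounds

/-!
The flow data attached to an `sl₂`-triple.
-/

namespace Pool.Agent.Work.MP_970e75_an.Lin

open Filter Topology Set Matrix MeasureTheory NormedSpace

variable {N : ℕ} {G : Subgroup (SL N)}

theorem ext_mat {g h : G} (H : (g.1 : Matrix (Fin N) (Fin N) ℂ) = h.1) : g = h :=
  Subtype.ext (Subtype.ext H)

theorem coe_mul_mat (g h : G) :
    ((g * h : G).1 : Matrix (Fin N) (Fin N) ℂ) = (g.1 : Matrix (Fin N) (Fin N) ℂ) * h.1 := rfl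

/-- The one-parameter group of an element of the Lie algebra. -/
noncomputable def expG (X : Matrix (Fin N) (Fin N) ℂ) (hX : X ∈ lieAlg G) (s : ℂ) : G :=
  ⟨(hX s).choose, (hX s).choose_spec.1⟩

theorem expG_coe (X : Matrix (Fin N) (Fin N) ℂ) (hX : X ∈ lieAlg G) (s : ℂ) :
    ((expG X hX s).1 : Matrix (Fin N) (Fin N) ℂ) = exp (s • X) := (hX s).choose_spec.2

theorem expG_zero (X : Matrix (Fin N) (Fin N) ℂ) (hX : X ∈ lieAlg G) : expG X hX 0 = 1 := by
  apply ext_mat
  rw [expG_coe, zero_smul, exp_zero]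
  rfl

theorem expG_add (X : Matrix (Fin N) (Fin N) ℂ) (hX : X ∈ lieAlg G) (s t : ℂ) :
    expG X hX (s + t) = expG X hX s * expG X hX t := by
  apply ext_mat
  rw [coe_mul_mat, expG_coe, expG_coe, expG_coe, exp_smul_add]

theorem expG_neg (X : Matrix (Fin N) (Fin N) ℂ) (hX : X ∈ lieAlg G) (s : ℂ) :
    (expG X hX s)⁻¹ = expG X hX (-s) := by
  rw [inv_eq_iff_mul_eq_one, ← expG_add, add_neg_cancel, expG_zero]

theorem expG_inv_coe (X : Matrix (Fin N) (Fin N) ℂ) (hX : X ∈ lieAlg G) (s : ℂ) :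
    (((expG X hX s).1⁻¹ : SL N) : Matrix (Fin N) (Fin N) ℂ) = exp (-(s • X)) := by
  have h1 : ((expG X hX s)⁻¹ : G).1 = ((expG X hX s).1⁻¹ : SL N) := rfl
  rw [← h1, expG_neg, expG_coe, neg_smul]

theorem continuous_mat : Continuous fun g : G => (g.1 : Matrix (Fin N) (Fin N) ℂ) :=
  continuous_subtype_val.comp continuous_subtype_val

theorem continuous_expG (X : Matrix (Fin N) (Fin N) ℂ) (hX : X ∈ lieAlg G) :
    Continuous (expG X hX) := by
  apply Continuous.subtype_mk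
  apply Continuous.subtype_mk
  have : Continuous fun s : ℂ => (exp (s • X) : Matrix (Fin N) (Fin N) ℂ) := by
    apply continuous_matrix
    intro i j
    exact (differentiable_exp_entry X i j).continuous
  convert this using 2 with s
  exact expG_coe X hX s

theorem continuous_pt : Continuous (pt : Matrix (Fin N) (Fin N) ℂ → Fin N → Fin N → ℂ) := by
  apply continuous_pi
  intro i
  apply continuous_pi
  intro j
  exact continuous_id.matrix_elem i j

theorem continuous_conj (X : Matrix (Fin N) (Fin N) ℂ) :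
    Continuous fun g : G => pt (conj g.1 X) := by
  apply continuous_pt.comp
  have h1 : Continuous fun g : G => (((g⁻¹ : G).1 : SL N) : Matrix (Fin N) (Fin N) ℂ) :=
    continuous_mat.comp continuous_inv
  exact (continuous_mat.matrix_mul continuous_const).matrix_mul h1

theorem continuous_mulP (P : Matrix (Fin N) (Fin N) ℂ) :
    Continuous fun g : G => pt ((g.1 : Matrix (Fin N) (Fin N) ℂ) * P) :=
  continuous_pt.comp (continuous_mat.matrix_mul continuous_const)

theorem conj_mul_expG (X Y : Matrix (Fin N) (Fin N) ℂ) (hX : X ∈ lieAlg G) (s : ℂ) (g : G) :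
    conj (g * expG X hX s).1 Y = conj g.1 (exp (s • X) * Y * exp (-(s • X))) := by
  unfold conj
  have h1 : ((g * expG X hX s).1 : Matrix (Fin N) (Fin N) ℂ) =
      (g.1 : Matrix (Fin N) (Fin N) ℂ) * exp (s • X) := by
    rw [coe_mul_mat, expG_coe]
  have h2 : ((((g * expG X hX s).1)⁻¹ : SL N) : Matrix (Fin N) (Fin N) ℂ) =
      exp (-(s • X)) * ((g.1⁻¹ : SL N) : Matrix (Fin N) (Fin N) ℂ) := by
    have : ((g * expG X hX s).1)⁻¹ = (expG X hX s).1⁻¹ * g.1⁻¹ := by
      rw [Subgroup.coe_mul, _root_.mul_inv_rev]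
    rw [this, Matrix.SpecialLinearGroup.coe_mul, expG_inv_coe]
  rw [h1, h2]
  simp only [mul_assoc]

theorem mul_expG_mul (X P : Matrix (Fin N) (Fin N) ℂ) (hX : X ∈ lieAlg G) (s : ℂ) (g : G)
    (h : X * P = 0) :
    ((g * expG X hX s).1 : Matrix (Fin N) (Fin N) ℂ) * P =
      (g.1 : Matrix (Fin N) (Fin N) ℂ) * P := by
  rw [coe_mul_mat, expG_coe, mul_assoc, exp_mul_of_mul_eq_zero X P h]

/-- The invariant map `g ↦ (g E g⁻¹, g P)`. -/
def qmap (E P : Matrix (Fin N) (Fin N) ℂ) (g : G) :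
    (Fin N → Fin N → ℂ) × (Fin N → Fin N → ℂ) :=
  (pt (conj g.1 E), pt ((g.1 : Matrix (Fin N) (Fin N) ℂ) * P))

theorem continuous_qmap (E P : Matrix (Fin N) (Fin N) ℂ) :
    Continuous (qmap E P : G → _) :=
  (continuous_conj E).prodMk (continuous_mulP P)

theorem qmap_mul_expG (E P : Matrix (Fin N) (Fin N) ℂ) (hE : E ∈ lieAlg G) (hEP : E * P = 0)
    (s : ℂ) (g : G) : qmap E P (g * expG E hE s) = qmap E P g := by
  unfold qmap
  rw [conj_mul_expG, mul_expG_mul E P hE s g hEP]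
  have := exp_conj_eq E E 0 0 (by simp) (by simp) (by simp) s
  rw [this]
  simp

/-- The escape estimate for `G`. -/
theorem exists_escape_G {E H F : Matrix (Fin N) (Fin N) ℂ} (h : MTriple E H F)
    (hE : E ∈ lieAlg G) (P P' : Matrix (Fin N) (Fin N) ℂ)
    (hP' : ∀ x, F *ᵥ x = 0 → P' *ᵥ x = x) (M : ℝ) :
    ∃ (R : ℝ) (s : ℂ), ∀ g : G, ‖qmap F P' g‖ ≤ M → ‖qmap F P' (g * expG E hE s)‖ ≤ M →
      ‖qmap E P g‖ < R := by
  obtain ⟨C, hC⟩ := h.exists_escape P' (fun x hx => ⟨x, hP' x hx⟩) M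
  refine ⟨max C (N * C * ‖pt P‖) + 1, 1, ?_⟩
  intro g h1 h2
  obtain ⟨a1, a2⟩ := norm_prod_le_iff.mp h1
  obtain ⟨b1, b2⟩ := norm_prod_le_iff.mp h2
  simp only [qmap] at a1 a2 b1 b2
  rw [conj_mul_expG, h.conj_exp] at b1
  have e1 : F + (1 : ℂ) • H - (1 : ℂ) ^ 2 • E = F + H - E := by simp
  rw [e1] at b1
  obtain ⟨c1, c2⟩ := hC g.1 a1 b1 a2
  have hC0 : 0 ≤ C := (norm_nonneg _).trans c1
  have : ‖qmap E P g‖ ≤ max C (N * C * ‖pt P‖) := by
    apply norm_prod_le_iff.mpr
    refine ⟨c1.trans (le_max_left _ _), ?_⟩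
    refine (norm_pt_mul_le _ _).trans (le_trans ?_ (le_max_right _ _))
    gcongr
  linarith

/-- The flow data attached to an `sl₂`-triple. -/
noncomputable def sl2Flow (hG : IsClosed (G : Set (SL N))) {E H F : Matrix (Fin N) (Fin N) ℂ}
    (h : MTriple E H F) (hE : E ∈ lieAlg G) (P P' : Matrix (Fin N) (Fin N) ℂ)
    (hEP : E * P = 0) (hP : ∀ x, E *ᵥ x = 0 → P *ᵥ x = x)
    (hP' : ∀ x, F *ᵥ x = 0 → P' *ᵥ x = x) [MeasurableSpace G] [BorelSpace G] (μ : Measure G)
    [μ.IsMulRightInvariant] :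
    FlowData G μ ((Fin N → Fin N → ℂ) × (Fin N → Fin N → ℂ)) where
  q := qmap E P
  p g := ‖qmap F P' g‖
  θ s g := g * expG E hE s
  q_cont := continuous_qmap E P
  p_cont := (continuous_qmap F P').norm
  θ_cont := continuous_snd.mul ((continuous_expG E hE).comp continuous_fst)
  θ_zero g := by rw [expG_zero, mul_one]
  θ_add s t g := by rw [add_comm, expG_add, mul_assoc]
  θ_meas s := measurePreserving_mul_right μ _
  q_inv s g := qmap_mul_expG E P hE hEP s g
  compact R := by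
    obtain ⟨C, hC⟩ := h.exists_bound P (fun x hx => ⟨x, hP x hx⟩) R
    refine (isCompact_bounded hG C).of_isClosed_subset ?_ ?_
    · exact (isClosed_le (continuous_qmap E P).norm continuous_const).inter
        (isClosed_le (continuous_qmap F P').norm continuous_const)
    · rintro g ⟨h1, h2⟩
      obtain ⟨-, a2⟩ := norm_prod_le_iff.mp h1
      obtain ⟨b1, -⟩ := norm_prod_le_iff.mp h2
      exact hC g.1 b1 a2
  escape M := exists_escape_G h hE P P' hP' M

end Pool.Agent.Work.MP_970e75_an.Lin
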