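import Pool.Agent.Work.MP_970e75_an.Sl2Flow

/-!
Holomorphy of the shears `g ↦ g exp (f(q(g)) X)`, and escape of the orbits.
-/

namespace Pool.Agent.Work.MP_970e75_an.Lin

open Filter Topology Set Matrix MeasureTheory NormedSpace

variable {N : ℕ} {G : Subgroup (SL N)}

/-- The entries of the adjugate are entire functions. -/
theorem differentiable_adjugate (i j : Fin N) :
    Differentiable ℂ fun x : Fin N → Fin N → ℂ => (Matrix.adjugate (Matrix.of x)) i j := by
  have h1 : (fun x : Fin N → Fin N → ℂ => (Matrix.adjugate (Matrix.of x)) i j) =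
      fun x => ∑ σ : Equiv.Perm (Fin N), ((Equiv.Perm.sign σ : ℤ) : ℂ) *
        ∏ k, ((Matrix.of x).updateRow j (Pi.single i 1)) (σ k) k := by
    funext x
    rw [Matrix.adjugate_apply, Matrix.det_apply']
  rw [h1]
  apply Differentiable.fun_sum
  intro σ _
  apply Differentiable.const_mul
  have hprod : ContDiff ℂ 1 fun x : Fin N → Fin N → ℂ =>
      ∏ k, ((Matrix.of x).updateRow j (Pi.single i 1)) (σ k) k := ?_
  · exact hprod.differentiable (by norm_num)
  apply contDiff_prod
  intro k _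
  by_cases h : σ k = j
  · have : (fun x : Fin N → Fin N → ℂ => ((Matrix.of x).updateRow j (Pi.single i 1)) (σ k) k) =
        fun _ => (Pi.single i (1 : ℂ) : Fin N → ℂ) k := by
      funext x
      rw [Matrix.updateRow_apply, if_pos h]
    rw [this]
    exact contDiff_const
  · have : (fun x : Fin N → Fin N → ℂ => ((Matrix.of x).updateRow j (Pi.single i 1)) (σ k) k) =
        fun x => x (σ k) k := by
      funext x
      rw [Matrix.updateRow_apply, if_neg h]
      rfl
    rw [this]
    fun_prop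

/-- The extension of `qmap` to the ambient space. -/
noncomputable def qext (E P : Matrix (Fin N) (Fin N) ℂ) (x : Fin N → Fin N → ℂ) :
    (Fin N → Fin N → ℂ) × (Fin N → Fin N → ℂ) :=
  (fun i j => ∑ l, (∑ k, x i k * E k l) * (Matrix.adjugate (Matrix.of x)) l j,
    fun i j => ∑ k, x i k * P k j)

theorem differentiable_qext (E P : Matrix (Fin N) (Fin N) ℂ) : Differentiable ℂ (qext E P) := by
  apply Differentiable.prodMk
  · rw [differentiable_pi]
    intro i
    rw [differentiable_pi]
    intro j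
    apply Differentiable.fun_sum
    intro l _
    apply Differentiable.mul
    · fun_prop
    · exact differentiable_adjugate l j
  · fun_prop

theorem qext_entries (E P : Matrix (Fin N) (Fin N) ℂ) (g : G) :
    qext E P (entries g.1) = qmap E P g := by
  unfold qext qmap
  apply Prod.ext
  · funext i j
    have h1 : (conj g.1 E) i j = ∑ l, (∑ k, entries g.1 i k * E k l) *
        (Matrix.adjugate (Matrix.of (entries g.1))) l j := by
      unfold conj
      rw [Matrix.SpecialLinearGroup.coe_inv, Matrix.mul_apply]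
      apply Finset.sum_congr rfl
      intro l _
      rw [Matrix.mul_apply]
      rfl
    exact h1.symm
  · funext i j
    rfl

/-- The map `g ↦ g exp (f(q(g)) X)` is holomorphic. -/
theorem isHolomorphic_shear (E P X : Matrix (Fin N) (Fin N) ℂ) (hX : X ∈ lieAlg G)
    (f : (Fin N → Fin N → ℂ) × (Fin N → Fin N → ℂ) → ℂ) (hf : Differentiable ℂ f) :
    IsHolomorphic G (fun g => g * expG X hX (f (qmap E P g))) := by
  intro g
  refine ⟨univ, isOpen_univ, mem_univ _,
    fun x i j => ∑ k, x i k * (exp (f (qext E P x) • X) : Matrix (Fin N) (Fin N) ℂ) k j, ?_, ?_⟩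
  · apply Differentiable.differentiableOn
    rw [differentiable_pi]
    intro i
    rw [differentiable_pi]
    intro j
    apply Differentiable.fun_sum
    intro k _
    apply Differentiable.mul
    · fun_prop
    · exact (differentiable_exp_entry X k j).comp (hf.comp (differentiable_qext E P))
  · intro h _
    funext i j
    show ((h * expG X hX (f (qmap E P h))).1 : Matrix (Fin N) (Fin N) ℂ) i j =
      ∑ k, entries h.1 i k * (exp (f (qext E P (entries h.1)) • X) : Matrix (Fin N) (Fin N) ℂ) k j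
    rw [coe_mul_mat, expG_coe, Matrix.mul_apply, qext_entries]
    rfl

/-- A nonzero nilpotent matrix has a vector `v` with `F v ≠ 0` and `F² v = 0`. -/
theorem exists_vec (F : Matrix (Fin N) (Fin N) ℂ) (hF0 : F ≠ 0) (hF : ∃ k, F ^ k = 0) :
    ∃ v : Fin N → ℂ, F *ᵥ v ≠ 0 ∧ F *ᵥ (F *ᵥ v) = 0 := by
  classical
  set k := Nat.find hF with hk
  have hk0 : F ^ k = 0 := Nat.find_spec hF
  have hk1 : k ≠ 0 := by
    intro h0
    rw [h0, pow_zero] at hk0
    apply hF0
    rw [← mul_one F, hk0, mul_zero]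
  have hk2 : k ≠ 1 := by
    intro h1
    rw [h1, pow_one] at hk0
    exact hF0 hk0
  have hlt : F ^ (k - 1) ≠ 0 := Nat.find_min hF (by omega)
  have hex : ∃ u, (F ^ (k - 1)) *ᵥ u ≠ 0 := by
    by_contra hcon
    push Not at hcon
    apply hlt
    ext i j
    have := congrFun (hcon (Pi.single j 1)) i
    simpa using this
  obtain ⟨u, hu⟩ := hex
  refine ⟨(F ^ (k - 2)) *ᵥ u, ?_, ?_⟩
  · rw [Matrix.mulVec_mulVec, ← pow_succ']
    have : k - 2 + 1 = k - 1 := by omega
    rw [this]
    exact hu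
  · rw [Matrix.mulVec_mulVec, Matrix.mulVec_mulVec, ← pow_two, ← pow_add]
    have : 2 + (k - 2) = k := by omega
    rw [this, hk0, Matrix.zero_mulVec]

/-- The orbits of `g ↦ g exp (sF)` leave compact sets. -/
theorem eventually_notMem (F : Matrix (Fin N) (Fin N) ℂ) (hF0 : F ≠ 0) (hFn : ∃ k, F ^ k = 0)
    (hF : F ∈ lieAlg G) (g : G) (K : Set G) (hK : IsCompact K) :
    ∀ᶠ s in Bornology.cobounded ℂ, g * expG F hF s ∉ K := by
  obtain ⟨v, hv1, hv2⟩ := exists_vec F hF0 hFn
  have hcont : Continuous fun g : G => pt (g.1 : Matrix (Fin N) (Fin N) ℂ) :=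
    continuous_pt.comp continuous_mat
  obtain ⟨C, hC⟩ := hK.exists_bound_of_continuousOn hcont.continuousOn
  have hvn : 0 < ‖F *ᵥ v‖ := norm_pos_iff.mpr hv1
  set B : ℝ := N * (N * ‖pt ((g.1⁻¹ : SL N) : Matrix (Fin N) (Fin N) ℂ)‖ * |C|) * ‖v‖ + ‖v‖ with hB
  have hev : ∀ᶠ s in Bornology.cobounded ℂ, B / ‖F *ᵥ v‖ < ‖s‖ :=
    tendsto_norm_cobounded_atTop.eventually_gt_atTop _
  filter_upwards [hev] with s hs hmem
  have h1 := hC _ hmem
  have h2 : (exp (s • F) : Matrix (Fin N) (Fin N) ℂ) =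
      ((g.1⁻¹ : SL N) : Matrix (Fin N) (Fin N) ℂ) * (g * expG F hF s).1 := by
    rw [coe_mul_mat, expG_coe, ← mul_assoc, SL_inv_mul, one_mul]
  have h3 : ‖pt (exp (s • F) : Matrix (Fin N) (Fin N) ℂ)‖ ≤
      N * ‖pt ((g.1⁻¹ : SL N) : Matrix (Fin N) (Fin N) ℂ)‖ * |C| := by
    rw [h2]
    refine (norm_pt_mul_le _ _).trans ?_
    have := h1.trans (le_abs_self C)
    gcongr
  have h4 : exp (s • F) *ᵥ v = v + s • (F *ᵥ v) := by
    have e1 := exp_mul_of_sq F (Matrix.of fun i (_ : Fin N) => v i) ?_ s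
    · have hcol : ∀ (A : Matrix (Fin N) (Fin N) ℂ) (i j : Fin N),
          (A * (Matrix.of fun i (_ : Fin N) => v i)) i j = (A *ᵥ v) i := by
        intro A i j
        simp [Matrix.mul_apply, Matrix.mulVec, dotProduct]
      funext i
      have e2 := congrFun (congrFun e1 i) i
      rw [hcol, Matrix.add_apply, Matrix.smul_apply, hcol] at e2
      rw [e2]
      simp
    · have hcol : ∀ (A : Matrix (Fin N) (Fin N) ℂ) (i j : Fin N),
          (A * (Matrix.of fun i (_ : Fin N) => v i)) i j = (A *ᵥ v) i := by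
        intro A i j
        simp [Matrix.mul_apply, Matrix.mulVec, dotProduct]
      ext i j
      rw [← mul_assoc, hcol, ← Matrix.mulVec_mulVec, hv2]
      rfl
  have h5 : ‖s‖ * ‖F *ᵥ v‖ ≤ B := by
    have e1 : ‖s • (F *ᵥ v)‖ ≤ ‖exp (s • F) *ᵥ v‖ + ‖v‖ := by
      have : s • (F *ᵥ v) = exp (s • F) *ᵥ v - v := by rw [h4]; abel
      rw [this]
      exact norm_sub_le _ _
    rw [norm_smul] at e1
    have e2 : ‖exp (s • F) *ᵥ v‖ ≤
        N * (N * ‖pt ((g.1⁻¹ : SL N) : Matrix (Fin N) (Fin N) ℂ)‖ * |C|) * ‖v‖ := by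
      refine (norm_mulVec_le _ _).trans ?_
      gcongr
    linarith
  rw [div_lt_iff₀ hvn] at hs
  linarith

end Pool.Agent.Work.MP_970e75_an.Lin
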