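import Pool.Agent.Work.MP_970e75_an.Meas

/-!
Slabs separating a point from a ball and from finitely many points, and entire functions
close to the indicator function of a slab.
-/

namespace Pool.Agent.Work.MP_970e75_an

open Filter Topology Set Metric

variable {W : Type*} [NormedAddCommGroup W] [NormedSpace ℂ W]

/-- The functionals whose real part does not vanish at a given nonzero vector are dense. -/
theorem dense_re_ne (v : W) (hv : v ≠ 0) : Dense {ℓ : W →L[ℂ] ℂ | (ℓ v).re ≠ 0} := by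
  intro ℓ
  by_cases h : (ℓ v).re ≠ 0
  · exact subset_closure h
  push Not at h
  rw [Metric.mem_closure_iff]
  intro ε hε
  obtain ⟨g, hg1, hg⟩ := exists_dual_vector ℂ v (norm_ne_zero_iff.mpr hv)
  refine ⟨ℓ + ((ε / 2 : ℝ) : ℂ) • g, ?_, ?_⟩
  · simp only [mem_ofPred_eq, add_apply, smul_apply, hg, smul_eq_mul, Complex.add_re, h, zero_add]
    have : 0 < ‖v‖ := norm_pos_iff.mpr hv
    have h2 : (((ε / 2 : ℝ) : ℂ) * ((‖v‖ : ℝ) : ℂ)).re = ε / 2 * ‖v‖ := by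
      rw [← Complex.ofReal_mul, Complex.ofReal_re]
    erw [h2]
    positivity
  · rw [dist_eq_norm, sub_add_cancel_left, norm_neg, norm_smul, hg1, mul_one, Complex.norm_real,
      Real.norm_eq_abs, abs_of_pos (by positivity)]
    linarith

theorem isOpen_re_ne (v : W) : IsOpen {ℓ : W →L[ℂ] ℂ | (ℓ v).re ≠ 0} := by
  apply isOpen_ne_fun _ continuous_const
  exact Complex.continuous_re.comp (ContinuousLinearMap.apply ℂ ℂ v).continuous

/-- A slab around a point, disjoint from a ball and from finitely many other points, with faces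
avoiding prescribed countable sets. -/
theorem exists_slab (w0 : W) (a : ℝ) (ha0 : 0 < a) (ha : a < ‖w0‖) (B : Set W) (hB : B.Finite)
    (hw0 : w0 ∉ B) (Bad : (W →L[ℂ] ℂ) → Set ℝ) (hBad : ∀ ℓ, (Bad ℓ).Countable) :
    ∃ (ℓ : W →L[ℂ] ℂ) (c c' : ℝ), c < (ℓ w0).re ∧ (ℓ w0).re < c' ∧ a * ‖ℓ‖ < c ∧
      (∀ w ∈ B, (ℓ w).re < c ∨ c' < (ℓ w).re) ∧ c ∉ Bad ℓ ∧ c' ∉ Bad ℓ := by
  have hw0n : 0 < ‖w0‖ := ha0.trans ha
  -- the open set of functionals
  have hO : IsOpen {ℓ : W →L[ℂ] ℂ | a * ‖ℓ‖ < (ℓ w0).re} := by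
    apply isOpen_lt
    · exact continuous_const.mul continuous_norm
    · exact Complex.continuous_re.comp (ContinuousLinearMap.apply ℂ ℂ w0).continuous
  have hOne : {ℓ : W →L[ℂ] ℂ | a * ‖ℓ‖ < (ℓ w0).re}.Nonempty := by
    obtain ⟨g, hg1, hg⟩ := exists_dual_vector ℂ w0 hw0n.ne'
    refine ⟨g, ?_⟩
    rw [mem_ofPred_eq, hg1, hg, mul_one]
    simpa using ha
  have hdense : Dense (⋂ w ∈ B, {ℓ : W →L[ℂ] ℂ | (ℓ (w0 - w)).re ≠ 0}) := by
    apply dense_biInter_of_isOpen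
    · intro w _
      exact isOpen_re_ne _
    · exact hB.countable
    · intro w hw
      apply dense_re_ne
      rw [sub_ne_zero]
      rintro rfl
      exact hw0 hw
  obtain ⟨ℓ, hℓO, hℓ⟩ := hdense.inter_open_nonempty _ hO hOne
  have hℓO' : a * ‖ℓ‖ < (ℓ w0).re := hℓO
  have hsep : (ℓ w0).re ∉ (fun w => (ℓ w).re) '' B := by
    rintro ⟨w, hw, hEq⟩
    have := mem_iInter₂.mp hℓ w hw
    apply this
    simp only [map_sub, Complex.sub_re]
    simp only at hEq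
    linarith
  have hfin : ((fun w => (ℓ w).re) '' B).Finite := hB.image _
  obtain ⟨κ, hκ, hball⟩ := Metric.isOpen_iff.mp hfin.isClosed.isOpen_compl _ hsep
  set κ' : ℝ := min κ ((ℓ w0).re - a * ‖ℓ‖) with hκ'
  have hκ'0 : 0 < κ' := lt_min hκ (by linarith)
  have hd : Dense (Bad ℓ)ᶜ := (hBad ℓ).dense_compl ℝ
  obtain ⟨c, ⟨hc1, hc2⟩, hc3⟩ := hd.inter_open_nonempty (Ioo ((ℓ w0).re - κ') (ℓ w0).re) isOpen_Ioo
    (nonempty_Ioo.mpr (by linarith))
  obtain ⟨c', ⟨hc1', hc2'⟩, hc3'⟩ := hd.inter_open_nonempty (Ioo (ℓ w0).re ((ℓ w0).re + κ'))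
    isOpen_Ioo (nonempty_Ioo.mpr (by linarith))
  have hmin1 : κ' ≤ κ := min_le_left _ _
  have hmin2 : κ' ≤ (ℓ w0).re - a * ‖ℓ‖ := min_le_right _ _
  refine ⟨ℓ, c, c', hc2, hc1', by linarith, ?_, hc3, hc3'⟩
  intro w hw
  by_contra hcon
  push Not at hcon
  obtain ⟨h1, h2⟩ := hcon
  have h3 : (ℓ w).re ∈ ball (ℓ w0).re κ := by
    rw [mem_ball, Real.dist_eq, abs_lt]
    constructor <;> linarith
  exact hball h3 ⟨w, hw, rfl⟩

/-- An entire function close to the indicator function of a slab, off thin neighbourhoods of the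
two faces. -/
theorem exists_slabFun (ℓ : W →L[ℂ] ℂ) (c c' : ℝ) (hcc : c < c') (η ε R : ℝ) (hη : 0 < η)
    (hε : 0 < ε) :
    ∃ X : W → ℂ, Differentiable ℂ X ∧ ∀ w, ‖w‖ ≤ R →
      ((ℓ w).re ≤ c - η → ‖X w‖ ≤ ε) ∧
      (c + η ≤ (ℓ w).re → (ℓ w).re ≤ c' - η → ‖X w - 1‖ ≤ ε) ∧
      (c' + η ≤ (ℓ w).re → ‖X w‖ ≤ ε) := by
  set R' : ℝ := ‖ℓ‖ * |R| + |c| + |c'| with hR'
  obtain ⟨P, hP1, hP2⟩ := exists_cut_poly R' η (ε / 2) hη (by positivity)
  have hPd : Differentiable ℂ fun z : ℂ => P.eval z := P.differentiable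
  refine ⟨fun w => P.eval (ℓ w - c) - P.eval (ℓ w - c'), ?_, ?_⟩
  · exact (hPd.comp (ℓ.differentiable.sub_const _)).sub (hPd.comp (ℓ.differentiable.sub_const _))
  · intro w hw
    have hb : ‖ℓ w‖ ≤ ‖ℓ‖ * |R| := by
      refine (ℓ.le_opNorm w).trans ?_
      exact mul_le_mul_of_nonneg_left (hw.trans (le_abs_self R)) (norm_nonneg _)
    have hz1 : ‖ℓ w - (c : ℂ)‖ ≤ R' := by
      refine (norm_sub_le _ _).trans ?_
      rw [Complex.norm_real, Real.norm_eq_abs]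
      have := abs_nonneg c'
      linarith
    have hz2 : ‖ℓ w - (c' : ℂ)‖ ≤ R' := by
      refine (norm_sub_le _ _).trans ?_
      rw [Complex.norm_real, Real.norm_eq_abs]
      have := abs_nonneg c
      linarith
    have hre1 : (ℓ w - (c : ℂ)).re = (ℓ w).re - c := by simp
    have hre2 : (ℓ w - (c' : ℂ)).re = (ℓ w).re - c' := by simp
    refine ⟨?_, ?_, ?_⟩
    · intro h
      have h1 := hP1 _ hz1 (by rw [hre1]; linarith)
      have h2 := hP1 _ hz2 (by rw [hre2]; linarith)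
      calc ‖P.eval (ℓ w - c) - P.eval (ℓ w - c')‖
          ≤ ‖P.eval (ℓ w - (c : ℂ))‖ + ‖P.eval (ℓ w - (c' : ℂ))‖ := norm_sub_le _ _
        _ ≤ ε := by linarith
    · intro h h'
      have h1 := hP2 _ hz1 (by rw [hre1]; linarith)
      have h2 := hP1 _ hz2 (by rw [hre2]; linarith)
      calc ‖P.eval (ℓ w - c) - P.eval (ℓ w - c') - 1‖
          = ‖(P.eval (ℓ w - (c : ℂ)) - 1) - P.eval (ℓ w - (c' : ℂ))‖ := by congr 1; ring
        _ ≤ ‖P.eval (ℓ w - (c : ℂ)) - 1‖ + ‖P.eval (ℓ w - (c' : ℂ))‖ := norm_sub_le _ _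
        _ ≤ ε := by linarith
    · intro h
      have h1 := hP2 _ hz1 (by rw [hre1]; linarith)
      have h2 := hP2 _ hz2 (by rw [hre2]; linarith)
      calc ‖P.eval (ℓ w - c) - P.eval (ℓ w - c')‖
          = ‖(P.eval (ℓ w - (c : ℂ)) - 1) - (P.eval (ℓ w - (c' : ℂ)) - 1)‖ := by congr 1; ring
        _ ≤ ‖P.eval (ℓ w - (c : ℂ)) - 1‖ + ‖P.eval (ℓ w - (c' : ℂ)) - 1‖ := norm_sub_le _ _
        _ ≤ ε := by linarith

end Pool.Agent.Work.MP_970e75_an
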