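import Pool.Agent.Work.MP_970e75_an.Slab

/-!
The stage lemma: correcting a shear on a shell.
-/

namespace Pool.Agent.Work.MP_970e75_an

open Filter Topology Set Metric MeasureTheory
open scoped ENNReal

variable {G : Type*} [Group G] [TopologicalSpace G] [IsTopologicalGroup G] [MeasurableSpace G]
  [BorelSpace G] {μ : Measure G} {W : Type*} [NormedAddCommGroup W] [NormedSpace ℂ W]

omit [NormedSpace ℂ W] in
/-- A generic translation. -/
theorem exists_generic [μ.IsMulRightInvariant] [μ.IsOpenPosMeasure]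
    (F : FlowData G μ W) (D : Set G) (hD : D.Countable)
    (hsep : ∀ d ∈ D, ∀ d' ∈ D, d ≠ d' → μ {τ | F.q (τ * d) = F.q (τ * d')} = 0)
    (U : Set G) (hU : IsOpen U) (hUne : U.Nonempty) (a : ℝ) (hnull : μ {g | ‖F.q g‖ = a} = 0) :
    ∃ τ0 ∈ U, (∀ d ∈ D, ‖F.q (τ0 * d)‖ ≠ a) ∧
      (∀ d ∈ D, ∀ d' ∈ D, d ≠ d' → F.q (τ0 * d) ≠ F.q (τ0 * d')) := by
  by_contra hcon
  push Not at hcon
  have hcover : U ⊆ (⋃ d ∈ D, {τ | ‖F.q (τ * d)‖ = a}) ∪
      ⋃ d ∈ D, ⋃ d' ∈ D, {τ | d ≠ d' ∧ F.q (τ * d) = F.q (τ * d')} := by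
    intro τ hτ
    by_cases h : ∀ d ∈ D, ‖F.q (τ * d)‖ ≠ a
    · right
      obtain ⟨d, hd, d', hd', h1, h2⟩ := hcon τ hτ h
      simp only [mem_iUnion]
      exact ⟨d, hd, d', hd', h1, h2⟩
    · left
      push Not at h
      obtain ⟨d, hd, h1⟩ := h
      simp only [mem_iUnion]
      exact ⟨d, hd, h1⟩
  have hz1 : μ (⋃ d ∈ D, {τ | ‖F.q (τ * d)‖ = a}) = 0 := by
    rw [measure_biUnion_null_iff hD]
    intro d _
    have h2 := measure_preimage_mul_right μ d {g | ‖F.q g‖ = a}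
    rw [hnull] at h2
    exact h2
  have hz2 : μ (⋃ d ∈ D, ⋃ d' ∈ D, {τ | d ≠ d' ∧ F.q (τ * d) = F.q (τ * d')}) = 0 := by
    rw [measure_biUnion_null_iff hD]
    intro d hd
    rw [measure_biUnion_null_iff hD]
    intro d' hd'
    by_cases h : d = d'
    · have : {τ | d ≠ d' ∧ F.q (τ * d) = F.q (τ * d')} = ∅ := by
        ext τ; simp [h]
      rw [this, measure_empty]
    · refine measure_mono_null ?_ (hsep d hd d' hd' h)
      intro τ hτ
      exact hτ.2
  have hz := measure_mono_null hcover (measure_union_null hz1 hz2)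
  exact absurd hz (hU.measure_pos μ hUne).ne'

/-- The stage lemma. -/
theorem stage [μ.IsMulRightInvariant] [μ.IsOpenPosMeasure] [IsFiniteMeasureOnCompacts μ]
    [SFinite μ]
    (F : FlowData G μ W) (D : Set G) (hD : D.Countable)
    (hsep : ∀ d ∈ D, ∀ d' ∈ D, d ≠ d' → μ {τ | F.q (τ * d) = F.q (τ * d')} = 0)
    (U : Set G) (hU : IsOpen U) (hUne : U.Nonempty)
    (hdisj : ∀ d ∈ D, ∀ d' ∈ D, ∀ τ ∈ U, ∀ τ' ∈ U, τ * d = τ' * d' → d = d')
    (L : Set G) (hL : IsCompact L) (hUL : U ⊆ L)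
    (f : W → ℂ) (hf : Differentiable ℂ f) (a b M δ : ℝ) (s : ℂ) (ha0 : 0 < a)
    (hnull : μ {g | ‖F.q g‖ = a} = 0)
    (hesc : ∀ g, F.p g ≤ M + 2 → F.p (F.θ s g) ≤ M + 2 → ‖F.q g‖ < a) (hδ : 0 < δ) :
    ∃ f' : W → ℂ, Differentiable ℂ f' ∧ (∀ w, ‖w‖ ≤ a → ‖w‖ ≤ b → ‖f' w - f w‖ ≤ δ) ∧
      ∃ τ ∈ U, ∀ d ∈ D, a ≤ ‖F.q (τ * d)‖ → ‖F.q (τ * d)‖ ≤ b →
        M < F.p (F.shear f' (τ * d)) := by
  classical
  have hfc : Continuous f := hf.continuous
  obtain ⟨τ0, hτ0U, hτa, hτinj⟩ := exists_generic F D hD hsep U hU hUne a hnull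
  -- Step 1: the bad points
  set Dbad : Set G := {d | d ∈ D ∧ a < ‖F.q (τ0 * d)‖ ∧ ‖F.q (τ0 * d)‖ ≤ b + 1 ∧
    F.p (F.shear f (τ0 * d)) ≤ M + 2} with hDbad
  have hbadfin : Dbad.Finite := by
    refine (finite_meets D U hU hUne hdisj {τ0} isCompact_singleton _
      (F.compact_shear hfc (b + 1) (M + 2))).subset ?_
    rintro d ⟨h1, -, h3, h4⟩
    exact ⟨h1, τ0, rfl, h3, h4⟩
  set Bd : Finset G := hbadfin.toFinset with hBd
  have hmemBd : ∀ d, d ∈ Bd ↔ d ∈ Dbad := fun d => by simp [hBd]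
  set J : ℕ := Bd.card with hJ
  -- Step 2: the relevant points
  have hfj : ∀ j : ℕ, Continuous fun w => f w + j * s := fun j => hfc.add continuous_const
  set Krel : Set G := ⋃ j ∈ Finset.range (J + 1),
    {g | ‖F.q g‖ ≤ b + 1 ∧ F.p (F.shear (fun w => f w + j * s) g) ≤ M + 1} with hKrel
  have hKc : IsCompact Krel := by
    apply Finset.isCompact_biUnion
    intro j _
    exact F.compact_shear (hfj j) (b + 1) (M + 1)
  set Drel : Set G := {d | d ∈ D ∧ ∃ τ ∈ L, τ * d ∈ Krel} with hDrel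
  have hrelfin : Drel.Finite := finite_meets D U hU hUne hdisj L hL Krel hKc
  -- Step 3: the slabs
  have hslab : ∀ d, ∃ (ℓ : W →L[ℂ] ℂ) (c c' : ℝ), d ∈ Dbad →
      c < (ℓ (F.q (τ0 * d))).re ∧ (ℓ (F.q (τ0 * d))).re < c' ∧ a * ‖ℓ‖ < c ∧
      (∀ d' ∈ Drel, d' ≠ d → (ℓ (F.q (τ0 * d'))).re < c ∨ c' < (ℓ (F.q (τ0 * d'))).re) ∧
      μ {g | (ℓ (F.q g)).re = c} = 0 ∧ μ {g | (ℓ (F.q g)).re = c'} = 0 := by
    intro d
    by_cases hd : d ∈ Dbad
    · have hfinB : ((fun d' => F.q (τ0 * d')) '' (Drel \ {d})).Finite :=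
        (hrelfin.subset sdiff_subset).image _
      have hnot : F.q (τ0 * d) ∉ (fun d' => F.q (τ0 * d')) '' (Drel \ {d}) := by
        rintro ⟨d', ⟨hd', hne⟩, hEq⟩
        exact hτinj d' hd'.1 d hd.1 hne hEq
      obtain ⟨ℓ, c, c', h1, h2, h3, h4, h5, h6⟩ := exists_slab (F.q (τ0 * d)) a ha0 hd.2.1 _
        hfinB hnot (fun ℓ => {c | 0 < μ {g | (ℓ (F.q g)).re = c}}) (by
          intro ℓ
          apply Measure.countable_meas_level_set_pos
          exact (Complex.continuous_re.comp (ℓ.continuous.comp F.q_cont)).measurable)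
      refine ⟨ℓ, c, c', fun _ => ⟨h1, h2, h3, ?_, ?_, ?_⟩⟩
      · intro d' hd' hne
        exact h4 _ ⟨d', ⟨hd', hne⟩, rfl⟩
      · simpa using h5
      · simpa using h6
    · exact ⟨0, 0, 0, fun h => absurd h hd⟩
  choose ℓ c c' hsl using hslab
  have hφc : ∀ d d' : G, Continuous fun τ : G => (ℓ d (F.q (τ * d'))).re := fun d d' =>
    Complex.continuous_re.comp ((ℓ d).continuous.comp (F.q_cont.comp (continuous_id.mul
      continuous_const)))
  -- Step 4: a small neighbourhood of `τ0`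
  have E1 : ∀ᶠ τ in 𝓝 τ0, ∀ d ∈ Bd, c d < (ℓ d (F.q (τ * d))).re ∧
      (ℓ d (F.q (τ * d))).re < c' d := by
    rw [Finset.eventually_all]
    intro d hd
    obtain ⟨h1, h2, -⟩ := hsl d ((hmemBd d).mp hd)
    exact ((hφc d d).continuousAt.eventually (lt_mem_nhds h1)).and
      ((hφc d d).continuousAt.eventually (gt_mem_nhds h2))
  have E2 : ∀ᶠ τ in 𝓝 τ0, ∀ d ∈ Bd, ∀ d' ∈ hrelfin.toFinset, d' ≠ d →
      ((ℓ d (F.q (τ * d'))).re < c d ∨ c' d < (ℓ d (F.q (τ * d'))).re) := by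
    rw [Finset.eventually_all]
    intro d hd
    rw [Finset.eventually_all]
    intro d' hd'
    by_cases hne : d' = d
    · exact Eventually.of_forall fun τ h => absurd hne h
    · obtain ⟨-, -, -, h4, -⟩ := hsl d ((hmemBd d).mp hd)
      rcases h4 d' (hrelfin.mem_toFinset.mp hd') hne with h | h
      · filter_upwards [(hφc d d').continuousAt.eventually (gt_mem_nhds h)] with τ hτ _
        exact Or.inl hτ
      · filter_upwards [(hφc d d').continuousAt.eventually (lt_mem_nhds h)] with τ hτ _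
        exact Or.inr hτ
  have hpc : ∀ (h : W → ℂ), Continuous h → ∀ d : G,
      Continuous fun τ : G => F.p (F.shear h (τ * d)) := fun h hh d =>
    F.p_cont.comp ((F.continuous_shear hh).comp (continuous_id.mul continuous_const))
  have hqc : ∀ d : G, Continuous fun τ : G => ‖F.q (τ * d)‖ := fun d =>
    (F.q_cont.comp (continuous_id.mul continuous_const)).norm
  have E3 : ∀ᶠ τ in 𝓝 τ0, ∀ d ∈ Bd, M + 2 < F.p (F.shear (fun w => f w + s) (τ * d)) := by
    rw [Finset.eventually_all]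
    intro d hd
    obtain ⟨-, h2, -, h4⟩ := (hmemBd d).mp hd
    have h5 : M + 2 < F.p (F.shear (fun w => f w + s) (τ0 * d)) := by
      by_contra hcon
      push Not at hcon
      have h6 : F.shear (fun w => f w + s) (τ0 * d) = F.θ s (F.shear f (τ0 * d)) := by
        show F.θ (f (F.q (τ0 * d)) + s) (τ0 * d) = F.θ s (F.θ (f (F.q (τ0 * d))) (τ0 * d))
        rw [← F.θ_add, add_comm]
      rw [h6] at hcon
      have h7 := hesc _ h4 hcon
      rw [F.q_shear] at h7
      linarith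
    exact (hpc _ (hfc.add continuous_const) d).continuousAt.eventually (lt_mem_nhds h5)
  have E4 : ∀ᶠ τ in 𝓝 τ0, ∀ d ∈ hrelfin.toFinset, d ∉ Dbad →
      (‖F.q (τ * d)‖ < a ∨ b < ‖F.q (τ * d)‖ ∨ M + 1 < F.p (F.shear f (τ * d))) := by
    rw [Finset.eventually_all]
    intro d hd
    by_cases hbad : d ∈ Dbad
    · exact Eventually.of_forall fun τ h => absurd hbad h
    · have hdD : d ∈ D := (hrelfin.mem_toFinset.mp hd).1
      have h0 := hτa d hdD
      rcases lt_or_gt_of_ne h0 with h1 | h1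
      · filter_upwards [(hqc d).continuousAt.eventually (gt_mem_nhds h1)] with τ hτ _
        exact Or.inl hτ
      · by_cases h2 : ‖F.q (τ0 * d)‖ ≤ b + 1
        · have h3 : M + 2 < F.p (F.shear f (τ0 * d)) := by
            by_contra hcon
            push Not at hcon
            exact hbad ⟨hdD, h1, h2, hcon⟩
          have h3' : M + 1 < F.p (F.shear f (τ0 * d)) := by linarith
          filter_upwards [(hpc f hfc d).continuousAt.eventually (lt_mem_nhds h3')] with τ hτ _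
          exact Or.inr (Or.inr hτ)
        · push Not at h2
          have h2' : b < ‖F.q (τ0 * d)‖ := by linarith
          filter_upwards [(hqc d).continuousAt.eventually (lt_mem_nhds h2')] with τ hτ _
          exact Or.inr (Or.inl hτ)
  obtain ⟨U1', hU1', hU1'o, hτ0U1'⟩ := eventually_nhds_iff.mp (E1.and (E2.and (E3.and E4)))
  set U1 : Set G := U1' ∩ U with hU1
  have hU1o : IsOpen U1 := hU1'o.inter hU
  have hU1ne : U1.Nonempty := ⟨τ0, hτ0U1', hτ0U⟩
  have hU1pos : 0 < μ U1 := hU1o.measure_pos μ hU1ne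
  -- Step 5: small parameters
  obtain ⟨δ1, hδ1, hsmall⟩ := F.exists_small b M
  set ε : ℝ := min δ δ1 / ((J + 1) * (‖s‖ + 1)) with hεdef
  have hmin : 0 < min δ δ1 := lt_min hδ hδ1
  have hε : 0 < ε := by positivity
  have hJε : ‖s‖ * (J * ε) ≤ min δ δ1 := by
    have h1 : ((J : ℝ) + 1) * (‖s‖ + 1) * ε = min δ δ1 := by
      rw [hεdef]; field_simp
    have h2 : ‖s‖ * (J * ε) ≤ ((J : ℝ) + 1) * (‖s‖ + 1) * ε := by
      have h3 : ‖s‖ * J ≤ ((J : ℝ) + 1) * (‖s‖ + 1) := by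
        have : (0 : ℝ) ≤ J := Nat.cast_nonneg J
        have := norm_nonneg s
        nlinarith
      calc ‖s‖ * (J * ε) = (‖s‖ * J) * ε := by ring
        _ ≤ ((J : ℝ) + 1) * (‖s‖ + 1) * ε := mul_le_mul_of_nonneg_right h3 hε.le
    linarith
  -- Step 6: thin corridors
  set φ : G × Bool → G → ℝ := fun i g => (ℓ i.1 (F.q g)).re with hφ
  set cc : G × Bool → ℝ := fun i => if i.2 then c' i.1 else c i.1 with hcc
  set I : Finset (G × Bool) := Bd ×ˢ Finset.univ with hI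
  have hφcont : ∀ i, Continuous (φ i) := fun i =>
    Complex.continuous_re.comp ((ℓ i.1).continuous.comp F.q_cont)
  have hK1 := F.compact' b (M + 1)
  have hK1c : IsClosed {g | ‖F.q g‖ ≤ b ∧ F.p g ≤ M + 1} :=
    (isClosed_le F.q_cont.norm continuous_const).inter (isClosed_le F.p_cont continuous_const)
  obtain ⟨η0, hη0, hthin⟩ := exists_thin _ hK1c hK1.measure_lt_top.ne I φ hφcont cc (by
    rintro ⟨d, i⟩ hi
    have hd : d ∈ Dbad := (hmemBd d).mp (Finset.mem_product.mp hi).1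
    obtain ⟨-, -, -, -, h5, h6⟩ := hsl d hd
    cases i
    · exact h5
    · exact h6) (μ U1) hU1pos
  have hη1 : ∃ η1 > 0, ∀ d ∈ Bd, η1 ≤ c d - a * ‖ℓ d‖ := by
    have : ∀ᶠ η in 𝓝[>] (0 : ℝ), ∀ d ∈ Bd, η ≤ c d - a * ‖ℓ d‖ := by
      rw [Finset.eventually_all]
      intro d hd
      obtain ⟨-, -, h3, -⟩ := hsl d ((hmemBd d).mp hd)
      filter_upwards [Ioo_mem_nhdsGT (sub_pos.mpr h3)] with η hη
      exact hη.2.le
    obtain ⟨η1, h1, h2⟩ := (this.and self_mem_nhdsWithin).exists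
    exact ⟨η1, h2, h1⟩
  obtain ⟨η1, hη1, hη1'⟩ := hη1
  set η : ℝ := min η0 η1 with hη
  have hη0' : 0 < η := lt_min hη0 hη1
  -- Step 7: the functions
  have hX : ∀ d, ∃ X : W → ℂ, d ∈ Dbad → Differentiable ℂ X ∧ ∀ w, ‖w‖ ≤ b →
      ((ℓ d w).re ≤ c d - η → ‖X w‖ ≤ ε) ∧
      (c d + η ≤ (ℓ d w).re → (ℓ d w).re ≤ c' d - η → ‖X w - 1‖ ≤ ε) ∧
      (c' d + η ≤ (ℓ d w).re → ‖X w‖ ≤ ε) := by
    intro d
    by_cases hd : d ∈ Dbad
    · obtain ⟨h1, h2, -⟩ := hsl d hd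
      obtain ⟨X, hX1, hX2⟩ := exists_slabFun (ℓ d) (c d) (c' d) (h1.trans h2) η ε b hη0' hε
      exact ⟨X, fun _ => ⟨hX1, hX2⟩⟩
    · exact ⟨0, fun h => absurd h hd⟩
  choose X hX using hX
  set f' : W → ℂ := fun w => f w + s * ∑ d ∈ Bd, X d w with hf'
  have hf'd : Differentiable ℂ f' := by
    apply hf.add
    apply Differentiable.const_mul
    apply Differentiable.fun_sum
    intro d hd
    exact (hX d ((hmemBd d).mp hd)).1
  refine ⟨f', hf'd, ?_, ?_⟩
  · intro w hw hwb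
    have h1 : ‖∑ d ∈ Bd, X d w‖ ≤ J * ε := by
      have h0 : ∀ d ∈ Bd, ‖X d w‖ ≤ ε := ?_
      · refine (norm_sum_le_of_le _ h0).trans ?_
        rw [Finset.sum_const, nsmul_eq_mul]
      intro d hd
      apply ((hX d ((hmemBd d).mp hd)).2 w hwb).1
      have h2 : (ℓ d w).re ≤ ‖ℓ d‖ * ‖w‖ :=
        (Complex.re_le_norm _).trans ((ℓ d).le_opNorm w)
      have h3 : ‖ℓ d‖ * ‖w‖ ≤ ‖ℓ d‖ * a := mul_le_mul_of_nonneg_left hw (norm_nonneg _)
      have h4 := hη1' d hd
      have h5 : η ≤ η1 := min_le_right _ _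
      linarith [mul_comm a ‖ℓ d‖]
    have h2 : f' w - f w = s * ∑ d ∈ Bd, X d w := by simp only [hf']; ring
    rw [h2, norm_mul]
    calc ‖s‖ * ‖∑ d ∈ Bd, X d w‖ ≤ ‖s‖ * (J * ε) := mul_le_mul_of_nonneg_left h1 (norm_nonneg _)
      _ ≤ min δ δ1 := hJε
      _ ≤ δ := min_le_left _ _
  -- Step 9: the measure of the bad set
  set A : Set G := {g | ∃ i ∈ I, |φ i g - cc i| ≤ η} with hA
  have hAm : MeasurableSet A := by
    have : A = ⋃ i ∈ I, {g | |φ i g - cc i| ≤ η} := by ext g; simp [hA]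
    rw [this]
    apply IsClosed.measurableSet
    apply isClosed_biUnion_finset
    intro i _
    exact isClosed_le ((hφcont i).sub continuous_const).abs continuous_const
  have hAinv : ∀ u g, F.θ u g ∈ A ↔ g ∈ A := by
    intro u g
    simp only [hA, mem_ofPred_eq, hφ, F.q_inv]
  set B : Set G := {g | g ∈ A ∧ ‖F.q g‖ ≤ b ∧ F.p (F.shear f' g) ≤ M} with hB
  have hBm : MeasurableSet B := by
    apply hAm.inter
    exact ((isClosed_le F.q_cont.norm continuous_const).inter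
      (isClosed_le (F.p_cont.comp (F.continuous_shear hf'd.continuous))
        continuous_const)).measurableSet
  have hBlt : μ B < μ U1 := by
    refine (F.measure_shear_le hf'd.continuous A hAm hAinv b M).trans_lt ?_
    refine (measure_mono ?_).trans_lt hthin
    rintro g ⟨⟨i, hi, hle⟩, h2, h3⟩
    exact ⟨⟨h2, h3⟩, i, hi, hle.trans (min_le_left _ _)⟩
  -- Step 10: averaging
  obtain ⟨τ1, hτ1, havoid⟩ := exists_translate_avoid D hD U1 hU1o.measurableSet
    (fun d hd d' hd' τ hτ τ' hτ' h => hdisj d hd d' hd' τ hτ.2 τ' hτ'.2 h) B hBm hBlt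
  refine ⟨τ1, hτ1.2, ?_⟩
  -- Step 11: verification
  intro d hd hda hdb
  by_contra hcon
  push Not at hcon
  obtain ⟨F1, F2, F3, F4⟩ := hU1' τ1 hτ1.1
  have hgA : τ1 * d ∉ A := fun h => havoid d hd ⟨h, hdb, hcon⟩
  have hfar : ∀ d'' ∈ Bd, η < |(ℓ d'' (F.q (τ1 * d))).re - c d''| ∧
      η < |(ℓ d'' (F.q (τ1 * d))).re - c' d''| := by
    intro d'' hd''
    constructor
    · by_contra h
      push Not at h
      exact hgA ⟨(d'', false), by simp [hI, hd''], h⟩
    · by_contra h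
      push Not at h
      exact hgA ⟨(d'', true), by simp [hI, hd''], h⟩
  set P : Finset G := Bd.filter fun d'' => c d'' < (ℓ d'' (F.q (τ1 * d))).re ∧
    (ℓ d'' (F.q (τ1 * d))).re < c' d'' with hP
  have hPJ : P.card ≤ J := Finset.card_filter_le _ _
  have hXval : ∀ d'' ∈ Bd, ‖X d'' (F.q (τ1 * d)) - (if d'' ∈ P then 1 else 0)‖ ≤ ε := by
    intro d'' hd''
    obtain ⟨h1, h2⟩ := hfar d'' hd''
    obtain ⟨g1, g2, g3⟩ := (hX d'' ((hmemBd d'').mp hd'')).2 (F.q (τ1 * d)) hdb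
    by_cases hmem : d'' ∈ P
    · rw [if_pos hmem]
      obtain ⟨-, h3, h4⟩ := Finset.mem_filter.mp hmem
      rw [abs_of_pos (by linarith)] at h1
      rw [abs_of_neg (by linarith)] at h2
      exact g2 (by linarith) (by linarith)
    · rw [if_neg hmem, sub_zero]
      have h5 : ¬ (c d'' < (ℓ d'' (F.q (τ1 * d))).re ∧ (ℓ d'' (F.q (τ1 * d))).re < c' d'') :=
        fun h => hmem (Finset.mem_filter.mpr ⟨hd'', h⟩)
      rcases le_or_gt (ℓ d'' (F.q (τ1 * d))).re (c d'') with h6 | h6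
      · rw [abs_of_nonpos (by linarith)] at h1
        exact g1 (by linarith)
      · have h7 : c' d'' ≤ (ℓ d'' (F.q (τ1 * d))).re := by
          by_contra h8
          push Not at h8
          exact h5 ⟨h6, h8⟩
        rw [abs_of_nonneg (by linarith)] at h2
        exact g3 (by linarith)
  have hsum : ‖∑ d'' ∈ Bd, X d'' (F.q (τ1 * d)) - (P.card : ℂ)‖ ≤ J * ε := by
    have h1 : (P.card : ℂ) = ∑ d'' ∈ Bd, (if d'' ∈ P then (1 : ℂ) else 0) := by
      rw [← Finset.sum_filter]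
      have : Bd.filter (fun d'' => d'' ∈ P) = P := by
        ext x
        simp only [Finset.mem_filter]
        constructor
        · exact fun h => h.2
        · exact fun h => ⟨(Finset.mem_filter.mp h).1, h⟩
      rw [this]
      simp
    rw [h1, ← Finset.sum_sub_distrib]
    refine (norm_sum_le_of_le _ hXval).trans ?_
    rw [Finset.sum_const, nsmul_eq_mul]
  set u : ℂ := s * (∑ d'' ∈ Bd, X d'' (F.q (τ1 * d)) - (P.card : ℂ)) with hu
  have hun : ‖u‖ ≤ δ1 := by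
    rw [hu, norm_mul]
    calc ‖s‖ * ‖∑ d'' ∈ Bd, X d'' (F.q (τ1 * d)) - (P.card : ℂ)‖
        ≤ ‖s‖ * (J * ε) := mul_le_mul_of_nonneg_left hsum (norm_nonneg _)
      _ ≤ min δ δ1 := hJε
      _ ≤ δ1 := min_le_right _ _
  have hshear : F.shear f' (τ1 * d) =
      F.θ u (F.shear (fun w => f w + P.card * s) (τ1 * d)) := by
    show F.θ (f' (F.q (τ1 * d))) (τ1 * d) =
      F.θ u (F.θ (f (F.q (τ1 * d)) + P.card * s) (τ1 * d))
    rw [← F.θ_add]
    congr 1
    simp only [hf', hu]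
    ring
  have hp1 : F.p (F.shear (fun w => f w + P.card * s) (τ1 * d)) ≤ M + 1 := by
    apply hsmall _ u _ hun
    · rw [← hshear]; exact hcon
    · rw [F.q_shear]; exact hdb
  have hdrel : d ∈ Drel := by
    refine ⟨hd, τ1, hUL hτ1.2, ?_⟩
    simp only [hKrel, mem_iUnion, Finset.mem_range]
    exact ⟨P.card, by omega, by linarith, hp1⟩
  have hPsub : ∀ d'' ∈ P, d'' = d := by
    intro d'' hd''
    by_contra hne
    obtain ⟨h1, h2, h3⟩ := Finset.mem_filter.mp hd''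
    rcases F2 d'' h1 d (hrelfin.mem_toFinset.mpr hdrel) (fun h => hne h.symm) with h | h
    · linarith
    · linarith
  by_cases hdbad : d ∈ Dbad
  · have hdP : d ∈ P := Finset.mem_filter.mpr ⟨(hmemBd d).mpr hdbad, F1 d ((hmemBd d).mpr hdbad)⟩
    have hPeq : P = {d} := by
      ext x
      simp only [Finset.mem_singleton]
      exact ⟨hPsub x, fun h => h ▸ hdP⟩
    have hcard : P.card = 1 := by rw [hPeq]; simp
    rw [hcard] at hp1
    simp only [Nat.cast_one, one_mul] at hp1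
    have := F3 d ((hmemBd d).mpr hdbad)
    linarith
  · have hPeq : P = ∅ := by
      rw [Finset.eq_empty_iff_forall_notMem]
      intro x hx
      have hxd := hPsub x hx
      subst hxd
      exact hdbad ((hmemBd x).mp (Finset.mem_filter.mp hx).1)
    have hcard : P.card = 0 := by rw [hPeq]; simp
    rw [hcard] at hp1
    simp only [Nat.cast_zero, zero_mul, add_zero] at hp1
    rcases F4 d (hrelfin.mem_toFinset.mpr hdrel) hdbad with h | h | h
    · linarith
    · linarith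
    · linarith

end Pool.Agent.Work.MP_970e75_an
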