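import Pool.Agent.Work.MP_970e75_an.Avoid
import Pool.Agent.Work.MP_970e75_an.Basic

/-!
Tameness of uniformly discrete subsets from two flows.
-/

namespace Pool.Agent.Work.MP_970e75_an.Lin

open Filter Topology Set MeasureTheory

variable {N : ℕ} {G : Subgroup (SL N)} [MeasurableSpace G] {μ : Measure G}
  {W : Type*} [NormedAddCommGroup W] [NormedSpace ℂ W]

/-- The shear as a bijection. -/
noncomputable def shearEquiv (F : FlowData G μ W) (f : W → ℂ) : G ≃ G where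
  toFun := F.shear f
  invFun := F.shear (fun w => - f w)
  left_inv := F.shear_neg f
  right_inv := F.shear_neg' f

theorem isAutomorphism_shearEquiv (F : FlowData G μ W)
    (hol : ∀ f, Differentiable ℂ f → IsHolomorphic G (F.shear f)) (f : W → ℂ)
    (hf : Differentiable ℂ f) : IsAutomorphism G (shearEquiv F f) :=
  ⟨hol f hf, hol _ hf.neg⟩

/-- The second shear as a bijection. -/
noncomputable def flowEquiv {W' : Type*} (q' : G → W') (θ' : ℂ → G → G) (h0 : ∀ g, θ' 0 g = g)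
    (hadd : ∀ s t g, θ' (s + t) g = θ' s (θ' t g)) (hq : ∀ s g, q' (θ' s g) = q' g)
    (h : W' → ℂ) : G ≃ G where
  toFun g := θ' (h (q' g)) g
  invFun g := θ' (- h (q' g)) g
  left_inv g := by
    simp only
    rw [hq, ← hadd, neg_add_cancel, h0]
  right_inv g := by
    simp only
    rw [hq, ← hadd, add_neg_cancel, h0]

/-- Uniformly discrete subsets are tame in the presence of two suitable flows. -/
theorem isTame_of_flows [BorelSpace G] [LocallyCompactSpace G] [μ.IsMulRightInvariant]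
    [μ.IsOpenPosMeasure] [IsFiniteMeasureOnCompacts μ] [SFinite μ]
    {W' : Type*} [NormedAddCommGroup W'] [NormedSpace ℂ W'] [FiniteDimensional ℂ W']
    (F : FlowData G μ W) (q' : G → W') (hp : ∀ g, F.p g = ‖q' g‖) (θ' : ℂ → G → G)
    (h0 : ∀ g, θ' 0 g = g) (hadd : ∀ s t g, θ' (s + t) g = θ' s (θ' t g))
    (hq : ∀ s g, q' (θ' s g) = q' g) (l : Filter ℂ) [l.NeBot]
    (hesc : ∀ (g : G) (K : Set G), IsCompact K → ∀ᶠ s in l, θ' s g ∉ K)
    (hol1 : ∀ f : W → ℂ, Differentiable ℂ f → IsHolomorphic G (F.shear f))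
    (hol2 : ∀ h : W' → ℂ, Differentiable ℂ h → IsHolomorphic G (fun g => θ' (h (q' g)) g))
    (D : Set G) (hD : D.Countable)
    (hsep : ∀ d ∈ D, ∀ d' ∈ D, d ≠ d' → μ {τ | F.q (τ * d) = F.q (τ * d')} = 0)
    (U : Set G) (hU : IsOpen U) (hU1 : (1 : G) ∈ U)
    (hdisj : ∀ d ∈ D, ∀ d' ∈ D, ∀ τ ∈ U, ∀ τ' ∈ U, τ * d = τ' * d' → d = d') :
    IsTame G D := by
  classical
  intro ρ hρ ζ
  obtain ⟨L, hL, hL1⟩ := exists_compact_mem_nhds (1 : G)
  obtain ⟨τ, -, f, hf, hfin⟩ := exists_proper_shear F D hD hsep (U ∩ interior L)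
    (hU.inter isOpen_interior) ⟨1, hU1, mem_interior_iff_mem_nhds.mpr hL1⟩
    (fun d hd d' hd' τ hτ τ' hτ' h => hdisj d hd d' hd' τ hτ.1 τ' hτ'.1 h) L hL
    (inter_subset_right.trans interior_subset)
  let T : G → G := fun d => F.shear f (τ * d)
  have hfin' : ∀ R : ℝ, {d | d ∈ D ∧ ‖q' (T d)‖ ≤ R}.Finite := by
    intro R
    have := hfin R
    simp only [hp] at this
    exact this
  set P : Set W' := (fun d => q' (T d)) '' D with hP
  have hPfin : ∀ R : ℝ, {w ∈ P | ‖w‖ ≤ R}.Finite := by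
    intro R
    refine ((hfin' R).image (fun d => q' (T d))).subset ?_
    rintro w ⟨⟨d, hd, rfl⟩, hn⟩
    exact ⟨d, ⟨hd, hn⟩, rfl⟩
  have hval : ∀ w : W', ∃ v : ℂ, ∀ d ∈ D, q' (T d) = w → ζ d ≤ ρ (θ' v (T d)) := by
    intro w
    have hfinw : {d | d ∈ D ∧ q' (T d) = w}.Finite := by
      refine (hfin' ‖w‖).subset ?_
      rintro d ⟨hd, rfl⟩
      exact ⟨hd, le_rfl⟩
    have hev : ∀ᶠ s in l, ∀ d ∈ hfinw.toFinset, θ' s (T d) ∉ {g | ρ g ≤ ζ d} := by
      rw [Finset.eventually_all]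
      intro d _
      exact hesc (T d) _ (hρ.2.2 (ζ d))
    obtain ⟨v, hv⟩ := hev.exists
    refine ⟨v, ?_⟩
    intro d hd hw
    have := hv d (hfinw.mem_toFinset.mpr ⟨hd, hw⟩)
    simp only [mem_ofPred_eq, not_le] at this
    exact this.le
  choose v hv using hval
  obtain ⟨h, hh, hhv⟩ := exists_entire_values P hPfin v
  refine ⟨((Equiv.mulLeft τ).trans (shearEquiv F f)).trans (flowEquiv q' θ' h0 hadd hq h), ?_, ?_⟩
  · apply IsAutomorphism.trans
    · exact (isAutomorphism_mulLeft G τ).trans (isAutomorphism_shearEquiv F hol1 f hf)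
    · exact ⟨hol2 h hh, hol2 _ hh.neg⟩
  · intro d hd
    show ζ d ≤ ρ (θ' (h (q' (T d))) (T d))
    rw [hhv _ ⟨d, hd, rfl⟩]
    exact hv _ d hd rfl

end Pool.Agent.Work.MP_970e75_an.Lin
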